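import Pool.Agent.W_MP_448cb3_h96.MainA

namespace Pool.Agent.GaussPoset

set_option linter.unusedSectionVars false

open Finset

universe u

variable {P : Type u} [Fintype P] [PartialOrder P] [DecidableEq P]

lemma coheight_eq_lev (x : P) : Order.coheight x = (lev x : ℕ∞) := by
  have key : ∀ n : ℕ, ∀ x : P, lev x = n → Order.coheight x = (n : ℕ∞) := by
    intro n
    induction n using Nat.strong_induction_on with
    | _ n ih =>
      intro x hx
      apply le_antisymm
      · rw [Order.coheight_le_coe_iff]
        intro y hy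
        have h1 := lev_strictAnti (show x < y from hy)
        rw [ih (lev y) (by omega) y rfl]
        exact_mod_cast (by omega : lev y < n)
      · rcases n with _ | k
        · simp
        · obtain ⟨y, hy, hy2⟩ := exists_lev_succ hx
          have h1 := Order.coheight_add_one_le hy
          rw [ih k (by omega) y hy2] at h1
          exact_mod_cast h1
  exact key _ x rfl

lemma height_eq_colev (x : P) : Order.height x = (colev x : ℕ∞) := by
  unfold colev
  rw [← coheight_eq_lev (P := Pᵒᵈ), Order.coheight_toDual]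

lemma gr_of_connected (hG : IsGaussian P) (hc : (SimpleGraph.hasse P).Connected) :
    ∃ r, Gr P r := by
  obtain ⟨x0⟩ := hc.nonempty
  refine ⟨lev x0 + colev x0, hG, fun x => ?_⟩
  have h1 := hc.preconnected x0 x
  rw [SimpleGraph.reachable_iff_reflTransGen] at h1
  induction h1 with
  | refl => rfl
  | tail _ hbc ih =>
    rw [SimpleGraph.hasse_adj] at hbc
    rcases hbc with h | h
    · rw [← lev_add_colev_cov hG h, ih]
    · rw [lev_add_colev_cov hG h, ih]

variable {r : ℕ}

lemma ncard_low (H : Gr P r) (x : P) : {y | y ⋖ x}.ncard = dn (lev x + 1) x := by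
  classical
  unfold dn
  rw [← Set.ncard_coe_finset]
  congr 1
  ext y
  simp only [Set.mem_ofPred_eq, coe_filter, mem_lv, H.covBy_iff]
  tauto

lemma ncard_up (H : Gr P r) {x : P} {j : ℕ} (hx : lev x = j + 1) :
    {y | x ⋖ y}.ncard = up j x := by
  classical
  unfold up
  rw [← Set.ncard_coe_finset]
  congr 1
  ext y
  simp only [Set.mem_ofPred_eq, coe_filter, mem_lv, H.covBy_iff]
  constructor
  · rintro ⟨h1, h2⟩; exact ⟨by omega, h1⟩
  · rintro ⟨h1, h2⟩; exact ⟨h2, by omega⟩

lemma dn_pos (H : Gr P r) {x : P} {j : ℕ} (hx : lev x + 1 = j) (hj : j ≤ r) : 1 ≤ dn j x := by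
  classical
  obtain ⟨z, hz, hz2⟩ := H.exists_below (x := x) (j := j) (by omega) hj
  unfold dn
  rw [Nat.one_le_iff_ne_zero, Finset.card_ne_zero]
  exact ⟨z, by rw [mem_filter, mem_lv]; exact ⟨hz2, lt_of_le_of_ne hz (by rintro rfl; omega)⟩⟩

lemma up_pos {x : P} {j : ℕ} (hx : lev x = j + 1) : 1 ≤ up j x := by
  classical
  obtain ⟨z, hz, hz2⟩ := exists_lev_succ hx
  unfold up
  rw [Nat.one_le_iff_ne_zero, Finset.card_ne_zero]
  exact ⟨z, by rw [mem_filter, mem_lv]; exact ⟨hz2, hz⟩⟩

lemma sum_one_two {α : Type*} (s : Finset α) (f : α → ℕ) (h : ∀ a ∈ s, 1 ≤ f a ∧ f a ≤ 2) :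
    ∑ a ∈ s, f a = s.card + (s.filter (fun a => f a = 2)).card := by
  rw [Finset.card_filter, Finset.card_eq_sum_ones, ← Finset.sum_add_distrib]
  refine Finset.sum_congr rfl fun a ha => ?_
  have := h a ha
  split_ifs <;> omega

lemma dn_sum_eq_up_sum (j : ℕ) : ∑ a ∈ lv P j, dn (j + 1) a = ∑ v ∈ lv P (j + 1), up j v := by
  classical
  have := Finset.sum_card_bipartiteAbove_eq_sum_card_bipartiteBelow
    (s := lv P j) (t := lv P (j + 1)) (fun a v => v < a)
  unfold dn up
  simp only [Finset.bipartiteAbove, Finset.bipartiteBelow] at this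
  convert this using 2

/-- number of elements of level `j-1` covering two elements plus number of maximal elements is the
size of level `j` -/
lemma count_two (H : Gr P r) : ∀ j, j ≤ r →
    ((univ.filter (fun a : P => lev a + 1 = j)).filter (fun a => dn j a = 2)).card +
      (lv P 0).card = (lv P j).card := by
  intro j
  induction j with
  | zero =>
    intro _
    have : (univ.filter (fun a : P => lev a + 1 = 0)).filter (fun a => dn 0 a = 2) = ∅ := by
      rw [Finset.filter_eq_empty_iff]
      intro a ha
      simp at ha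
    rw [this, Finset.card_empty, zero_add]
  | succ j ih =>
    intro hj
    have h1 := ih (by omega)
    have h2 := count_eq H (j := j) (by omega)
    have h3 := dn_sum_eq_up_sum (P := P) j
    rw [sum_one_two _ _ (fun a ha => ⟨dn_pos H (by rw [mem_lv] at ha; omega) hj,
        (energy_one H hj).1 a (by rw [mem_lv] at ha; omega)⟩),
      sum_one_two _ _ (fun a ha => ⟨up_pos (mem_lv.mp ha),
        (energy_one H (j := j) (by omega)).2.1 a (mem_lv.mp ha)⟩)] at h3
    have h4 : (univ.filter (fun a : P => lev a + 1 = j + 1)) = lv P j := by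
      unfold lv
      refine Finset.filter_congr fun a _ => ?_
      omega
    rw [h4]
    omega

end Pool.Agent.GaussPoset
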