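import Pool.Agent.W_MP_448cb3_h96.Excess

namespace Pool.Agent.GaussPoset

set_option linter.unusedSectionVars false

open Polynomial Finset

universe u

variable {P : Type u} [Fintype P] [PartialOrder P] [DecidableEq P]

lemma constantCoeff_Den {n : ℕ} {h : Fin n → ℕ} (hpos : ∀ i, 0 < h i) :
    PowerSeries.constantCoeff (Den h) = 1 := by
  unfold Den
  rw [map_prod]
  refine Finset.prod_eq_one fun i _ => ?_
  rw [map_sub, map_one, map_pow, PowerSeries.constantCoeff_X, zero_pow (hpos i).ne', sub_zero]

lemma exq_C_X_pow_mul (N M : ℕ) (f : Polynomial (PowerSeries ℤ)) :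
    exq N (C (PowerSeries.X ^ M) * f) = if M ≤ N then exq (N - M) f else 0 := by
  ext k
  rw [coeff_exq, Polynomial.coeff_C_mul, PowerSeries.coeff_X_pow_mul']
  split_ifs
  · rw [coeff_exq]
  · rfl

lemma exq_zero (f : Polynomial (PowerSeries ℤ)) :
    exq 0 f = f.map (PowerSeries.constantCoeff (R := ℤ)) := by
  ext k
  rw [coeff_exq, Polynomial.coeff_map, PowerSeries.coeff_zero_eq_constantCoeff]

open Classical in
lemma window_fact (j : ℕ) {h : Fin (Fintype.card P) → ℕ} (hpos : ∀ i, 0 < h i)
    (hU : ∀ m : ℕ, U P m * ∏ i, (1 - (X : ℤ[X]) ^ (h i)) = ∏ i, (1 - (X : ℤ[X]) ^ (m + h i))) :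
    ∃ R : Polynomial (PowerSeries ℤ),
      W P j = C (PowerSeries.X ^ (∑ i, min j (h i - 1))) *
        (((1 + X : ℤ[X]) ^ ((univ.filter (fun i => h i - 1 = j)).card)).map
          (PowerSeries.C : ℤ →+* PowerSeries ℤ) * R) ∧
      R.map (PowerSeries.constantCoeff (R := ℤ)) =
        X ^ (univ.filter (fun i => h i - 1 < j)).card := by
  have hD1 := constantCoeff_Den hpos
  have hunit : IsUnit (Den h) := by
    rw [PowerSeries.isUnit_iff_constantCoeff, hD1]; exact isUnit_one
  obtain ⟨D', hD'⟩ := hunit.exists_right_inv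
  have hD2 : PowerSeries.constantCoeff D' = 1 := by
    have := congrArg (PowerSeries.constantCoeff (R := ℤ)) hD'
    rw [map_mul, hD1, one_mul, map_one] at this
    exact this
  let fac : Fin (Fintype.card P) → Polynomial (PowerSeries ℤ) := fun i =>
    C (PowerSeries.X ^ (j - (h i - 1))) + C (PowerSeries.X ^ ((h i - 1) - j)) * X
  refine ⟨(∏ i ∈ univ.filter (fun i => ¬ (h i - 1 = j)), fac i) * C D', ?_, ?_⟩
  · have hW := W_identity j hpos hU
    have h1 : W P j = (W P j * C (Den h)) * C D' := by
      rw [mul_assoc, ← C_mul, hD', C_1, mul_one]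
    have h2 : ∏ i, (C (PowerSeries.X ^ j) + C (PowerSeries.X ^ (h i - 1)) * X) =
        C (PowerSeries.X ^ (∑ i, min j (h i - 1))) * ∏ i, fac i := by
      rw [← Finset.prod_pow_eq_pow_sum, map_prod, ← Finset.prod_mul_distrib]
      refine Finset.prod_congr rfl fun i _ => ?_
      simp only [fac]
      rw [mul_add, ← C_mul, ← pow_add, ← mul_assoc, ← C_mul, ← pow_add]
      have e1 : min j (h i - 1) + (j - (h i - 1)) = j := by omega
      have e2 : min j (h i - 1) + (h i - 1 - j) = h i - 1 := by omega
      rw [e1, e2]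
    have h3 : ∏ i, fac i = ((1 + X : ℤ[X]) ^ ((univ.filter (fun i => h i - 1 = j)).card)).map
          (PowerSeries.C : ℤ →+* PowerSeries ℤ) *
          ∏ i ∈ univ.filter (fun i => ¬ (h i - 1 = j)), fac i := by
      rw [← Finset.prod_filter_mul_prod_filter_not univ (fun i => h i - 1 = j)]
      congr 1
      rw [Finset.prod_congr rfl (g := fun _ => (1 + X : Polynomial (PowerSeries ℤ)))]
      · rw [Finset.prod_const]
        simp
      · intro i hi
        simp only [mem_filter, mem_univ, true_and] at hi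
        simp only [fac]
        rw [hi]
        simp
    rw [h1, hW, h2, h3]
    ring
  · rw [Polynomial.map_mul, Polynomial.map_C, hD2, C_1, mul_one, Polynomial.map_prod]
    have h4 : ∀ i ∈ univ.filter (fun i => ¬ (h i - 1 = j)),
        (fac i).map (PowerSeries.constantCoeff (R := ℤ)) =
          if h i - 1 < j then (X : ℤ[X]) else 1 := by
      intro i hi
      simp only [mem_filter, mem_univ, true_and] at hi
      simp only [fac]
      have e0 : ∀ k : ℕ, PowerSeries.constantCoeff ((PowerSeries.X : PowerSeries ℤ) ^ k) =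
          (0 : ℤ) ^ k := by
        intro k; rw [map_pow, PowerSeries.constantCoeff_X]
      rw [Polynomial.map_add, Polynomial.map_mul, Polynomial.map_C, Polynomial.map_C,
        Polynomial.map_X, e0, e0]
      split_ifs with h5
      · rw [zero_pow (M₀ := ℤ) (n := j - (h i - 1)) (by omega),
          show h i - 1 - j = 0 by omega]
        simp
      · rw [zero_pow (M₀ := ℤ) (n := h i - 1 - j) (by omega),
          show j - (h i - 1) = 0 by omega]
        simp
    rw [Finset.prod_congr rfl h4, Finset.prod_ite, Finset.prod_const_one, mul_one,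
      Finset.prod_const, Finset.filter_filter]
    congr 2
    ext i
    simp only [mem_filter, mem_univ, true_and]
    omega

/-- the level sets -/
noncomputable def lv (P : Type u) [Fintype P] [PartialOrder P] [DecidableEq P] (j : ℕ) :
    Finset P := univ.filter (fun x => lev x = j)

/-- number of elements on levels `< j` -/
noncomputable def below (P : Type u) [Fintype P] [PartialOrder P] [DecidableEq P] (j : ℕ) :
    ℕ := (univ.filter (fun x : P => lev x < j)).card

lemma mem_lv {j : ℕ} {x : P} : x ∈ lv P j ↔ lev x = j := by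
  unfold lv; simp

lemma rho_zero (j : ℕ) (x : P) : rho j 0 x = -((j - lev x : ℕ) : ℤ) := by
  unfold rho; simp

lemma FI_zero (j : ℕ) (x : P) : FI j 0 x ↔ lev x < j := by
  constructor
  · rintro (h | ⟨z, hz, h⟩)
    · rw [rho_zero] at h; omega
    · rw [rho_zero, rho_zero] at h; omega
  · intro h
    left
    rw [rho_zero]; omega

lemma FA_zero (j : ℕ) (x : P) : FA j 0 x ↔ j < lev x := by
  constructor
  · rintro ⟨y, hy, h⟩
    rw [rho_zero, rho_zero] at h
    have := lev_strictAnti hy
    omega
  · intro h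
    obtain ⟨y, hy, hy2⟩ := exists_lev_succ (x := x) (k := lev x - 1) (by omega)
    refine ⟨y, hy, ?_⟩
    rw [rho_zero, rho_zero]; omega

lemma Z_zero (j : ℕ) : Z P j 0 = X ^ (below P j) * (1 + X) ^ (lv P j).card := by
  classical
  unfold Z
  rw [Finset.piAntidiag_zero, Finset.sum_singleton]
  have hA : Adm j (0 : P → ℕ) := by
    intro x
    rw [FI_zero, FA_zero]; omega
  rw [if_pos hA]
  congr 2
  · unfold nf below
    congr 1
    ext x
    simp [FI_zero]
  · congr 1
    ext x
    simp only [Pk, lv, mem_filter, mem_univ, true_and, FI_zero, FA_zero]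
    omega

lemma X_pow_mul_inj {a b c d : ℕ} (h : (X : ℤ[X]) ^ a * (1 + X) ^ b = X ^ c * (1 + X) ^ d) :
    a = c ∧ b = d := by
  have h1 := congrArg (fun f : ℤ[X] => f.eval 1) h
  simp only [eval_mul, eval_pow, eval_X, one_pow, one_mul, eval_add, eval_one] at h1
  have h2 : b = d := by
    have h3 : (2 : ℕ) ^ b = 2 ^ d := by
      have h4 : ((2 : ℤ)) ^ b = 2 ^ d := by
        rw [show (2 : ℤ) = 1 + 1 by norm_num]; exact h1
      exact_mod_cast h4
    exact Nat.pow_right_injective (le_refl 2) h3
  refine ⟨?_, h2⟩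
  rw [h2] at h
  have h5 : ((1 : ℤ[X]) + X) ^ d ≠ 0 := by
    intro h6
    have := congrArg (fun f : ℤ[X] => f.eval 1) h6
    simp only [eval_pow, eval_add, eval_one, eval_X, eval_zero] at this
    norm_num at this
  have h7 := mul_right_cancel₀ h5 h
  have h8 := congrArg Polynomial.natDegree h7
  simpa using h8

lemma X_pow_mul_ne_zero (a b : ℕ) : (X : ℤ[X]) ^ a * (1 + X) ^ b ≠ 0 := by
  intro h
  have := congrArg (fun f : ℤ[X] => f.eval 1) h
  simp only [eval_mul, eval_pow, eval_X, one_pow, one_mul, eval_add, eval_one, eval_zero] at this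
  norm_num at this

open Classical in
/-- the numbers of the `h_i` with given value are the sizes of the levels, and all the
energy `n` window polynomials are divisible by `(1+t)^{b_j}` -/
theorem window_main (j : ℕ) {h : Fin (Fintype.card P) → ℕ} (hpos : ∀ i, 0 < h i)
    (hU : ∀ m : ℕ, U P m * ∏ i, (1 - (X : ℤ[X]) ^ (h i)) = ∏ i, (1 - (X : ℤ[X]) ^ (m + h i))) :
    (univ.filter (fun i => h i - 1 < j)).card = below P j ∧
    (univ.filter (fun i => h i - 1 = j)).card = (lv P j).card ∧
    ∀ n, (1 + X : ℤ[X]) ^ (lv P j).card ∣ Z P j n := by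
  obtain ⟨R, hW, hR⟩ := window_fact j hpos hU
  set M := ∑ i, min j (h i - 1) with hM
  set R' := ((1 + X : ℤ[X]) ^ ((univ.filter (fun i => h i - 1 = j)).card)).map
          (PowerSeries.C : ℤ →+* PowerSeries ℤ) * R with hR'
  have h0 : exq 0 R' = X ^ (univ.filter (fun i => h i - 1 < j)).card *
      (1 + X) ^ ((univ.filter (fun i => h i - 1 = j)).card) := by
    rw [hR', exq_map_mul, exq_zero, hR, mul_comm]
  have key : ∀ N, (if M ≤ N then exq (N - M) R' else 0) =
      if M0 P j ≤ N then Z P j (N - M0 P j) else 0 := by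
    intro N
    rw [← exq_C_X_pow_mul, ← hW, exq_W]
  have hle1 : M0 P j ≤ M := by
    by_contra hcon
    have := key M
    rw [if_pos le_rfl, if_neg hcon, Nat.sub_self, h0] at this
    exact X_pow_mul_ne_zero _ _ this
  have hle2 : M ≤ M0 P j := by
    by_contra hcon
    have := key (M0 P j)
    rw [if_neg hcon, if_pos le_rfl, Nat.sub_self, Z_zero] at this
    exact X_pow_mul_ne_zero _ _ this.symm
  have hMM : M = M0 P j := le_antisymm hle2 hle1
  have key2 : ∀ n, Z P j n = exq n R' := by
    intro n
    have := key (n + M)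
    rw [← hMM, if_pos (Nat.le_add_left _ _), if_pos (Nat.le_add_left _ _),
      Nat.add_sub_cancel] at this
    exact this.symm
  have h1 := key2 0
  rw [Z_zero, h0] at h1
  obtain ⟨h2, h3⟩ := X_pow_mul_inj h1
  refine ⟨h2.symm, h3.symm, fun n => ?_⟩
  rw [key2 n, hR', exq_map_mul, h3]
  exact Dvd.intro _ rfl

theorem dvd_Z (hG : IsGaussian P) (j n : ℕ) : (1 + X : ℤ[X]) ^ (lv P j).card ∣ Z P j n := by
  obtain ⟨h, hpos, hU⟩ := hG
  exact (window_main j hpos hU).2.2 n

end Pool.Agent.GaussPoset
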