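import Pool.Agent.W_MP_448cb3_h96.Graded
import Pool.Agent.W_MP_448cb3_h96.PolyA

namespace Pool.Agent.GaussPoset

set_option linter.unusedSectionVars false

open Polynomial Finset

universe u

variable {P : Type u} [Fintype P] [PartialOrder P] [DecidableEq P]

/-- `P` is Gaussian, and all maximal chains have `r + 1` elements -/
structure Gr (P : Type u) [Fintype P] [PartialOrder P] (r : ℕ) : Prop where
  gauss : IsGaussian P
  hr : ∀ x : P, lev x + colev x = r

lemma exists_above : ∀ (n : ℕ) {x : P} {j : ℕ}, lev x = j + n → ∃ y, x ≤ y ∧ lev y = j := by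
  intro n
  induction n with
  | zero => intro x j h; exact ⟨x, le_rfl, h⟩
  | succ n ih =>
    intro x j h
    obtain ⟨y, hy, hy2⟩ := exists_lev_succ (x := x) (k := j + n) (by omega)
    obtain ⟨w, hw, hw2⟩ := ih hy2
    exact ⟨w, hy.le.trans hw, hw2⟩

lemma exists_above' {x : P} {j : ℕ} (h : j ≤ lev x) : ∃ y, x ≤ y ∧ lev y = j :=
  exists_above (lev x - j) (by omega)

lemma Gr.dual {r : ℕ} (H : Gr P r) : Gr Pᵒᵈ r := by
  refine ⟨gauss_dual H.gauss, fun x => ?_⟩
  have := H.hr (OrderDual.ofDual x)
  unfold colev at this ⊢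
  have e1 : lev (P := Pᵒᵈᵒᵈ) (OrderDual.toDual x) = lev (OrderDual.ofDual x) := rfl
  have e2 : lev (P := Pᵒᵈ) (OrderDual.toDual (OrderDual.ofDual x)) = lev x := rfl
  omega

lemma Gr.lev_le {r : ℕ} (H : Gr P r) (x : P) : lev x ≤ r := by
  have := H.hr x; omega

lemma Gr.exists_below {r : ℕ} (H : Gr P r) {x : P} {j : ℕ} (h1 : lev x ≤ j) (h2 : j ≤ r) :
    ∃ z, z ≤ x ∧ lev z = j := by
  have h3 := H.hr x
  obtain ⟨y, hy, hy2⟩ := exists_above' (P := Pᵒᵈ) (x := OrderDual.toDual x) (j := r - j)
    (by unfold colev at h3; omega)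
  refine ⟨OrderDual.ofDual y, OrderDual.le_toDual.mp hy |>.trans le_rfl, ?_⟩
  have h4 := H.hr (OrderDual.ofDual y)
  unfold colev at h4
  rw [OrderDual.toDual_ofDual, hy2] at h4
  omega

lemma Gr.covBy_iff {r : ℕ} (H : Gr P r) {z x : P} : z ⋖ x ↔ z < x ∧ lev z = lev x + 1 := by
  constructor
  · intro h
    exact ⟨h.1, lev_covBy H.gauss h⟩
  · rintro ⟨h1, h2⟩
    refine ⟨h1, fun w hw hw2 => ?_⟩
    have := lev_strictAnti hw
    have := lev_strictAnti hw2
    omega

lemma rho_single (j : ℕ) (a x : P) : rho j (Pi.single a 1) x =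
    (if x = a then 1 else 0) - ((j - lev x : ℕ) : ℤ) := by
  unfold rho
  by_cases h : x = a
  · subst h; simp
  · simp [h]

lemma sum_piAntidiag_one {M : Type*} [AddCommMonoid M] (f : (P → ℕ) → M) :
    ∑ e ∈ (univ : Finset P).piAntidiag 1, f e = ∑ a : P, f (Pi.single a 1) := by
  symm
  refine Finset.sum_bij (fun a _ => Pi.single a 1) ?_ ?_ ?_ (fun _ _ => rfl)
  · intro a _
    rw [mem_piAntidiag]
    refine ⟨?_, fun _ _ => mem_univ _⟩
    simp
  · intro a _ b _ h
    have := congrFun h a
    by_contra hab
    rw [Pi.single_eq_same, Pi.single_eq_of_ne hab] at this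
    exact absurd this one_ne_zero
  · intro e he
    rw [mem_piAntidiag] at he
    have hne : ∃ a, e a ≠ 0 := by
      by_contra hcon
      push Not at hcon
      have : univ.sum e = 0 := Finset.sum_eq_zero fun x _ => hcon x
      omega
    obtain ⟨a, ha⟩ := hne
    refine ⟨a, mem_univ _, ?_⟩
    have h1 := Finset.add_sum_erase univ e (mem_univ a)
    rw [he.1] at h1
    have h2 : ∑ x ∈ univ.erase a, e x = 0 := by omega
    rw [Finset.sum_eq_zero_iff] at h2
    funext x
    by_cases hx : x = a
    · subst hx; rw [Pi.single_eq_same]; omega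
    · rw [Pi.single_eq_of_ne hx]
      exact (h2 x (mem_erase.mpr ⟨hx, mem_univ _⟩)).symm

section Cases

variable (j : ℕ) (a : P)

lemma FI_case1 (ha : lev a = j) (x : P) : FI j (Pi.single a 1) x ↔ lev x < j := by
  unfold FI
  constructor
  · rintro (h | ⟨z, hz, h⟩)
    · rw [rho_single] at h
      split_ifs at h with h1 <;> omega
    · rw [rho_single, rho_single] at h
      have := lev_strictAnti hz
      split_ifs at h with h1 h2 h2
      · subst h1; subst h2; exact absurd hz (lt_irrefl _)
      · omega
      · subst h2; omega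
      · omega
  · intro h
    left
    rw [rho_single, if_neg (by rintro rfl; omega)]
    omega

lemma FA_case1 (ha : lev a = j) (x : P) : FA j (Pi.single a 1) x ↔ j < lev x := by
  unfold FA
  constructor
  · rintro ⟨y, hy, h⟩
    rw [rho_single, rho_single] at h
    have := lev_strictAnti hy
    split_ifs at h with h1 h2 h2
    · subst h1; subst h2; exact absurd hy (lt_irrefl _)
    · omega
    · subst h2; omega
    · omega
  · intro h
    obtain ⟨y, hy, hy2⟩ := exists_above' (x := x) (j := j) h.le
    have hne : x ≠ y := by rintro rfl; omega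
    refine ⟨y, lt_of_le_of_ne hy hne, ?_⟩
    rw [rho_single, rho_single, if_neg (by rintro rfl; omega)]
    split_ifs <;> omega

lemma FI_case2 (ha : lev a + 1 = j) (x : P) :
    FI j (Pi.single a 1) x ↔ lev x < j ∧ x ≠ a := by
  unfold FI
  constructor
  · rintro (h | ⟨z, hz, h⟩)
    · rw [rho_single] at h
      split_ifs at h with h1
      · subst h1; omega
      · exact ⟨by omega, h1⟩
    · rw [rho_single, rho_single] at h
      have := lev_strictAnti hz
      split_ifs at h with h1 h2 h2
      · subst h1; subst h2; exact absurd hz (lt_irrefl _)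
      · subst h1; omega
      · subst h2; exact ⟨by omega, h1⟩
      · exact ⟨by omega, h1⟩
  · rintro ⟨h, h1⟩
    left
    rw [rho_single, if_neg h1]
    omega

lemma FA_case2 (ha : lev a + 1 = j) (x : P) :
    FA j (Pi.single a 1) x ↔ j < lev x ∨ (lev x = j ∧ x < a) := by
  unfold FA
  constructor
  · rintro ⟨y, hy, h⟩
    rw [rho_single, rho_single] at h
    have := lev_strictAnti hy
    split_ifs at h with h1 h2 h2
    · subst h1; subst h2; exact absurd hy (lt_irrefl _)
    · subst h1; omega
    · subst h2
      by_cases h3 : j < lev x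
      · exact Or.inl h3
      · exact Or.inr ⟨by omega, hy⟩
    · left; omega
  · rintro (h | ⟨h, h2⟩)
    · obtain ⟨y, hy, hy2⟩ := exists_above' (x := x) (j := j) h.le
      have hne : x ≠ y := by rintro rfl; omega
      refine ⟨y, lt_of_le_of_ne hy hne, ?_⟩
      rw [rho_single, rho_single, if_neg (by rintro rfl; omega), if_neg (by rintro rfl; omega)]
      omega
    · refine ⟨a, h2, ?_⟩
      rw [rho_single, rho_single, if_neg h2.ne, if_pos rfl]
      omega

lemma FI_case3 (ha : lev a = j + 1) (x : P) :
    FI j (Pi.single a 1) x ↔ lev x < j ∨ (lev x = j ∧ a < x) := by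
  unfold FI
  constructor
  · rintro (h | ⟨z, hz, h⟩)
    · rw [rho_single] at h
      split_ifs at h with h1
      · subst h1; omega
      · left; omega
    · rw [rho_single, rho_single] at h
      have := lev_strictAnti hz
      split_ifs at h with h1 h2 h2
      · subst h1; subst h2; exact absurd hz (lt_irrefl _)
      · subst h1; omega
      · subst h2
        by_cases h3 : lev x < j
        · exact Or.inl h3
        · exact Or.inr ⟨by omega, hz⟩
      · left; omega
  · rintro (h | ⟨h, h2⟩)
    · left
      rw [rho_single, if_neg (by rintro rfl; omega)]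
      omega
    · right
      refine ⟨a, h2, ?_⟩
      rw [rho_single, rho_single, if_neg h2.ne', if_pos rfl]
      omega

lemma FA_case3 (ha : lev a = j + 1) (x : P) :
    FA j (Pi.single a 1) x ↔ j < lev x ∧ x ≠ a := by
  unfold FA
  constructor
  · rintro ⟨y, hy, h⟩
    rw [rho_single, rho_single] at h
    have := lev_strictAnti hy
    split_ifs at h with h1 h2 h2
    · subst h1; subst h2; exact absurd hy (lt_irrefl _)
    · subst h1; omega
    · subst h2; exact ⟨by omega, h1⟩
    · exact ⟨by omega, h1⟩
  · rintro ⟨h, h1⟩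
    obtain ⟨y, hy, hy2⟩ := exists_above' (x := x) (j := j) h.le
    have hne : x ≠ y := by rintro rfl; omega
    refine ⟨y, lt_of_le_of_ne hy hne, ?_⟩
    rw [rho_single, rho_single, if_neg h1, if_neg (by rintro rfl; omega)]
    omega

lemma not_adm_case4 {r : ℕ} (H : Gr P r) (hj : j ≤ r) (ha : lev a + 1 < j) :
    ¬ Adm j (Pi.single a 1) := by
  intro hA
  obtain ⟨z, hz, hz2⟩ := H.exists_below (x := a) (j := lev a + 1) (by omega) (by omega)
  have hne : z ≠ a := by rintro rfl; omega
  refine hA z ⟨Or.inl ?_, a, lt_of_le_of_ne hz hne, ?_⟩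
  · rw [rho_single, if_neg hne]; omega
  · rw [rho_single, rho_single, if_neg hne, if_pos rfl]; omega

lemma not_adm_case5 (ha : j + 1 < lev a) : ¬ Adm j (Pi.single a 1) := by
  intro hA
  obtain ⟨y, hy, hy2⟩ := exists_above' (x := a) (j := j + 1) ha.le
  obtain ⟨w, hw, hw2⟩ := exists_above' (x := y) (j := j) (by omega)
  have hne : y ≠ a := by rintro rfl; omega
  have hne2 : y ≠ w := by rintro rfl; omega
  refine hA y ⟨Or.inr ⟨a, lt_of_le_of_ne hy hne.symm, ?_⟩, w, lt_of_le_of_ne hw hne2, ?_⟩
  · rw [rho_single, rho_single, if_neg hne, if_pos rfl]; omega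
  · rw [rho_single, rho_single, if_neg hne, if_neg (by rintro rfl; omega)]; omega

end Cases

/-- number of elements of level `j` below `a` -/
noncomputable def dn (j : ℕ) (a : P) : ℕ := by
  classical exact ((lv P j).filter (fun v => v < a)).card

/-- number of elements of level `j` above `a` -/
noncomputable def up (j : ℕ) (a : P) : ℕ := by
  classical exact ((lv P j).filter (fun v => a < v)).card

open Classical in
lemma term_case1 (j : ℕ) (a : P) (ha : lev a = j) :
    (if Adm j (Pi.single a 1) then (X : ℤ[X]) ^ (nf j (Pi.single a 1)) *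
      (1 + X) ^ (Pk j (Pi.single a 1)).card else 0) = X ^ (below P j) * (1 + X) ^ (lv P j).card := by
  have hA : Adm j (Pi.single a 1) := by
    intro x
    rw [FI_case1 j a ha, FA_case1 j a ha]; omega
  rw [if_pos hA]
  congr 2
  · unfold nf below
    congr 1
    ext x
    simp [FI_case1 j a ha]
  · congr 1
    ext x
    simp only [Pk, lv, mem_filter, mem_univ, true_and, FI_case1 j a ha, FA_case1 j a ha]
    omega

open Classical in
lemma term_case2 (j : ℕ) (a : P) (ha : lev a + 1 = j) :
    X * (if Adm j (Pi.single a 1) then (X : ℤ[X]) ^ (nf j (Pi.single a 1)) *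
      (1 + X) ^ (Pk j (Pi.single a 1)).card else 0) =
      X ^ (below P j) * (1 + X) ^ ((lv P j).card + 1 - dn j a) := by
  have hA : Adm j (Pi.single a 1) := by
    intro x
    rw [FI_case2 j a ha, FA_case2 j a ha]
    omega
  rw [if_pos hA, ← mul_assoc, ← pow_succ']
  have h1 : nf j (Pi.single a 1) + 1 = below P j := by
    unfold nf below
    have : (univ.filter (fun x : P => lev x < j)) =
        insert a (univ.filter (fun x => FI j (Pi.single a 1) x)) := by
      ext x
      simp only [mem_filter, mem_univ, true_and, mem_insert, FI_case2 j a ha]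
      by_cases hx : x = a
      · subst hx; simp; omega
      · simp [hx]
    rw [this, Finset.card_insert_of_notMem]
    simp [FI_case2 j a ha]
  have h2 : (Pk j (Pi.single a 1)).card = (lv P j).card + 1 - dn j a := by
    have h3 : Pk j (Pi.single a 1) = insert a ((lv P j).filter (fun v => ¬ v < a)) := by
      ext x
      simp only [Pk, mem_filter, mem_univ, true_and, mem_insert, mem_lv, FI_case2 j a ha,
        FA_case2 j a ha]
      by_cases hx : x = a
      · subst hx; simp; omega
      · simp only [hx, ne_eq, not_false_eq_true, and_true, false_or, not_or, not_and]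
        constructor
        · rintro ⟨h4, h5, h6⟩
          exact ⟨by omega, h6 (by omega)⟩
        · rintro ⟨h4, h5⟩
          exact ⟨by omega, by omega, fun _ => h5⟩
    rw [h3, Finset.card_insert_of_notMem]
    · have h4 := Finset.card_filter_add_card_filter_not (s := lv P j) (fun v => v < a)
      unfold dn
      omega
    · simp only [mem_filter, mem_lv]
      omega
  rw [h1, h2]

open Classical in
lemma term_case3 (j : ℕ) (a : P) (ha : lev a = j + 1) :
    (if Adm j (Pi.single a 1) then (X : ℤ[X]) ^ (nf j (Pi.single a 1)) *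
      (1 + X) ^ (Pk j (Pi.single a 1)).card else 0) =
      X ^ (below P j) * (X ^ (up j a) * (1 + X) ^ ((lv P j).card + 1 - up j a)) := by
  have hA : Adm j (Pi.single a 1) := by
    intro x
    rw [FI_case3 j a ha, FA_case3 j a ha]
    omega
  rw [if_pos hA, ← mul_assoc, ← pow_add]
  have h1 : nf j (Pi.single a 1) = below P j + up j a := by
    unfold nf below up
    have : (univ.filter (fun x => FI j (Pi.single a 1) x)) =
        (univ.filter (fun x : P => lev x < j)) ∪ ((lv P j).filter (fun v => a < v)) := by
      ext x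
      simp only [mem_filter, mem_univ, true_and, mem_union, mem_lv, FI_case3 j a ha]
    rw [this, Finset.card_union_of_disjoint]
    rw [Finset.disjoint_left]
    intro x hx hx2
    simp only [mem_filter, mem_univ, true_and, mem_lv] at hx hx2
    omega
  have h2 : (Pk j (Pi.single a 1)).card = (lv P j).card + 1 - up j a := by
    have h3 : Pk j (Pi.single a 1) = insert a ((lv P j).filter (fun v => ¬ a < v)) := by
      ext x
      simp only [Pk, mem_filter, mem_univ, true_and, mem_insert, mem_lv, FI_case3 j a ha,
        FA_case3 j a ha]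
      by_cases hx : x = a
      · subst hx; simp; omega
      · simp only [hx, ne_eq, not_false_eq_true, and_true, false_or, not_or, not_and]
        constructor
        · rintro ⟨⟨h4, h5⟩, h6⟩
          exact ⟨by omega, h5 (by omega)⟩
        · rintro ⟨h4, h5⟩
          exact ⟨⟨by omega, fun _ => h5⟩, by omega⟩
    rw [h3, Finset.card_insert_of_notMem]
    · have h4 := Finset.card_filter_add_card_filter_not (s := lv P j) (fun v => a < v)
      unfold up
      omega
    · simp only [mem_filter, mem_lv]
      omega
  rw [h1, h2]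

lemma Z_one {r : ℕ} (H : Gr P r) {j : ℕ} (hj : j ≤ r) :
    X * Z P j 1 = X ^ (below P j) * (∑ _a ∈ lv P j, X * (1 + X) ^ (lv P j).card +
      (∑ a ∈ univ.filter (fun a : P => lev a + 1 = j), (1 + X) ^ ((lv P j).card + 1 - dn j a) +
      ∑ a ∈ lv P (j + 1), X ^ (1 + up j a) * (1 + X) ^ ((lv P j).card + 1 - up j a))) := by
  classical
  unfold Z
  rw [sum_piAntidiag_one, Finset.mul_sum]
  have key : ∀ a : P, (X : ℤ[X]) * (if Adm j (Pi.single a 1) then (X : ℤ[X]) ^
      (nf j (Pi.single a 1)) * (1 + X) ^ (Pk j (Pi.single a 1)).card else 0) =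
      X ^ (below P j) * ((if a ∈ lv P j then X * (1 + X) ^ (lv P j).card else 0) +
      ((if a ∈ univ.filter (fun a => lev a + 1 = j) then
        (1 + X) ^ ((lv P j).card + 1 - dn j a) else 0) +
      (if a ∈ lv P (j + 1) then
        X ^ (1 + up j a) * (1 + X) ^ ((lv P j).card + 1 - up j a) else 0))) := by
    intro a
    simp only [mem_lv, mem_filter, mem_univ, true_and]
    by_cases h1 : lev a = j
    · rw [term_case1 j a h1, if_pos h1, if_neg (by omega), if_neg (by omega)]
      ring
    by_cases h2 : lev a + 1 = j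
    · rw [term_case2 j a h2, if_neg h1, if_pos h2, if_neg (by omega)]
      ring
    by_cases h3 : lev a = j + 1
    · rw [term_case3 j a h3, if_neg h1, if_neg h2, if_pos h3]
      ring
    rw [if_neg h1, if_neg h2, if_neg h3, if_neg]
    · ring
    · by_cases h4 : lev a < j
      · exact not_adm_case4 j a H hj (by omega)
      · exact not_adm_case5 j a (by omega)
  rw [Finset.sum_congr rfl (fun a _ => key a), ← Finset.mul_sum]
  congr 1
  rw [Finset.sum_add_distrib, Finset.sum_add_distrib, Finset.sum_ite_mem, Finset.sum_ite_mem,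
    Finset.sum_ite_mem, univ_inter, univ_inter, univ_inter]

lemma dn_le (j : ℕ) (a : P) : dn j a ≤ (lv P j).card := by
  classical exact Finset.card_filter_le _ _

lemma up_le (j : ℕ) (a : P) : up j a ≤ (lv P j).card := by
  classical exact Finset.card_filter_le _ _

/-- consequences of energy one -/
theorem energy_one {r : ℕ} (H : Gr P r) {j : ℕ} (hj : j ≤ r) :
    (∀ a : P, lev a + 1 = j → dn j a ≤ 2) ∧ (∀ a : P, lev a = j + 1 → up j a ≤ 2) ∧
    ((univ.filter (fun a : P => lev a + 1 = j)).filter (fun a => dn j a = 2)).card =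
      ((lv P (j + 1)).filter (fun a => up j a = 2)).card := by
  have h1 : (1 + X : ℤ[X]) ^ (lv P j).card ∣ X * Z P j 1 :=
    Dvd.dvd.mul_left (dvd_Z H.gauss j 1) _
  rw [Z_one H hj, mul_add] at h1
  have h2 : (1 + X : ℤ[X]) ^ (lv P j).card ∣
      X ^ (below P j) * ∑ _a ∈ lv P j, X * (1 + X) ^ (lv P j).card := by
    refine Dvd.dvd.mul_left (Finset.dvd_sum fun a _ => ?_) _
    exact Dvd.intro_left _ rfl
  have h3 := (dvd_add_right h2).mp h1
  obtain ⟨h4, h5, h6⟩ := poly_main (univ.filter (fun a => lev a + 1 = j)) (lv P (j + 1)) (dn j)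
    (up j) (lv P j).card (below P j) (fun a _ => dn_le j a) (fun a _ => up_le j a) h3
  refine ⟨fun a ha => h4 a (by simp [ha]), fun a ha => h5 a (mem_lv.mpr ha), h6⟩

end Pool.Agent.GaussPoset
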