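import Pool.Agent.W_MP_448cb3_h96.Series

namespace Pool.Agent.GaussPoset

set_option linter.unusedSectionVars false

open Polynomial Finset

universe u

variable {P : Type u} [Fintype P] [PartialOrder P] [DecidableEq P]

/-- window polynomial before normalisation -/
noncomputable def W (P : Type u) [Fintype P] [PartialOrder P] [DecidableEq P] (j : ℕ) :
    Polynomial (PowerSeries ℤ) :=
  ∑ F : Finset P, C (PowerSeries.X ^ (j * (Fintype.card P - F.card)) * G F) * X ^ F.card

lemma W_eval (j m : ℕ) : (W P j).eval (-(PowerSeries.X : PowerSeries ℤ) ^ (j + m + 1)) =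
    PowerSeries.X ^ (j * Fintype.card P) * ((U P m : ℤ[X]) : PowerSeries ℤ) := by
  unfold W
  rw [Polynomial.eval_finsetSum, U_eq, Finset.mul_sum]
  refine Finset.sum_congr rfl fun F _ => ?_
  rw [eval_mul, eval_C, eval_pow, eval_X]
  have hF : F.card ≤ Fintype.card P := Finset.card_le_univ F
  rw [neg_pow, ← pow_mul]
  have : j * Fintype.card P + (m + 1) * F.card = j * (Fintype.card P - F.card) +
      (j + m + 1) * F.card := by
    obtain ⟨d, hd⟩ := Nat.exists_eq_add_of_le hF
    rw [hd, Nat.add_sub_cancel_left]; ring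
  calc PowerSeries.X ^ (j * (Fintype.card P - F.card)) * G F *
        ((-1) ^ F.card * PowerSeries.X ^ ((j + m + 1) * F.card))
      = (-1) ^ F.card * (PowerSeries.X ^ (j * (Fintype.card P - F.card) +
        (j + m + 1) * F.card) * G F) := by rw [pow_add]; ring
    _ = PowerSeries.X ^ (j * Fintype.card P) *
        ((-1) ^ F.card * (PowerSeries.X ^ ((m + 1) * F.card) * G F)) := by
        rw [← this, pow_add]; ring

/-- denominators -/
noncomputable def Den {n : ℕ} (h : Fin n → ℕ) : PowerSeries ℤ := ∏ i, (1 - PowerSeries.X ^ (h i))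

lemma coe_prod_one_sub {n : ℕ} (h : Fin n → ℕ) :
    ((∏ i, (1 - (X : ℤ[X]) ^ (h i)) : ℤ[X]) : PowerSeries ℤ) =
      ∏ i, (1 - PowerSeries.X ^ (h i)) := by
  have := map_prod (Polynomial.coeToPowerSeries.ringHom (R := ℤ))
    (fun i => (1 - (X : ℤ[X]) ^ (h i))) univ
  rw [Polynomial.coeToPowerSeries.ringHom_apply] at this
  rw [this]
  refine Finset.prod_congr rfl fun i _ => ?_
  simp

/-- main window identity -/
lemma W_identity (j : ℕ) {h : Fin (Fintype.card P) → ℕ} (hpos : ∀ i, 0 < h i)
    (hU : ∀ m : ℕ, U P m * ∏ i, (1 - (X : ℤ[X]) ^ (h i)) = ∏ i, (1 - (X : ℤ[X]) ^ (m + h i))) :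
    W P j * C (Den h) = ∏ i, (C (PowerSeries.X ^ j) + C (PowerSeries.X ^ (h i - 1)) * X) := by
  apply Polynomial.eq_of_infinite_eval_eq
  have hinj : Function.Injective (fun m : ℕ => -(PowerSeries.X : PowerSeries ℤ) ^ (j + m + 1)) := by
    intro a b hab
    simp only [neg_inj] at hab
    have := congrArg PowerSeries.order hab
    rw [PowerSeries.order_X_pow, PowerSeries.order_X_pow] at this
    have h2 : j + a + 1 = j + b + 1 := by exact_mod_cast this
    omega
  refine Set.infinite_of_injective_forall_mem hinj fun m => ?_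
  simp only [Set.mem_setOf_eq]
  rw [eval_mul, eval_C, W_eval, eval_prod]
  have h1 := congrArg (fun f : ℤ[X] => (f : PowerSeries ℤ)) (hU m)
  simp only [Polynomial.coe_mul, coe_prod_one_sub] at h1
  unfold Den
  rw [mul_assoc, h1]
  have h2 : (PowerSeries.X : PowerSeries ℤ) ^ (j * Fintype.card P) =
      ∏ _i : Fin (Fintype.card P), PowerSeries.X ^ j := by
    rw [Finset.prod_const, Finset.card_univ, Fintype.card_fin, ← pow_mul]
  rw [h2, ← Finset.prod_mul_distrib]
  refine Finset.prod_congr rfl fun i _ => ?_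
  simp only [eval_add, eval_mul, eval_C, eval_X]
  have hp := hpos i
  have : j + (m + h i) = (h i - 1) + (j + m + 1) := by omega
  rw [mul_sub, mul_one, ← pow_add, this, pow_add]
  ring

end Pool.Agent.GaussPoset
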