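import Pool.Agent.W_MP_448cb3_h96.Dual

namespace Pool.Agent.GaussPoset

set_option linter.unusedSectionVars false

open Polynomial Finset

universe u

variable {P : Type u} [Fintype P] [PartialOrder P] [DecidableEq P]

lemma W_zero_coeff (k : ℕ) : (W P 0).coeff k =
    ∑ F : Finset P, if F.card = k then G F else 0 := by
  unfold W
  rw [Polynomial.finsetSum_coeff]
  refine Finset.sum_congr rfl fun F _ => ?_
  rw [Polynomial.coeff_C_mul_X_pow, zero_mul, pow_zero, one_mul]
  by_cases h : F.card = k
  · rw [if_pos h, if_pos h.symm]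
  · rw [if_neg h, if_neg (fun h' => h h'.symm)]

lemma G_empty {h : Fin (Fintype.card P) → ℕ} (hpos : ∀ i, 0 < h i)
    (hU : ∀ m : ℕ, U P m * ∏ i, (1 - (X : ℤ[X]) ^ (h i)) = ∏ i, (1 - (X : ℤ[X]) ^ (m + h i))) :
    G (∅ : Finset P) * Den h = 1 := by
  have h1 := congrArg (fun f => Polynomial.coeff f 0) (W_identity 0 hpos hU)
  simp only [Polynomial.coeff_mul_C] at h1
  rw [W_zero_coeff, Finset.sum_eq_single (∅ : Finset P), if_pos Finset.card_empty,
    Polynomial.coeff_zero_prod] at h1
  · rw [h1]
    refine Finset.prod_eq_one fun i _ => ?_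
    simp
  · intro F _ hF
    rw [if_neg]
    rwa [Finset.card_eq_zero]
  · intro hh
    exact absurd (mem_univ _) hh

lemma G_univ {h : Fin (Fintype.card P) → ℕ} (hpos : ∀ i, 0 < h i)
    (hU : ∀ m : ℕ, U P m * ∏ i, (1 - (X : ℤ[X]) ^ (h i)) = ∏ i, (1 - (X : ℤ[X]) ^ (m + h i))) :
    G (univ : Finset P) * Den h = PowerSeries.X ^ (∑ i, (h i - 1)) := by
  have h1 := congrArg (fun f => Polynomial.coeff f (Fintype.card P)) (W_identity 0 hpos hU)
  simp only [Polynomial.coeff_mul_C] at h1
  rw [W_zero_coeff, Finset.sum_eq_single (univ : Finset P), if_pos Finset.card_univ] at h1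
  · have h2 := Polynomial.coeff_prod_of_natDegree_le (univ : Finset (Fin (Fintype.card P)))
      (fun i => C (PowerSeries.X ^ 0) + C (PowerSeries.X ^ (h i - 1)) *
        (X : Polynomial (PowerSeries ℤ))) 1 (by
          intro i _
          compute_degree)
    rw [Finset.card_univ, Fintype.card_fin, mul_one] at h2
    rw [h1, h2, ← Finset.prod_pow_eq_pow_sum]
    refine Finset.prod_congr rfl fun i _ => ?_
    rw [Polynomial.coeff_add, Polynomial.coeff_C_mul, Polynomial.coeff_X_one,
      Polynomial.coeff_C_succ, zero_add, mul_one]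
  · intro F _ hF
    rw [if_neg]
    rwa [Finset.card_eq_iff_eq_univ]
  · intro hh
    exact absurd (mem_univ _) hh

lemma conf_univ (l : P → ℕ) : Conf univ l ↔ StrictAnti l := by
  unfold Conf
  constructor
  · rintro ⟨-, -, h⟩ x y hxy
    exact h x y hxy (mem_univ _) (mem_univ _)
  · intro h
    exact ⟨fun x y _ _ => mem_univ _, fun x y _ hx => absurd (mem_univ x) hx,
      fun x y hxy _ _ => h hxy⟩

lemma conf_empty (l : P → ℕ) : Conf ∅ l ↔ Monotone l := by
  unfold Conf
  constructor
  · rintro ⟨-, h, -⟩ x y hxy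
    exact h x y hxy (notMem_empty _) (notMem_empty _)
  · intro h
    exact ⟨fun x y _ hx => absurd hx (notMem_empty _), fun x y hxy _ _ => h hxy,
      fun x y _ hx => absurd hx (notMem_empty _)⟩

open Classical in
lemma card_anti {h : Fin (Fintype.card P) → ℕ} (hpos : ∀ i, 0 < h i)
    (hU : ∀ m : ℕ, U P m * ∏ i, (1 - (X : ℤ[X]) ^ (h i)) = ∏ i, (1 - (X : ℤ[X]) ^ (m + h i)))
    (N : ℕ) :
    (((univ : Finset P).piAntidiag N).filter (fun l => StrictAnti l)).card =
      if ∑ i, (h i - 1) ≤ N then
        (((univ : Finset P).piAntidiag (N - ∑ i, (h i - 1))).filter (fun l => Antitone l)).card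
      else 0 := by
  have h1 := G_empty hpos hU
  have h2 := G_univ hpos hU
  have h3 : G (∅ : Finset Pᵒᵈ) * Den h = 1 := G_empty (P := Pᵒᵈ) hpos (dual_gauss hU)
  have h4 : G (univ : Finset P) = PowerSeries.X ^ (∑ i, (h i - 1)) * G (∅ : Finset Pᵒᵈ) := by
    calc G (univ : Finset P) = G (univ : Finset P) * (G (∅ : Finset Pᵒᵈ) * Den h) := by
          rw [h3, mul_one]
      _ = (G (univ : Finset P) * Den h) * G (∅ : Finset Pᵒᵈ) := by ring
      _ = _ := by rw [h2]
  have h5 := congrArg (PowerSeries.coeff N) h4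
  rw [PowerSeries.coeff_X_pow_mul'] at h5
  unfold G at h5
  rw [PowerSeries.coeff_mk, PowerSeries.coeff_mk] at h5
  have h6 : ∀ l : Pᵒᵈ → ℕ, Conf (∅ : Finset Pᵒᵈ) l ↔
      Antitone (fun x : P => l (OrderDual.toDual x)) := by
    intro l
    rw [conf_empty]
    constructor
    · intro hl x y hxy
      exact hl (OrderDual.toDual_le_toDual.mpr hxy)
    · intro hl x y hxy
      exact hl (a := OrderDual.ofDual y) (b := OrderDual.ofDual x) hxy
  have h7 : (((univ : Finset P).piAntidiag N).filter (fun l => StrictAnti l)) =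
      (((univ : Finset P).piAntidiag N).filter (fun l => Conf univ l)) := by
    refine Finset.filter_congr fun l _ => (conf_univ l).symm
  rw [h7]
  split_ifs at h5 ⊢ with h8
  · have h9 : (((univ : Finset P).piAntidiag (N - ∑ i, (h i - 1))).filter
        (fun l => Antitone l)).card =
        ((((univ : Finset Pᵒᵈ).piAntidiag (N - ∑ i, (h i - 1))).filter
          (fun l => Conf (∅ : Finset Pᵒᵈ) l))).card := by
      refine Finset.card_bij (fun l _ => fun y : Pᵒᵈ => l (OrderDual.ofDual y)) ?_ ?_ ?_
      · intro l hl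
        rw [mem_filter, mem_piAntidiag] at hl
        rw [mem_filter, mem_piAntidiag]
        exact ⟨⟨hl.1.1, fun i _ => mem_univ i⟩, (h6 _).mpr hl.2⟩
      · intro l _ l' _ hh
        funext x
        exact congrFun hh (OrderDual.toDual x)
      · intro l hl
        rw [mem_filter, mem_piAntidiag] at hl
        refine ⟨fun x => l (OrderDual.toDual x), ?_, rfl⟩
        rw [mem_filter, mem_piAntidiag]
        exact ⟨⟨hl.1.1, fun i _ => mem_univ i⟩, (h6 l).mp hl.2⟩
    rw [h9]
    exact_mod_cast h5
  · exact_mod_cast h5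

lemma sum_lev_eq {h : Fin (Fintype.card P) → ℕ} (hpos : ∀ i, 0 < h i)
    (hU : ∀ m : ℕ, U P m * ∏ i, (1 - (X : ℤ[X]) ^ (h i)) = ∏ i, (1 - (X : ℤ[X]) ^ (m + h i))) :
    ∑ i, (h i - 1) = ∑ x : P, lev x := by
  classical
  have h1 := card_anti hpos hU
  apply le_antisymm
  · by_contra hcon
    have h2 := h1 (∑ x : P, lev x)
    rw [if_neg hcon, Finset.card_eq_zero, Finset.filter_eq_empty_iff] at h2
    refine h2 (x := lev) ?_ lev_strictAnti
    rw [mem_piAntidiag]
    exact ⟨rfl, fun _ _ => mem_univ _⟩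
  · have h2 := h1 (∑ i, (h i - 1))
    have hant : Antitone (0 : P → ℕ) := fun _ _ _ => le_rfl
    rw [if_pos le_rfl, Nat.sub_self, Finset.piAntidiag_zero, Finset.filter_singleton,
      if_pos hant, Finset.card_singleton] at h2
    have h3 : (((univ : Finset P).piAntidiag (∑ i, (h i - 1))).filter
      (fun l => StrictAnti l)).Nonempty := by
      rw [← Finset.card_pos, h2]; exact Nat.one_pos
    obtain ⟨l, hl⟩ := h3
    rw [mem_filter, mem_piAntidiag] at hl
    rw [← hl.1.1]
    exact Finset.sum_le_sum fun x _ => lev_le hl.2 x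

theorem strictAnti_sub (hG : IsGaussian P) {l : P → ℕ} (hl : StrictAnti l) {x y : P}
    (hxy : x ≤ y) : l y + lev x ≤ l x + lev y := by
  classical
  obtain ⟨h, hpos, hU⟩ := hG
  have h1 := card_anti hpos hU
  have h2 := sum_lev_eq hpos hU
  rw [h2] at h1
  have h3 : ∑ x : P, lev x ≤ ∑ x, l x := Finset.sum_le_sum fun x _ => lev_le hl x
  have h4 := h1 (∑ x, l x)
  rw [if_pos h3] at h4
  have h5 := Finset.surj_on_of_inj_on_of_card_le
    (s := ((univ : Finset P).piAntidiag (∑ x, l x - ∑ x, lev x)).filter (fun l => Antitone l))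
    (t := ((univ : Finset P).piAntidiag (∑ x, l x)).filter (fun l => StrictAnti l))
    (fun μ _ x => μ x + lev x) (by
      intro μ hμ
      rw [mem_filter, mem_piAntidiag] at hμ ⊢
      refine ⟨⟨?_, fun _ _ => mem_univ _⟩, ?_⟩
      · rw [Finset.sum_add_distrib]
        have h6 : ∑ x, μ x = ∑ x, l x - ∑ x, lev x := hμ.1.1
        omega
      · intro a b hab
        have h7 := lev_strictAnti hab
        have h8 := hμ.2 hab.le
        change μ b + lev b < μ a + lev a
        omega) (by
      intro μ ν _ _ hh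
      funext x
      have := congrFun hh x
      change μ x + lev x = ν x + lev x at this
      omega) h4.le
  obtain ⟨μ, hμ, hlμ⟩ := h5 l (by
    rw [mem_filter, mem_piAntidiag]
    exact ⟨⟨rfl, fun _ _ => mem_univ _⟩, hl⟩)
  rw [mem_filter] at hμ
  have h9 := hμ.2 hxy
  rw [hlμ]
  change μ y + lev y + lev x ≤ μ x + lev x + lev y
  omega

open Classical in
theorem lev_covBy (hG : IsGaussian P) {z x : P} (hzx : z ⋖ x) : lev z = lev x + 1 := by
  set K := ∑ y : P, lev y with hK
  have hK2 : ∀ y : P, lev y ≤ K := fun y => Finset.single_le_sum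
    (f := fun y : P => lev y) (fun _ _ => Nat.zero_le _) (mem_univ y)
  set c : P → ℕ := fun y => (univ.filter (fun w => y < w ∧ w ≤ x)).card with hc
  have hstr : StrictAnti (fun y => if y ≤ x then K + c y else lev y) := by
    intro a b hab
    change (if b ≤ x then K + c b else lev b) < (if a ≤ x then K + c a else lev a)
    by_cases hb : b ≤ x
    · rw [if_pos hb, if_pos (hab.le.trans hb)]
      have : c b < c a := by
        apply Finset.card_lt_card
        rw [Finset.ssubset_iff_of_subset]
        · refine ⟨b, ?_, ?_⟩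
          · simp [hab, hb]
          · simp
        · intro w hw
          simp only [mem_filter, mem_univ, true_and] at hw ⊢
          exact ⟨hab.trans hw.1, hw.2⟩
      omega
    · rw [if_neg hb]
      have h1 := lev_strictAnti hab
      have h2 := hK2 a
      split_ifs
      · omega
      · exact h1
  have h1 := strictAnti_sub hG hstr hzx.le
  simp only [hzx.le, le_refl, if_true] at h1
  have h2 : c x = 0 := by
    rw [hc]
    simp only
    rw [Finset.card_eq_zero, Finset.filter_eq_empty_iff]
    rintro w _ ⟨h3, h4⟩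
    exact lt_irrefl _ (h3.trans_le h4)
  have h3 : c z = 1 := by
    rw [hc]
    simp only
    rw [Finset.card_eq_one]
    refine ⟨x, ?_⟩
    ext w
    simp only [mem_filter, mem_univ, true_and, mem_singleton]
    constructor
    · rintro ⟨h4, h5⟩
      by_contra h6
      exact hzx.2 h4 (lt_of_le_of_ne h5 h6)
    · rintro rfl
      exact ⟨hzx.1, le_rfl⟩
  have h4 := lev_strictAnti hzx.1
  omega

theorem gauss_dual (hG : IsGaussian P) : IsGaussian Pᵒᵈ := by
  obtain ⟨h, hpos, hU⟩ := hG
  exact ⟨h, hpos, dual_gauss hU⟩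

/-- colevel: length of a longest chain strictly below `x` -/
noncomputable def colev (x : P) : ℕ := lev (OrderDual.toDual x)

theorem colev_covBy (hG : IsGaussian P) {z x : P} (hzx : z ⋖ x) : colev x = colev z + 1 :=
  lev_covBy (gauss_dual hG) (z := OrderDual.toDual x) (x := OrderDual.toDual z) (by simpa using hzx)

theorem card_lv_zero (hG : IsGaussian P) (j : ℕ) : (lv Pᵒᵈ j).card = (lv P j).card := by
  classical
  obtain ⟨h, hpos, hU⟩ := hG
  have h1 := (window_main (P := P) j hpos hU).2.1
  have h2 := (window_main (P := Pᵒᵈ) j hpos (dual_gauss hU)).2.1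
  rw [← h1]
  exact h2.symm

end Pool.Agent.GaussPoset
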