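import Mathlib

namespace Pool.Agent.GaussPoset

open Polynomial Finset

universe u

variable (P : Type u) [Fintype P] [PartialOrder P]

open Classical in
/-- The polynomial `U_m(P,q)`: the sum over all order-preserving maps `σ : P → {0,…,m}` of
`q` to the power `∑ σ(x)`. -/
noncomputable def U (m : ℕ) : ℤ[X] :=
  ∑ σ ∈ Finset.univ.filter (fun σ : P → Fin (m + 1) => Monotone σ),
    (X : ℤ[X]) ^ (∑ x, (σ x : ℕ))

/-- `P` is Gaussian: there are positive integers `h_1,…,h_p` (`p = |P|`) with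
`U_m(P,q) ∏ (1 - q^{h_i}) = ∏ (1 - q^{m+h_i})` for every `m ≥ 0`. -/
def IsGaussian : Prop :=
  ∃ h : Fin (Fintype.card P) → ℕ, (∀ i, 0 < h i) ∧
    ∀ m : ℕ, U P m * ∏ i, (1 - (X : ℤ[X]) ^ (h i)) = ∏ i, (1 - (X : ℤ[X]) ^ (m + h i))

omit [Fintype P] in
/-- The order of `P` is that of a distributive lattice. -/
def IsDistribLatticeOrder : Prop :=
  ∃ L : DistribLattice P, ∀ x y : P, L.le x y ↔ x ≤ y

end Pool.Agent.GaussPoset
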