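import Pool.Agent.W_MP_448cb3_h96.Modular

namespace Pool.Agent.GaussPoset

set_option linter.unusedSectionVars false

open Polynomial Finset

universe u

variable {P : Type u} [Fintype P] [PartialOrder P] [DecidableEq P] {r j : ℕ} {e : P → ℕ}

lemma rho_ge {x : P} (h : j ≤ lev x) : rho j e x = e x := by
  unfold rho
  rw [Nat.sub_eq_zero_of_le h]; simp

lemma E3_rho_le (x : P) : rho j e x ≤ e x := by
  unfold rho; omega

/-- neighbours in the Hasse diagram -/
def adjS (g v : P) : Prop := g ⋖ v ∨ v ⋖ g

lemma adj_lev (H : Gr P r) {g v : P} (h : adjS g v) (hv : lev v = j) :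
    (lev g = j + 1 ∧ g ⋖ v) ∨ (lev g + 1 = j ∧ v ⋖ g) := by
  rcases h with h | h
  · left
    exact ⟨by have := (H.covBy_iff.mp h).2; omega, h⟩
  · right
    exact ⟨by have := (H.covBy_iff.mp h).2; omega, h⟩

lemma adj_ne (H : Gr P r) {g v : P} (h : adjS g v) (hv : lev v = j) : lev g ≠ j := by
  rcases adj_lev H h hv with h' | h' <;> omega

lemma two_adj (H : Gr P r) {g a b c : P} (ha : lev a = j) (hb : lev b = j) (hc : lev c = j)
    (h1 : adjS g a) (h2 : adjS g b) (h3 : adjS g c) (hab : a ≠ b) : c = a ∨ c = b := by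
  rcases adj_lev H h1 ha with h1 | h1 <;> rcases adj_lev H h2 hb with h2 | h2 <;>
    rcases adj_lev H h3 hc with h3 | h3
  · exact two_up H h1.2 h2.2 h3.2 hab
  · omega
  · omega
  · omega
  · omega
  · omega
  · omega
  · exact two_low H h1.2 h2.2 h3.2 hab

lemma mem_Pk {x : P} : x ∈ Pk j e ↔ ¬ FI j e x ∧ ¬ FA j e x := by
  classical
  unfold Pk
  simp

lemma site_FI (H : Gr P r) (hA : Adm j e) {v : P} (hv : lev v = j) (h : FI j e v) :
    ∃ g, g ⋖ v ∧ e v < e g := by
  rcases h with h | ⟨z, hz, hzv⟩
  · rw [rho_ge hv.ge] at h; omega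
  · have hlz := lev_strictAnti hz
    rw [rho_ge hv.ge, rho_ge (by omega : j ≤ lev z)] at hzv
    obtain ⟨c, hzc, hcv⟩ := exists_le_covBy_of_lt hz
    refine ⟨c, hcv, ?_⟩
    by_contra hcon
    have hlc := (H.covBy_iff.mp hcv).2
    have hne : z ≠ c := by rintro rfl; omega
    refine hA c ⟨Or.inr ⟨z, lt_of_le_of_ne hzc hne, ?_⟩, v, hcv.lt, ?_⟩
    · rw [rho_ge (by omega), rho_ge (by omega)]; omega
    · rw [rho_ge (by omega), rho_ge hv.ge]; omega

lemma site_FA (H : Gr P r) (hA : Adm j e) {v : P} (hv : lev v = j) (h : FA j e v) :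
    ∃ g, v ⋖ g ∧ e v < e g := by
  obtain ⟨y, hy, hvy⟩ := h
  have hly := lev_strictAnti hy
  obtain ⟨c, hvc, hcy⟩ := exists_covBy_le_of_lt hy
  have hlc := (H.covBy_iff.mp hvc).2
  refine ⟨c, hvc, ?_⟩
  by_contra hcon
  rw [rho_ge hv.ge] at hvy
  have hrc : rho j e c = (e c : ℤ) - 1 := by
    unfold rho
    rw [show j - lev c = 1 by omega]; simp
  have hne : c ≠ y := by
    rintro rfl
    omega
  refine hA c ⟨Or.inr ⟨v, hvc.lt, ?_⟩, y, lt_of_le_of_ne hcy hne, ?_⟩
  · rw [hrc, rho_ge hv.ge]; omega
  · rw [hrc]; omega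

lemma site_killed (H : Gr P r) (hA : Adm j e) {v : P} (hv : lev v = j) (h : v ∉ Pk j e) :
    ∃ g, adjS g v ∧ e v < e g := by
  rw [mem_Pk] at h
  by_cases h1 : FI j e v
  · obtain ⟨g, hg, hg2⟩ := site_FI H hA hv h1
    exact ⟨g, Or.inl hg, hg2⟩
  · by_cases h2 : FA j e v
    · obtain ⟨g, hg, hg2⟩ := site_FA H hA hv h2
      exact ⟨g, Or.inr hg, hg2⟩
    · exact absurd ⟨h1, h2⟩ h

lemma sum_ge2 {x y : P} (h : x ≠ y) : e x + e y ≤ ∑ z, e z := by
  calc e x + e y = ∑ z ∈ ({x, y} : Finset P), e z := by rw [Finset.sum_pair h]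
    _ ≤ ∑ z, e z := Finset.sum_le_sum_of_subset (subset_univ _)

lemma sum_ge3 {x y z : P} (h1 : x ≠ y) (h2 : x ≠ z) (h3 : y ≠ z) : e x + e y + e z ≤ ∑ w, e w := by
  calc e x + e y + e z = ∑ w ∈ ({x, y, z} : Finset P), e w := by
        rw [Finset.sum_insert (by simp [h1, h2]), Finset.sum_pair h3]; ring
    _ ≤ ∑ w, e w := Finset.sum_le_sum_of_subset (subset_univ _)

lemma sum_ge4 {x y z t : P} (h1 : x ≠ y) (h2 : x ≠ z) (h3 : x ≠ t) (h4 : y ≠ z) (h5 : y ≠ t)
    (h6 : z ≠ t) : e x + e y + e z + e t ≤ ∑ w, e w := by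
  calc e x + e y + e z + e t = ∑ w ∈ ({x, y, z, t} : Finset P), e w := by
        rw [Finset.sum_insert (by simp [h1, h2, h3]), Finset.sum_insert (by simp [h4, h5]),
          Finset.sum_pair h6]; ring
    _ ≤ ∑ w, e w := Finset.sum_le_sum_of_subset (subset_univ _)

lemma two_mem {s : Finset P} (h : s.card ≤ 1) {x y : P} (hx : x ∈ s) (hy : y ∈ s) : x = y :=
  Finset.card_le_one.mp h x hx y hy

/-- an excited element next to the window which is not a peak is killed by a site -/
lemma off_killed (H : Gr P r) (hA : Adm j e) (hs : ∑ x, e x = 3) (h3 : (lv P j).card = 3)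
    (hpk : (Pk j e).card ≤ 1) {g : P} (hg1 : lev g = j + 1 ∨ lev g + 1 = j) (hge : 1 ≤ e g)
    (hg : g ∉ Pk j e) : ∃ v, lev v = j ∧ adjS g v ∧ e g ≤ e v := by
  classical
  by_contra hcon
  push Not at hcon
  -- the deeper element
  have hdeep : ∃ x, x ≠ g ∧ e x = 2 ∧ e g = 1 ∧ x ∈ Pk j e ∧ (lev x ≠ j + 1 ∧ lev x + 1 ≠ j
      ∧ lev x ≠ j) := by
    rcases hg1 with hg1 | hg1
    · -- lower side
      have hrg : rho j e g = e g := rho_ge (by omega)
      rw [mem_Pk] at hg
      have hnFA : ¬ FA j e g := by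
        rintro ⟨y, hy, hgy⟩
        rw [hrg] at hgy
        have hly := lev_strictAnti hy
        obtain ⟨v, hgv, hvy⟩ := exists_covBy_le_of_lt hy
        have hlv := (H.covBy_iff.mp hgv).2
        have h1 := hcon v (by omega) (Or.inl hgv)
        by_cases hvy2 : v = y
        · subst hvy2
          rw [rho_ge (by omega)] at hgy; omega
        · refine hA v ⟨Or.inr ⟨g, hgv.lt, ?_⟩, y, lt_of_le_of_ne hvy hvy2, ?_⟩
          · rw [hrg, rho_ge (by omega)]; omega
          · rw [rho_ge (by omega)]; omega
      have hFI : FI j e g := by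
        by_contra h; exact hg ⟨h, hnFA⟩
      rcases hFI with h | ⟨z, hz, hzg⟩
      · rw [hrg] at h; omega
      · have hlz := lev_strictAnti hz
        rw [hrg, rho_ge (by omega : j ≤ lev z)] at hzg
        have hne : z ≠ g := hz.ne
        have h1 := sum_ge2 (e := e) hne
        have hez : e z = 2 := by omega
        have heg : e g = 1 := by omega
        have hrest : ∀ w, w ≠ z → w ≠ g → e w = 0 := by
          intro w hwz hwg
          have := sum_ge3 (e := e) hne (fun h => hwz h.symm) (fun h => hwg h.symm)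
          omega
        refine ⟨z, hne, hez, heg, ?_, by omega, by omega, by omega⟩
        rw [mem_Pk]
        constructor
        · rintro (h | ⟨z', hz', hzz⟩)
          · rw [rho_ge (by omega)] at h; omega
          · have h2 := hrest z' hz'.ne (hz'.trans hz).ne
            have h3 := E3_rho_le (j := j) (e := e) z'
            rw [rho_ge (by omega : j ≤ lev z)] at hzz; omega
        · rintro ⟨y, hy, hzy⟩
          have h3 := E3_rho_le (j := j) (e := e) y
          rw [rho_ge (by omega : j ≤ lev z)] at hzy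
          by_cases hyg : y = g
          · subst hyg; omega
          · have := hrest y hy.ne' hyg; omega
    · -- upper side
      have hrg : rho j e g = (e g : ℤ) - 1 := by
        unfold rho
        rw [show j - lev g = 1 by omega]; simp
      rw [mem_Pk] at hg
      have hnFI : ¬ FI j e g := by
        rintro (h | ⟨z, hz, hzg⟩)
        · rw [hrg] at h; omega
        · rw [hrg] at hzg
          have hlz := lev_strictAnti hz
          obtain ⟨v, hzv, hvg⟩ := exists_le_covBy_of_lt hz
          have hlv := (H.covBy_iff.mp hvg).2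
          have h1 := hcon v (by omega) (Or.inr hvg)
          have hrz : rho j e z = e z := rho_ge (by omega)
          by_cases hzv2 : z = v
          · subst hzv2; omega
          · refine hA v ⟨Or.inr ⟨z, lt_of_le_of_ne hzv hzv2, ?_⟩, g, hvg.lt, ?_⟩
            · rw [rho_ge (by omega : j ≤ lev v)]; omega
            · rw [hrg, rho_ge (by omega : j ≤ lev v)]; omega
      have hFA : FA j e g := by
        by_contra h; exact hg ⟨hnFI, h⟩
      obtain ⟨y, hy, hgy⟩ := hFA
      have hly := lev_strictAnti hy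
      have hne : y ≠ g := hy.ne'
      have h1 := sum_ge2 (e := e) hne
      have hry : rho j e y = (e y : ℤ) - ((j - lev y : ℕ) : ℤ) := rfl
      have hez : e y = 2 := by omega
      have heg : e g = 1 := by omega
      have hlevy : lev y + 2 = j := by omega
      have hrest : ∀ w, w ≠ y → w ≠ g → e w = 0 := by
        intro w hwz hwg
        have := sum_ge3 (e := e) hne (fun h => hwz h.symm) (fun h => hwg h.symm)
        omega
      refine ⟨y, hne, hez, heg, ?_, by omega, by omega, by omega⟩
      rw [mem_Pk]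
      constructor
      · rintro (h | ⟨z', hz', hzz⟩)
        · omega
        · have h3 := E3_rho_le (j := j) (e := e) z'
          by_cases hzg : z' = g
          · subst hzg; omega
          · have h2 := hrest z' hz'.ne hzg
            omega
      · rintro ⟨w, hw, hyw⟩
        have h2 := hrest w hw.ne' (hy.trans hw).ne'
        have hlw := lev_strictAnti hw
        have hrw : rho j e w = (e w : ℤ) - ((j - lev w : ℕ) : ℤ) := rfl
        omega
  obtain ⟨x, hxg, hex, heg, hxP, hlx1, hlx2, hlx3⟩ := hdeep
  obtain ⟨a, b, c, hab, hac, hbc, habc⟩ := Finset.card_eq_three.mp h3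
  have hrest : ∀ w, w ≠ x → w ≠ g → e w = 0 := by
    intro w hwz hwg
    have := sum_ge3 (e := e) hxg (fun h => hwz h.symm) (fun h => hwg h.symm)
    omega
  have hla : lev a = j := by rw [← mem_lv, habc]; simp
  have hlb : lev b = j := by rw [← mem_lv, habc]; simp
  have hlc : lev c = j := by rw [← mem_lv, habc]; simp
  have hkill : ∀ s, lev s = j → adjS g s := by
    intro s hls
    have hsP : s ∉ Pk j e := by
      intro hsP
      have := two_mem hpk hsP hxP
      subst this
      exact hlx3 hls
    obtain ⟨g', hg', hlt⟩ := site_killed H hA hls hsP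
    have : g' = g := by
      by_contra hgg
      have hx' : g' ≠ x := by
        rintro rfl
        rcases adj_lev H hg' hls with h | h
        · exact hlx1 h.1
        · exact hlx2 h.1
      have := hrest g' hx' hgg
      omega
    rwa [this] at hg'
  rcases two_adj H hla hlb hlc (hkill a hla) (hkill b hlb) (hkill c hlc) hab with h | h
  · exact hac h.symm
  · exact hbc h.symm

/-- the excess function of a star with two rays -/
def e3 (v g g' : P) : P → ℕ := fun x => if x = v ∨ x = g ∨ x = g' then 1 else 0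

/-- classification of the energy three configurations with few peaks -/
theorem classify (H : Gr P r) (hA : Adm j e) (hs : ∑ x, e x = 3)
    (h3 : (lv P j).card = 3) (hpk : (Pk j e).card ≤ 1) :
    ∃ v0 v1 v2 g g', lev v0 = j ∧ lev v1 = j ∧ lev v2 = j ∧ v0 ≠ v1 ∧ v0 ≠ v2 ∧ v1 ≠ v2 ∧
      adjS g v0 ∧ adjS g v1 ∧ adjS g' v0 ∧ adjS g' v2 ∧ e = e3 v0 g g' := by
  classical
  obtain ⟨a, b, c, hab, hac, hbc, habc⟩ := Finset.card_eq_three.mp h3
  have hla : lev a = j := by rw [← mem_lv, habc]; simp
  have hlb : lev b = j := by rw [← mem_lv, habc]; simp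
  have hlc : lev c = j := by rw [← mem_lv, habc]; simp
  -- two killed sites
  have hex : ∃ v1 v2 v3, lev v1 = j ∧ lev v2 = j ∧ lev v3 = j ∧ v1 ≠ v2 ∧ v1 ≠ v3 ∧ v2 ≠ v3 ∧
      v1 ∉ Pk j e ∧ v2 ∉ Pk j e ∧ ∀ s, lev s = j → s = v1 ∨ s = v2 ∨ s = v3 := by
    have hall : ∀ s, lev s = j → s = a ∨ s = b ∨ s = c := by
      intro s hs
      rw [← mem_lv, habc] at hs
      simpa using hs
    by_cases haP : a ∈ Pk j e
    · refine ⟨b, c, a, hlb, hlc, hla, hbc, hab.symm, hac.symm, ?_, ?_, ?_⟩
      · intro h; exact hab (two_mem hpk haP h)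
      · intro h; exact hac (two_mem hpk haP h)
      · intro s hs; rcases hall s hs with h | h | h <;> simp [h]
    · by_cases hbP : b ∈ Pk j e
      · refine ⟨a, c, b, hla, hlc, hlb, hac, hab, hbc.symm, haP, ?_, ?_⟩
        · intro h; exact hbc (two_mem hpk hbP h)
        · intro s hs; rcases hall s hs with h | h | h <;> simp [h]
      · exact ⟨a, b, c, hla, hlb, hlc, hab, hac, hbc, haP, hbP, hall⟩
  obtain ⟨v1, v2, v3, hl1, hl2, hl3, h12, h13, h23, hk1, hk2, hall⟩ := hex
  obtain ⟨g1, hg1, he1⟩ := site_killed H hA hl1 hk1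
  obtain ⟨g2, hg2, he2⟩ := site_killed H hA hl2 hk2
  have hlg : ∀ {g v : P}, adjS g v → lev v = j → lev g = j + 1 ∨ lev g + 1 = j := by
    intro g v h hv
    rcases adj_lev H h hv with h | h
    · exact Or.inl h.1
    · exact Or.inr h.1
  by_cases hB : ∀ s, lev s = j → e s = 0
  · -- no energy on sites
    exfalso
    have hpeak : ∀ {g v : P}, adjS g v → lev v = j → 1 ≤ e g → g ∈ Pk j e := by
      intro g v hadj hv hge
      by_contra hg
      obtain ⟨v', hv', -, hv'2⟩ := off_killed H hA hs h3 hpk (hlg hadj hv) hge hg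
      have := hB v' hv'
      omega
    have hp1 := hpeak hg1 hl1 (by omega)
    have hp2 := hpeak hg2 hl2 (by omega)
    have h12g := two_mem hpk hp1 hp2
    subst h12g
    by_cases hv3 : v3 ∈ Pk j e
    · have := two_mem hpk hp1 hv3
      exact adj_ne H hg1 hl1 (by rw [this]; exact hl3)
    · obtain ⟨g3, hg3, he3⟩ := site_killed H hA hl3 hv3
      have hp3 := hpeak hg3 hl3 (by omega)
      have h13g := two_mem hpk hp1 hp3
      subst h13g
      rcases two_adj H hl1 hl2 hl3 hg1 hg2 hg3 h12 with h | h
      · exact h13 h.symm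
      · exact h23 h.symm
  · push Not at hB
    obtain ⟨v0, hl0, he0⟩ := hB
    have hv0g : ∀ {g v : P}, adjS g v → lev v = j → v0 ≠ g := by
      rintro g v h hv rfl
      exact adj_ne H h hv hl0
    by_cases hgg : g1 = g2
    · exfalso
      subst hgg
      have hgP : g1 ∈ Pk j e := by
        by_contra hg
        obtain ⟨v', hv', hadj, hle⟩ := off_killed H hA hs h3 hpk (hlg hg1 hl1) (by omega) hg
        rcases two_adj H hl1 hl2 hv' hg1 hg2 hadj h12 with h | h
        · subst h; omega
        · subst h; omega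
      have hv3 : v3 ∉ Pk j e := by
        intro hv3
        have := two_mem hpk hgP hv3
        exact adj_ne H hg1 hl1 (by rw [this]; exact hl3)
      obtain ⟨g3, hg3, he3⟩ := site_killed H hA hl3 hv3
      have hne : g1 ≠ g3 := by
        rintro rfl
        rcases two_adj H hl1 hl2 hl3 hg1 hg2 hg3 h12 with h | h
        · exact h13 h.symm
        · exact h23 h.symm
      have hsum := sum_ge3 (e := e) (hv0g hg1 hl1) (hv0g hg3 hl3) hne
      rcases hall v0 hl0 with h | h | h
      · subst h; omega
      · subst h; omega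
      · subst h; omega
    · have hsum := sum_ge3 (e := e) (hv0g hg1 hl1) (hv0g hg2 hl2) hgg
      have hv03 : v0 = v3 := by
        rcases hall v0 hl0 with h | h | h
        · subst h; omega
        · subst h; omega
        · exact h
      subst hv03
      have hrest : ∀ w, w ≠ v0 → w ≠ g1 → w ≠ g2 → e w = 0 := by
        intro w hw1 hw2 hw3
        have := sum_ge4 (e := e) (hv0g hg1 hl1) (hv0g hg2 hl2) (fun h => hw1 h.symm) hgg
          (fun h => hw2 h.symm) (fun h => hw3 h.symm)
        omega
      have hv0P : v0 ∈ Pk j e := by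
        by_contra hv0
        obtain ⟨g3, hg3, he3⟩ := site_killed H hA hl0 hv0
        have h1 : g3 ≠ v0 := fun h => hv0g hg3 hl0 h.symm
        by_cases e1 : g3 = g1
        · subst e1; omega
        · by_cases e2 : g3 = g2
          · subst e2; omega
          · have := hrest g3 h1 e1 e2
            omega
      have hadj : ∀ {g v : P}, adjS g v → lev v = j → 1 ≤ e g → adjS g v0 := by
        intro g v hadj hv hge
        have hgP : g ∉ Pk j e := by
          intro hg
          exact hv0g hadj hv (two_mem hpk hv0P hg)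
        obtain ⟨v', hv', hadj', hle⟩ := off_killed H hA hs h3 hpk (hlg hadj hv) hge hgP
        have : v' = v0 := by
          rcases hall v' hv' with h | h | h
          · subst h; omega
          · subst h; omega
          · exact h
        rwa [this] at hadj'
      refine ⟨v0, v1, v2, g1, g2, hl0, hl1, hl2, h13.symm, h23.symm, h12,
        hadj hg1 hl1 (by omega), hg1, hadj hg2 hl2 (by omega), hg2, ?_⟩
      funext x
      unfold e3
      split_ifs with hx
      · rcases hx with rfl | rfl | rfl <;> omega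
      · push Not at hx
        exact hrest x hx.1 hx.2.1 hx.2.2

end Pool.Agent.GaussPoset
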