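import Pool.Agent.W_MP_448cb3_h96.Energy3

namespace Pool.Agent.GaussPoset

set_option linter.unusedSectionVars false

open Polynomial Finset

universe u

variable {P : Type u} [Fintype P] [PartialOrder P] [DecidableEq P] {r j : ℕ}

section Star

variable {a b c g g' : P}

lemma e3_le_one (x : P) : e3 a g g' x ≤ 1 := by
  unfold e3; split_ifs <;> omega

lemma e3_pos {x : P} (h : 1 ≤ e3 a g g' x) : x = a ∨ x = g ∨ x = g' := by
  by_contra hcon
  unfold e3 at h
  rw [if_neg hcon] at h
  omega

lemma e3_eq_one {x : P} (h : x = a ∨ x = g ∨ x = g') : e3 a g g' x = 1 := by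
  unfold e3; rw [if_pos h]

lemma e3_eq_zero {x : P} (h : ¬ (x = a ∨ x = g ∨ x = g')) : e3 a g g' x = 0 := by
  unfold e3; rw [if_neg h]

/-- the hypotheses on a star -/
structure Star (j : ℕ) (a b c g g' : P) : Prop where
  la : lev a = j
  lb : lev b = j
  lc : lev c = j
  hab : a ≠ b
  hac : a ≠ c
  hbc : b ≠ c
  hall : ∀ s : P, lev s = j → s = a ∨ s = b ∨ s = c
  g1 : adjS g a
  g2 : adjS g b
  g3 : adjS g' a
  g4 : adjS g' c

lemma Star.swap (S : Star j a b c g g') : Star j a c b g' g :=
  ⟨S.la, S.lc, S.lb, S.hac, S.hab, S.hbc.symm, fun s hs => by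
    rcases S.hall s hs with h | h | h
    · exact Or.inl h
    · exact Or.inr (Or.inr h)
    · exact Or.inr (Or.inl h), S.g3, S.g4, S.g1, S.g2⟩

lemma e3_swap : e3 a g g' = e3 a g' g := by
  funext x
  unfold e3
  congr 1
  simp only [eq_iff_iff]
  tauto

lemma Star.ne (H : Gr P r) (S : Star j a b c g g') : g ≠ g' := by
  rintro rfl
  rcases two_adj H S.la S.lb S.lc S.g1 S.g2 S.g4 S.hab with h | h
  · exact S.hac h.symm
  · exact S.hbc h.symm

lemma Star.off (H : Gr P r) (S : Star j a b c g g') : a ≠ g := by
  rintro rfl
  exact adj_ne H S.g1 S.la S.la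

lemma Star.FI_iff (H : Gr P r) (S : Star j a b c g g') (x : P) :
    FI j (e3 a g g') x ↔ lev x < j ∨ (x = b ∧ lev g = j + 1) ∨ (x = c ∧ lev g' = j + 1) := by
  constructor
  · intro h
    by_cases hx : lev x < j
    · exact Or.inl hx
    · right
      rcases h with h | ⟨z, hz, hzx⟩
      · rw [rho_ge (by omega)] at h; omega
      · have hlz := lev_strictAnti hz
        rw [rho_ge (by omega), rho_ge (by omega)] at hzx
        have hz1 := e3_le_one (a := a) (g := g) (g' := g') z
        have hz2 := e3_pos (a := a) (g := g) (g' := g') (x := z) (by omega)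
        have hx0 : e3 a g g' x = 0 := by omega
        have hxa : x ≠ a := by
          rintro rfl
          have := e3_eq_one (a := x) (g := g) (g' := g') (x := x) (Or.inl rfl)
          omega
        rcases hz2 with h | h | h
        · subst h; have := S.la; omega
        · subst h
          rcases adj_lev H S.g1 S.la with h1 | h1
          · left
            have hlx : lev x = j := by omega
            rcases two_adj H S.la S.lb hlx S.g1 S.g2 (Or.inl (H.covBy_iff.mpr ⟨hz, by omega⟩))
              S.hab with h2 | h2
            · exact absurd h2 hxa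
            · exact ⟨h2, h1.1⟩
          · omega
        · subst h
          rcases adj_lev H S.g3 S.la with h1 | h1
          · right
            have hlx : lev x = j := by omega
            rcases two_adj H S.la S.lc hlx S.g3 S.g4 (Or.inl (H.covBy_iff.mpr ⟨hz, by omega⟩))
              S.hac with h2 | h2
            · exact absurd h2 hxa
            · exact ⟨h2, h1.1⟩
          · omega
  · rintro (h | ⟨h, h2⟩ | ⟨h, h2⟩)
    · by_cases hx : 1 ≤ e3 a g g' x
      · rcases e3_pos hx with h1 | h1 | h1
        · subst h1; have := S.la; omega
        · subst h1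
          rcases adj_lev H S.g1 S.la with h1 | h1
          · omega
          · right
            refine ⟨a, h1.2.lt, ?_⟩
            rw [rho_ge (x := a) (by rw [S.la]), e3_eq_one (Or.inl rfl)]
            unfold rho
            have := e3_le_one (a := a) (g := x) (g' := g') x
            omega
        · subst h1
          rcases adj_lev H S.g3 S.la with h1 | h1
          · omega
          · right
            refine ⟨a, h1.2.lt, ?_⟩
            rw [rho_ge (x := a) (by rw [S.la]), e3_eq_one (Or.inl rfl)]
            unfold rho
            have := e3_le_one (a := a) (g := g) (g' := x) x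
            omega
      · left
        unfold rho
        omega
    · subst h
      rcases adj_lev H S.g2 S.lb with h1 | h1
      · right
        refine ⟨g, h1.2.lt, ?_⟩
        have hz : e3 a g g' x = 0 := by
          apply e3_eq_zero
          rintro (h3 | h3 | h3)
          · exact S.hab h3.symm
          · subst h3; have := S.lb; omega
          · subst h3; exact adj_ne H S.g3 S.la S.lb
        rw [rho_ge (by rw [S.lb]), rho_ge (by omega), hz,
          e3_eq_one (x := g) (Or.inr (Or.inl rfl))]
        norm_num
      · omega
    · subst h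
      rcases adj_lev H S.g4 S.lc with h1 | h1
      · right
        refine ⟨g', h1.2.lt, ?_⟩
        have hz : e3 a g g' x = 0 := by
          apply e3_eq_zero
          rintro (h3 | h3 | h3)
          · exact S.hac h3.symm
          · subst h3; exact adj_ne H S.g1 S.la S.lc
          · subst h3; have := S.lc; omega
        rw [rho_ge (by rw [S.lc]), rho_ge (by omega), hz,
          e3_eq_one (x := g') (Or.inr (Or.inr rfl))]
        norm_num
      · omega

lemma Star.FA_iff (H : Gr P r) (S : Star j a b c g g') (x : P) :
    FA j (e3 a g g') x ↔ j < lev x ∨ (x = b ∧ lev g + 1 = j) ∨ (x = c ∧ lev g' + 1 = j) := by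
  constructor
  · rintro ⟨y, hy, hxy⟩
    by_cases hx : j < lev x
    · exact Or.inl hx
    · right
      have hly := lev_strictAnti hy
      have hy1 := e3_le_one (a := a) (g := g) (g' := g') y
      have hry : rho j (e3 a g g') y = (e3 a g g' y : ℤ) - ((j - lev y : ℕ) : ℤ) := rfl
      have hrx : rho j (e3 a g g') x = (e3 a g g' x : ℤ) - ((j - lev x : ℕ) : ℤ) := rfl
      have hlx : lev x = j ∧ e3 a g g' y = 1 ∧ lev y + 1 = j ∧ e3 a g g' x = 0 := by
        by_cases hy0 : 1 ≤ e3 a g g' y
        · have hly2 : lev y + 1 = j := by
            rcases e3_pos hy0 with h | h | h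
            · subst h; have := S.la; omega
            · subst h
              rcases adj_lev H S.g1 S.la with h1 | h1 <;> omega
            · subst h
              rcases adj_lev H S.g3 S.la with h1 | h1 <;> omega
          omega
        · omega
      obtain ⟨h1, h2, h3, h4⟩ := hlx
      have hxa : x ≠ a := by
        rintro rfl
        have := e3_eq_one (a := x) (g := g) (g' := g') (x := x) (Or.inl rfl)
        omega
      have hcov : x ⋖ y := H.covBy_iff.mpr ⟨hy, by omega⟩
      rcases e3_pos (a := a) (g := g) (g' := g') (x := y) (by omega) with h | h | h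
      · subst h; have := S.la; omega
      · subst h
        rcases two_adj H S.la S.lb h1 S.g1 S.g2 (Or.inr hcov) S.hab with h5 | h5
        · exact absurd h5 hxa
        · exact Or.inl ⟨h5, h3⟩
      · subst h
        rcases two_adj H S.la S.lc h1 S.g3 S.g4 (Or.inr hcov) S.hac with h5 | h5
        · exact absurd h5 hxa
        · exact Or.inr ⟨h5, h3⟩
  · rintro (h | ⟨h, h2⟩ | ⟨h, h2⟩)
    · by_cases hx : 1 ≤ e3 a g g' x
      · have hx1 := e3_le_one (a := a) (g := g) (g' := g') x
        refine ⟨a, ?_, ?_⟩
        · rcases e3_pos hx with h1 | h1 | h1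
          · subst h1; have := S.la; omega
          · subst h1
            rcases adj_lev H S.g1 S.la with h1 | h1
            · exact h1.2.lt
            · omega
          · subst h1
            rcases adj_lev H S.g3 S.la with h1 | h1
            · exact h1.2.lt
            · omega
        · rw [rho_ge (by omega), rho_ge (x := a) (by rw [S.la]), e3_eq_one (x := a) (Or.inl rfl)]
          omega
      · obtain ⟨y, hy, hy2⟩ := exists_above' (x := x) (j := j) h.le
        have hne : x ≠ y := by rintro rfl; omega
        refine ⟨y, lt_of_le_of_ne hy hne, ?_⟩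
        rw [rho_ge (by omega), rho_ge (by omega)]
        omega
    · subst h
      rcases adj_lev H S.g2 S.lb with h1 | h1
      · omega
      · refine ⟨g, h1.2.lt, ?_⟩
        have hz : e3 a g g' x = 0 := by
          apply e3_eq_zero
          rintro (h3 | h3 | h3)
          · exact S.hab h3.symm
          · subst h3; have := S.lb; omega
          · subst h3; exact adj_ne H S.g3 S.la S.lb
        rw [rho_ge (by rw [S.lb]), hz]
        unfold rho
        rw [e3_eq_one (x := g) (Or.inr (Or.inl rfl))]
        omega
    · subst h
      rcases adj_lev H S.g4 S.lc with h1 | h1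
      · omega
      · refine ⟨g', h1.2.lt, ?_⟩
        have hz : e3 a g g' x = 0 := by
          apply e3_eq_zero
          rintro (h3 | h3 | h3)
          · exact S.hac h3.symm
          · subst h3; exact adj_ne H S.g1 S.la S.lc
          · subst h3; have := S.lc; omega
        rw [rho_ge (by rw [S.lc]), hz]
        unfold rho
        rw [e3_eq_one (x := g') (Or.inr (Or.inr rfl))]
        omega

lemma Star.adm (H : Gr P r) (S : Star j a b c g g') : Adm j (e3 a g g') := by
  intro x
  rw [S.FI_iff H, S.FA_iff H]
  rintro ⟨h1 | ⟨h1, h2⟩ | ⟨h1, h2⟩, h3 | ⟨h3, h4⟩ | ⟨h3, h4⟩⟩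
  · omega
  · subst h3; have := S.lb; omega
  · subst h3; have := S.lc; omega
  · subst h1; have := S.lb; omega
  · omega
  · exact S.hbc (h1.symm.trans h3)
  · subst h1; have := S.lc; omega
  · exact S.hbc (h3.symm.trans h1)
  · omega

lemma Star.pk (H : Gr P r) (S : Star j a b c g g') : Pk j (e3 a g g') = {a} := by
  ext x
  rw [mem_Pk, S.FI_iff H, S.FA_iff H, mem_singleton]
  constructor
  · rintro ⟨h1, h2⟩
    push Not at h1 h2
    have hlx : lev x = j := by omega
    rcases S.hall x hlx with h | h | h
    · exact h
    · exfalso
      rcases adj_lev H S.g1 S.la with h3 | h3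
      · exact h1.2.1 h h3.1
      · exact h2.2.1 h h3.1
    · exfalso
      rcases adj_lev H S.g3 S.la with h3 | h3
      · exact h1.2.2 h h3.1
      · exact h2.2.2 h h3.1
  · rintro rfl
    have := S.la
    constructor
    · rintro (h | ⟨h, -⟩ | ⟨h, -⟩)
      · omega
      · exact S.hab h
      · exact S.hac h
    · rintro (h | ⟨h, -⟩ | ⟨h, -⟩)
      · omega
      · exact S.hab h
      · exact S.hac h

/-- sign of an off-site element -/
noncomputable def sg (j : ℕ) (g : P) : ℤ := if lev g = j + 1 then -1 else 1

lemma Star.nf_sign (H : Gr P r) (S : Star j a b c g g') :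
    (-1 : ℤ) ^ (nf j (e3 a g g')) = (-1) ^ (below P j) * (sg j g * sg j g') := by
  classical
  have h1 : (univ.filter (fun x => FI j (e3 a g g') x)) =
      (univ.filter (fun x : P => lev x < j)) ∪
        ((if lev g = j + 1 then {b} else ∅) ∪ (if lev g' = j + 1 then {c} else ∅)) := by
    ext x
    rw [mem_filter, S.FI_iff H, mem_union, mem_union, mem_filter]
    have e1 : x ∈ (if lev g = j + 1 then ({b} : Finset P) else ∅) ↔ x = b ∧ lev g = j + 1 := by
      split_ifs with h <;> simp [h]
    have e2 : x ∈ (if lev g' = j + 1 then ({c} : Finset P) else ∅) ↔ x = c ∧ lev g' = j + 1 := by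
      split_ifs with h <;> simp [h]
    rw [e1, e2]
    simp
  have h2 : nf j (e3 a g g') = below P j + ((if lev g = j + 1 then 1 else 0) +
      (if lev g' = j + 1 then 1 else 0)) := by
    unfold nf below
    rw [h1, Finset.card_union_of_disjoint, Finset.card_union_of_disjoint]
    · congr 1
      congr 1
      · split_ifs <;> simp
      · split_ifs <;> simp
    · split_ifs
      · rw [Finset.disjoint_singleton]; exact S.hbc
      · exact Finset.disjoint_empty_right _
      · exact Finset.disjoint_empty_left _
      · exact Finset.disjoint_empty_left _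
    · rw [Finset.disjoint_left]
      intro x hx hx2
      rw [mem_filter] at hx
      rw [mem_union] at hx2
      have hlb := S.lb
      have hlc := S.lc
      rcases hx2 with hx2 | hx2
      · split_ifs at hx2
        · rw [mem_singleton] at hx2; subst hx2; omega
        · exact absurd hx2 (notMem_empty _)
      · split_ifs at hx2
        · rw [mem_singleton] at hx2; subst hx2; omega
        · exact absurd hx2 (notMem_empty _)
  rw [h2, pow_add, pow_add]
  unfold sg
  congr 1
  split_ifs <;> norm_num

end Star

end Pool.Agent.GaussPoset
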