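import Pool.Agent.W_MP_448cb3_h96.Window

namespace Pool.Agent.GaussPoset

set_option linter.unusedSectionVars false

open Polynomial Finset

universe u

variable {P : Type u} [Fintype P] [PartialOrder P] [DecidableEq P]

section Lev

/-- length of a longest chain strictly above `x` (the least value of a strictly decreasing
map at `x`) -/
noncomputable def lev (x : P) : ℕ := sInf {k | ∃ f : P → ℕ, StrictAnti f ∧ f x = k}

omit [DecidableEq P] in
open Classical in
lemma exists_strictAnti (x : P) : {k | ∃ f : P → ℕ, StrictAnti f ∧ f x = k}.Nonempty := by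
  refine ⟨_, fun y => (univ.filter (fun z => y < z)).card, ?_, rfl⟩
  intro a b hab
  apply Finset.card_lt_card
  rw [Finset.ssubset_iff_of_subset]
  · exact ⟨b, by simp [hab], by simp⟩
  · intro z hz
    simp only [mem_filter, mem_univ, true_and] at hz ⊢
    exact hab.trans hz

omit [DecidableEq P] in
lemma lev_le {f : P → ℕ} (hf : StrictAnti f) (x : P) : lev x ≤ f x :=
  Nat.sInf_le ⟨f, hf, rfl⟩

omit [DecidableEq P] in
lemma lev_strictAnti : StrictAnti (lev : P → ℕ) := by
  intro a b hab
  obtain ⟨f, hf, hfa⟩ := Nat.sInf_mem (exists_strictAnti a)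
  calc lev b ≤ f b := lev_le hf b
    _ < f a := hf hab
    _ = lev a := hfa

omit [DecidableEq P] in
open Classical in
lemma exists_lev_succ {x : P} {k : ℕ} (h : lev x = k + 1) : ∃ y, x < y ∧ lev y = k := by
  by_contra hcon
  push Not at hcon
  have hlt : ∀ y, x < y → lev y < k := by
    intro y hy
    have h1 := lev_strictAnti hy
    have h2 := hcon y hy
    omega
  have hf : StrictAnti (fun z => if z = x then k else lev z) := by
    intro a b hab
    by_cases ha : a = x
    · subst ha
      have hb : b ≠ a := hab.ne'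
      simp only [if_true, if_neg hb]
      exact hlt b hab
    · by_cases hb : b = x
      · subst hb
        simp only [if_true, if_neg ha]
        have := lev_strictAnti hab
        omega
      · simp only [if_neg ha, if_neg hb]
        exact lev_strictAnti hab
  have := lev_le hf x
  simp only [if_true] at this
  omega

omit [DecidableEq P] in
lemma lev_le_of_upper {F : Finset P} {l : P → ℕ} (h1 : ∀ x y, x ≤ y → x ∈ F → y ∈ F)
    (h3 : ∀ x y, x < y → x ∈ F → y ∈ F → l y < l x) : ∀ x ∈ F, lev x ≤ l x := by
  have key : ∀ k, ∀ x ∈ F, lev x = k → k ≤ l x := by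
    intro k
    induction k with
    | zero => intro x _ _; exact Nat.zero_le _
    | succ k ih =>
      intro x hx hk
      obtain ⟨y, hxy, hy⟩ := exists_lev_succ hk
      have hyF := h1 x y hxy.le hx
      have := ih y hyF hy
      have := h3 x y hxy hx hyF
      omega
  intro x hx
  exact key _ x hx rfl

end Lev

section Rho

/-- the relative height function attached to an excess function `e` in window `j` -/
noncomputable def rho (j : ℕ) (e : P → ℕ) (x : P) : ℤ := (e x : ℤ) - ((j - lev x : ℕ) : ℤ)

/-- validity of a filter for the excess function `e` -/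
def Vd (j : ℕ) (e : P → ℕ) (F : Finset P) : Prop :=
  (∀ x y, x ≤ y → x ∈ F → y ∈ F) ∧ (∀ x, x ∉ F → 0 ≤ rho j e x) ∧
    (∀ x y, x ≤ y → x ∉ F → y ∉ F → rho j e x ≤ rho j e y) ∧
    (∀ x y, x < y → x ∈ F → y ∈ F → rho j e y < rho j e x)

/-- forced to be in the filter -/
def FI (j : ℕ) (e : P → ℕ) (x : P) : Prop := rho j e x < 0 ∨ ∃ z, z < x ∧ rho j e x < rho j e z

/-- forced to be out of the filter -/
def FA (j : ℕ) (e : P → ℕ) (x : P) : Prop := ∃ y, x < y ∧ rho j e x ≤ rho j e y

def Adm (j : ℕ) (e : P → ℕ) : Prop := ∀ x, ¬ (FI j e x ∧ FA j e x)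

open Classical in
/-- number of elements forced into the filter -/
noncomputable def nf (j : ℕ) (e : P → ℕ) : ℕ := (univ.filter (fun x => FI j e x)).card

open Classical in
/-- set of peaks -/
noncomputable def Pk (j : ℕ) (e : P → ℕ) : Finset P :=
  univ.filter (fun x => ¬ FI j e x ∧ ¬ FA j e x)

lemma vd_iff (j : ℕ) (e : P → ℕ) (F : Finset P) :
    Vd j e F ↔ (∀ x, FI j e x → x ∈ F) ∧ (∀ x, FA j e x → x ∉ F) := by
  constructor
  · rintro ⟨h1, h2, h3, h4⟩
    constructor
    · rintro x (hx | ⟨z, hz, hzx⟩)
      · by_contra hF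
        exact absurd (h2 x hF) (not_le.mpr hx)
      · by_contra hF
        have hzF : z ∉ F := fun h => hF (h1 z x hz.le h)
        exact absurd (h3 z x hz.le hzF hF) (not_le.mpr hzx)
    · rintro x ⟨y, hy, hxy⟩ hF
      have hyF := h1 x y hy.le hF
      exact absurd (h4 x y hy hF hyF) (not_lt.mpr hxy)
  · rintro ⟨h1, h2⟩
    have hdown : ∀ x y, x < y → x ∈ F → rho j e y < rho j e x := by
      intro x y hxy hx
      by_contra hcon
      exact h2 x ⟨y, hxy, not_lt.mp hcon⟩ hx
    refine ⟨?_, ?_, ?_, ?_⟩
    · intro x y hxy hx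
      rcases eq_or_lt_of_le hxy with h | h
      · rwa [← h]
      · exact h1 y (Or.inr ⟨x, h, hdown x y h hx⟩)
    · intro x hx
      by_contra hcon
      exact hx (h1 x (Or.inl (not_le.mp hcon)))
    · intro x y hxy hx hy
      rcases eq_or_lt_of_le hxy with h | h
      · rw [h]
      · by_contra hcon
        exact hy (h1 y (Or.inr ⟨x, h, not_le.mp hcon⟩))
    · intro x y hxy hx _
      exact hdown x y hxy hx

open Classical in
lemma sum_vd (j : ℕ) (e : P → ℕ) :
    ∑ F : Finset P, (if Vd j e F then (X : ℤ[X]) ^ F.card else 0) =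
      if Adm j e then X ^ (nf j e) * (1 + X) ^ (Pk j e).card else 0 := by
  by_cases hA : Adm j e
  · rw [if_pos hA, ← Finset.sum_filter]
    have h1 : ((1 : ℤ[X]) + X) ^ (Pk j e).card = ∑ S ∈ (Pk j e).powerset, X ^ S.card := by
      rw [add_comm, ← Finset.sum_pow_mul_eq_add_pow]
      simp
    rw [h1, Finset.mul_sum]
    symm
    refine Finset.sum_bij (fun S _ => (univ.filter (fun x => FI j e x)) ∪ S) ?_ ?_ ?_ ?_
    · intro S hS
      rw [mem_powerset] at hS
      rw [mem_filter, vd_iff]
      refine ⟨mem_univ _, ?_, ?_⟩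
      · intro x hx
        simp [hx]
      · intro x hx hmem
        rw [mem_union] at hmem
        rcases hmem with hmem | hmem
        · simp only [mem_filter, mem_univ, true_and] at hmem
          exact hA x ⟨hmem, hx⟩
        · have := hS hmem
          simp only [Pk, mem_filter, mem_univ, true_and] at this
          exact this.2 hx
    · intro S hS T hT hST
      rw [mem_powerset] at hS hT
      have aux : ∀ S ⊆ Pk j e, S = ((univ.filter (fun x => FI j e x)) ∪ S) ∩ Pk j e := by
        intro S hS
        ext x
        rw [mem_inter, mem_union]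
        constructor
        · intro hx; exact ⟨Or.inr hx, hS hx⟩
        · rintro ⟨h | h, hp⟩
          · simp only [mem_filter, mem_univ, true_and] at h
            simp only [Pk, mem_filter, mem_univ, true_and] at hp
            exact absurd h hp.1
          · exact h
      rw [aux S hS, aux T hT, hST]
    · intro F hF
      rw [mem_filter, vd_iff] at hF
      obtain ⟨-, h1, h2⟩ := hF
      refine ⟨F ∩ Pk j e, ?_, ?_⟩
      · rw [mem_powerset]; exact inter_subset_right
      · ext x
        rw [mem_union, mem_inter]
        simp only [mem_filter, mem_univ, true_and, Pk]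
        constructor
        · rintro (h | h)
          · exact h1 x h
          · exact h.1
        · intro hx
          by_cases hfi : FI j e x
          · exact Or.inl hfi
          · exact Or.inr ⟨hx, hfi, fun hfa => h2 x hfa hx⟩
    · intro S hS
      rw [mem_powerset] at hS
      rw [card_union_of_disjoint, pow_add]
      · rfl
      · rw [Finset.disjoint_left]
        intro x hx hxS
        have := hS hxS
        simp only [Pk, mem_filter, mem_univ, true_and] at this hx
        exact this.1 hx
  · rw [if_neg hA]
    apply Finset.sum_eq_zero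
    intro F _
    rw [if_neg]
    intro hV
    rw [vd_iff] at hV
    unfold Adm at hA
    push Not at hA
    obtain ⟨x, hx1, hx2⟩ := hA
    exact hV.2 x hx2 (hV.1 x hx1)

open Classical in
/-- the energy `n` part of the window polynomial -/
noncomputable def Z (P : Type u) [Fintype P] [PartialOrder P] [DecidableEq P] (j n : ℕ) : ℤ[X] :=
  ∑ e ∈ (univ : Finset P).piAntidiag n,
    if Adm j e then X ^ (nf j e) * (1 + X) ^ (Pk j e).card else 0

/-- the ground energy -/
noncomputable def M0 (P : Type u) [Fintype P] [PartialOrder P] (j : ℕ) : ℕ :=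
  ∑ x : P, min j (lev x)

/-- from heights to excesses -/
noncomputable def toE (j : ℕ) (F : Finset P) (l : P → ℕ) (x : P) : ℕ :=
  if x ∈ F then l x - min j (lev x) else l x + (j - lev x)

/-- from excesses to heights -/
noncomputable def toL (j : ℕ) (F : Finset P) (e : P → ℕ) (x : P) : ℕ :=
  if x ∈ F then e x + min j (lev x) else e x - (j - lev x)

lemma toE_add {j : ℕ} {F : Finset P} {l : P → ℕ} (h : Conf F l) (x : P) :
    toE j F l x + min j (lev x) = l x + (if x ∈ F then 0 else j) := by
  unfold toE
  by_cases hx : x ∈ F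
  · have := lev_le_of_upper h.1 h.2.2 x hx
    simp only [if_pos hx]; omega
  · simp only [if_neg hx]; omega

lemma toL_add {j : ℕ} {F : Finset P} {e : P → ℕ} (h : Vd j e F) (x : P) :
    toL j F e x + (if x ∈ F then 0 else j) = e x + min j (lev x) := by
  unfold toL
  by_cases hx : x ∈ F
  · simp only [if_pos hx]; omega
  · have := h.2.1 x hx
    unfold rho at this
    simp only [if_neg hx]; omega

lemma rho_toE {j : ℕ} {F : Finset P} {l : P → ℕ} (h : Conf F l) (x : P) :
    rho j (toE j F l) x = (l x : ℤ) - (if x ∈ F then (j : ℤ) else 0) := by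
  have := toE_add (j := j) h x
  unfold rho
  by_cases hx : x ∈ F
  · simp only [if_pos hx] at this ⊢; omega
  · simp only [if_neg hx] at this ⊢; omega

lemma rho_toL {j : ℕ} {F : Finset P} {e : P → ℕ} (h : Vd j e F) (x : P) :
    rho j e x = (toL j F e x : ℤ) - (if x ∈ F then (j : ℤ) else 0) := by
  have := toL_add (j := j) h x
  unfold rho
  by_cases hx : x ∈ F
  · simp only [if_pos hx] at this ⊢; omega
  · simp only [if_neg hx] at this ⊢; omega

lemma vd_toE {j : ℕ} {F : Finset P} {l : P → ℕ} (h : Conf F l) : Vd j (toE j F l) F := by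
  have hr := fun x => rho_toE (j := j) h x
  obtain ⟨h1, h2, h3⟩ := h
  refine ⟨h1, ?_, ?_, ?_⟩
  · intro x hx
    rw [hr, if_neg hx]; simp
  · intro x y hxy hx hy
    rw [hr, hr, if_neg hx, if_neg hy]
    have := h2 x y hxy hx hy
    omega
  · intro x y hxy hx hy
    rw [hr, hr, if_pos hx, if_pos hy]
    have := h3 x y hxy hx hy
    omega

lemma conf_toL {j : ℕ} {F : Finset P} {e : P → ℕ} (h : Vd j e F) : Conf F (toL j F e) := by
  have hr := fun x => rho_toL (j := j) h x
  obtain ⟨h1, h2, h3, h4⟩ := h
  refine ⟨h1, ?_, ?_⟩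
  · intro x y hxy hx hy
    have := h3 x y hxy hx hy
    rw [hr, hr, if_neg hx, if_neg hy] at this
    omega
  · intro x y hxy hx hy
    have := h4 x y hxy hx hy
    rw [hr, hr, if_pos hx, if_pos hy] at this
    omega

lemma toL_toE {j : ℕ} {F : Finset P} {l : P → ℕ} (h : Conf F l) :
    toL j F (toE j F l) = l := by
  funext x
  have h1 := toE_add (j := j) h x
  have h2 := toL_add (vd_toE (j := j) h) x
  omega

lemma toE_toL {j : ℕ} {F : Finset P} {e : P → ℕ} (h : Vd j e F) :
    toE j F (toL j F e) = e := by
  funext x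
  have h1 := toL_add (j := j) h x
  have h2 := toE_add (j := j) (conf_toL h) x
  omega

lemma sum_ite_j (j : ℕ) (F : Finset P) :
    ∑ x : P, (if x ∈ F then 0 else j) = j * (Fintype.card P - F.card) := by
  have h : ∀ x : P, (if x ∈ F then 0 else j) = if x ∈ Fᶜ then j else 0 := by
    intro x
    by_cases hx : x ∈ F <;> simp [hx]
  rw [Finset.sum_congr rfl (fun x _ => h x), Finset.sum_ite_mem, univ_inter, sum_const,
    smul_eq_mul, card_compl, mul_comm]

lemma sum_toE {j : ℕ} {F : Finset P} {l : P → ℕ} (h : Conf F l) :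
    ∑ x, toE j F l x + M0 P j = ∑ x, l x + j * (Fintype.card P - F.card) := by
  unfold M0
  rw [← sum_ite_j, ← Finset.sum_add_distrib, ← Finset.sum_add_distrib]
  exact Finset.sum_congr rfl fun x _ => toE_add h x

lemma sum_toL {j : ℕ} {F : Finset P} {e : P → ℕ} (h : Vd j e F) :
    ∑ x, toL j F e x + j * (Fintype.card P - F.card) = ∑ x, e x + M0 P j := by
  unfold M0
  rw [← sum_ite_j, ← Finset.sum_add_distrib, ← Finset.sum_add_distrib]
  exact Finset.sum_congr rfl fun x _ => toL_add h x

open Classical in
lemma coeff_W_term (j N : ℕ) (F : Finset P) :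
    PowerSeries.coeff N (PowerSeries.X ^ (j * (Fintype.card P - F.card)) * G F) =
      if M0 P j ≤ N then
        ((((univ : Finset P).piAntidiag (N - M0 P j)).filter (fun e => Vd j e F)).card : ℤ)
      else 0 := by
  rw [PowerSeries.coeff_X_pow_mul']
  by_cases h1 : j * (Fintype.card P - F.card) ≤ N
  · rw [if_pos h1]
    unfold G
    rw [PowerSeries.coeff_mk]
    by_cases h2 : M0 P j ≤ N
    · rw [if_pos h2]
      congr 1
      refine Finset.card_bij (fun l _ => toE j F l) ?_ ?_ ?_
      · intro l hl
        rw [mem_filter, mem_piAntidiag] at hl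
        rw [mem_filter, mem_piAntidiag]
        obtain ⟨⟨hl1, -⟩, hl2⟩ := hl
        refine ⟨⟨?_, fun _ _ => mem_univ _⟩, vd_toE hl2⟩
        have h3 := sum_toE (j := j) hl2
        rw [hl1] at h3
        change ∑ x, toE j F l x = _
        omega
      · intro l hl l' hl' h
        rw [mem_filter] at hl hl'
        change toE j F l = toE j F l' at h
        rw [← toL_toE (j := j) hl.2, ← toL_toE (j := j) hl'.2, h]
      · intro e he
        rw [mem_filter, mem_piAntidiag] at he
        obtain ⟨⟨he1, -⟩, he2⟩ := he
        refine ⟨toL j F e, ?_, toE_toL he2⟩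
        rw [mem_filter, mem_piAntidiag]
        refine ⟨⟨?_, fun _ _ => mem_univ _⟩, conf_toL he2⟩
        have h3 := sum_toL (j := j) he2
        rw [he1] at h3
        change ∑ x, toL j F e x = _
        omega
    · rw [if_neg h2, Nat.cast_eq_zero, Finset.card_eq_zero, Finset.filter_eq_empty_iff]
      intro l hl hc
      rw [mem_piAntidiag] at hl
      have h3 := sum_toE (j := j) hc
      rw [hl.1] at h3
      omega
  · rw [if_neg h1]
    symm
    split_ifs with h2
    · rw [Nat.cast_eq_zero, Finset.card_eq_zero, Finset.filter_eq_empty_iff]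
      intro e he hc
      rw [mem_piAntidiag] at he
      have h3 := sum_toL (j := j) hc
      rw [he.1] at h3
      omega
    · rfl

/-- coefficient extraction in `q` -/
noncomputable def exq (N : ℕ) (f : Polynomial (PowerSeries ℤ)) : ℤ[X] :=
  ∑ k ∈ f.support, monomial k (PowerSeries.coeff N (f.coeff k))

lemma coeff_exq (N : ℕ) (f : Polynomial (PowerSeries ℤ)) (k : ℕ) :
    (exq N f).coeff k = PowerSeries.coeff N (f.coeff k) := by
  unfold exq
  rw [Polynomial.finsetSum_coeff]
  simp only [coeff_monomial]
  rw [Finset.sum_ite_eq' f.support k]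
  split_ifs with h
  · rfl
  · rw [Polynomial.notMem_support_iff.mp h, map_zero]

lemma exq_map_mul (N : ℕ) (g : ℤ[X]) (f : Polynomial (PowerSeries ℤ)) :
    exq N (g.map (PowerSeries.C : ℤ →+* PowerSeries ℤ) * f) = g * exq N f := by
  ext k
  rw [coeff_exq, Polynomial.coeff_mul, Polynomial.coeff_mul, map_sum]
  refine Finset.sum_congr rfl fun p _ => ?_
  rw [Polynomial.coeff_map, PowerSeries.coeff_C_mul, coeff_exq]

lemma exq_W (j N : ℕ) : exq N (W P j) = if M0 P j ≤ N then Z P j (N - M0 P j) else 0 := by
  classical
  have key : ∀ k, (exq N (W P j)).coeff k = if M0 P j ≤ N then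
      (∑ F : Finset P, if F.card = k then
        ((((univ : Finset P).piAntidiag (N - M0 P j)).filter (fun e => Vd j e F)).card : ℤ) else 0)
      else 0 := by
    intro k
    rw [coeff_exq]
    unfold W
    rw [Polynomial.finsetSum_coeff, map_sum]
    simp only [Polynomial.coeff_C_mul_X_pow]
    split_ifs with h2
    · refine Finset.sum_congr rfl fun F _ => ?_
      by_cases hk : k = F.card
      · rw [if_pos hk, if_pos hk.symm, coeff_W_term, if_pos h2]
      · rw [if_neg hk, if_neg (fun h => hk h.symm), map_zero]
    · refine Finset.sum_eq_zero fun F _ => ?_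
      by_cases hk : k = F.card
      · rw [if_pos hk, coeff_W_term, if_neg h2]
      · rw [if_neg hk, map_zero]
  ext k
  rw [key]
  split_ifs with h2
  · unfold Z
    rw [Polynomial.finsetSum_coeff]
    have h3 : ∀ e : P → ℕ, (if Adm j e then (X : ℤ[X]) ^ (nf j e) * (1 + X) ^ (Pk j e).card
        else 0).coeff k = ∑ F : Finset P, if Vd j e F then (if F.card = k then (1 : ℤ) else 0)
          else 0 := by
      intro e
      rw [← sum_vd, Polynomial.finsetSum_coeff]
      refine Finset.sum_congr rfl fun F _ => ?_
      split_ifs with h4 h5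
      · rw [coeff_X_pow, if_pos h5.symm]
      · rw [coeff_X_pow, if_neg (fun h => h5 h.symm)]
      · exact Polynomial.coeff_zero k
    rw [Finset.sum_congr rfl (fun e _ => h3 e), Finset.sum_comm]
    refine Finset.sum_congr rfl fun F _ => ?_
    by_cases hk : F.card = k
    · simp only [if_pos hk]
      rw [Finset.card_filter]
      push_cast
      rfl
    · simp only [if_neg hk, ite_self, Finset.sum_const_zero]
  · simp

end Rho

end Pool.Agent.GaussPoset
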