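import Pool.Agent.W_MP_448cb3_h96.Energy1

namespace Pool.Agent.GaussPoset

set_option linter.unusedSectionVars false

open Finset

universe u

section Lat

variable {P : Type u} [Fintype P] [Lattice P] [DecidableEq P]

/-- the pair condition: two elements have a common lower cover iff they have a common
upper cover -/
def PairUp (P : Type u) [Lattice P] : Prop :=
  ∀ v v' w : P, v ≠ v' → w ⋖ v → w ⋖ v' → v ⋖ v ⊔ v' ∧ v' ⋖ v ⊔ v'

def PairDown (P : Type u) [Lattice P] : Prop :=
  ∀ v v' y : P, v ≠ v' → v ⋖ y → v' ⋖ y → v ⊓ v' ⋖ v ∧ v ⊓ v' ⋖ v'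

lemma semimod (hU : PairUp P) : ∀ (n : ℕ) (a b c : P), lev a ≤ lev b + n → a ⋖ c → a ≤ b →
    b ⩿ b ⊔ c := by
  intro n
  induction n with
  | zero =>
    intro a b c hn hac hab
    have : a = b := by
      by_contra hne
      have := lev_strictAnti (lt_of_le_of_ne hab hne)
      omega
    subst this
    rw [sup_eq_right.mpr hac.le]
    exact hac.wcovBy
  | succ n ih =>
    intro a b c hn hac hab
    rcases eq_or_lt_of_le hab with h | h
    · subst h
      rw [sup_eq_right.mpr hac.le]
      exact hac.wcovBy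
    · obtain ⟨a', ha', ha'b⟩ := exists_covBy_le_of_lt h
      by_cases hc : a' = c
      · subst hc
        rw [sup_eq_left.mpr ha'b]
        exact WCovBy.rfl
      · obtain ⟨-, h2⟩ := hU c a' a (fun h => hc h.symm) hac ha'
        have h3 := lev_strictAnti ha'.lt
        have h4 := ih a' b (c ⊔ a') (by omega) h2 ha'b
        have h5 : b ⊔ (c ⊔ a') = b ⊔ c := by
          rw [← sup_assoc, sup_eq_left.mpr (ha'b.trans le_sup_left)]
        rwa [h5] at h4

lemma semimod' (hU : PairUp P) {a c : P} (hac : a ⋖ c) (b : P) : a ⊔ b ⩿ c ⊔ b := by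
  have h := semimod hU (lev a) a (a ⊔ b) c (Nat.le_add_left _ _) hac le_sup_left
  have h2 : a ⊔ b ⊔ c = c ⊔ b := by
    rw [sup_right_comm, sup_eq_right.mpr hac.le]
  rwa [h2] at h

variable {r : ℕ}

/-- rank -/
lemma colev_lt (H : Gr P r) {x y : P} (h : x < y) : colev x < colev y := by
  have h1 := H.hr x
  have h2 := H.hr y
  have h3 := lev_strictAnti h
  omega

lemma colev_cov (H : Gr P r) {x y : P} (h : x ⋖ y) : colev y = colev x + 1 :=
  colev_covBy H.gauss h

lemma colev_wcov (H : Gr P r) {x y : P} (h : x ⩿ y) : colev y ≤ colev x + 1 := by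
  rcases h.covBy_or_eq with h | h
  · exact (colev_cov H h).le
  · rw [h]; omega

lemma rank_ineq_aux (H : Gr P r) (hU : PairUp P) (x y : P) : ∀ (n : ℕ) (z : P), z ≤ x →
    colev x ≤ colev z + n → colev (x ⊔ y) + colev z ≤ colev (z ⊔ y) + colev x := by
  intro n
  induction n with
  | zero =>
    intro z hz hn
    have : z = x := by
      by_contra hne
      have := colev_lt H (lt_of_le_of_ne hz hne)
      omega
    subst this
    exact le_rfl
  | succ n ih =>
    intro z hz hn
    rcases eq_or_lt_of_le hz with h | h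
    · subst h; exact le_rfl
    · obtain ⟨z', hz', hz'x⟩ := exists_covBy_le_of_lt h
      have h1 := colev_cov H hz'
      have h2 := ih z' hz'x (by omega)
      have h3 := colev_wcov H (semimod' hU hz' y)
      omega

lemma rank_ineq (H : Gr P r) (hU : PairUp P) (x y : P) :
    colev (x ⊔ y) + colev (x ⊓ y) ≤ colev x + colev y := by
  have h := rank_ineq_aux H hU x y (colev x) (x ⊓ y) inf_le_left (Nat.le_add_left _ _)
  have h2 : x ⊓ y ⊔ y = y := sup_eq_right.mpr inf_le_right
  rw [h2] at h
  omega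

open Classical in
/-- the set of elements below `x` with exactly one lower cover -/
noncomputable def JI (x : P) : Finset P :=
  univ.filter (fun p => p ≤ x ∧ ∃ q, q ⋖ p ∧ ∀ q', q' ⋖ p → q' = q)

lemma mem_JI {x p : P} : p ∈ JI x ↔ p ≤ x ∧ ∃ q, q ⋖ p ∧ ∀ q', q' ⋖ p → q' = q := by
  unfold JI; simp

lemma JI_inf (x y : P) : JI (x ⊓ y) = JI x ∩ JI y := by
  ext p
  rw [mem_inter, mem_JI, mem_JI, mem_JI, le_inf_iff]
  tauto

lemma JI_mono {x y : P} (h : x ≤ y) : JI x ⊆ JI y := by
  intro p hp
  rw [mem_JI] at hp ⊢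
  exact ⟨hp.1.trans h, hp.2⟩

/-- every element has at most two lower covers -/
def TwoLow (P : Type u) [Lattice P] : Prop :=
  ∀ x a b c : P, a ⋖ x → b ⋖ x → c ⋖ x → a ≠ b → c = a ∨ c = b

lemma card_JI (H : Gr P r) (hD : PairDown P) (hT : TwoLow P) : ∀ (n : ℕ) (x : P), colev x ≤ n →
    (JI x).card = colev x := by
  intro n
  induction n with
  | zero =>
    intro x hx
    have h0 : colev x = 0 := Nat.le_zero.mp hx
    rw [h0, Finset.card_eq_zero, Finset.eq_empty_iff_forall_notMem]
    intro p hp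
    rw [mem_JI] at hp
    obtain ⟨hpx, q, hq, -⟩ := hp
    have := colev_lt H (hq.lt.trans_le hpx)
    omega
  | succ n ih =>
    intro x hx
    by_cases h0 : colev x = 0
    · exact ih x (by omega)
    · have h1 := H.hr x
      have h2 := H.lev_le x
      obtain ⟨z, hz, hz2⟩ := H.exists_below (x := x) (j := lev x + 1) (by omega) (by omega)
      have hzx : z ⋖ x := H.covBy_iff.mpr ⟨lt_of_le_of_ne hz (by rintro rfl; omega), hz2⟩
      have hcz := colev_cov H hzx
      by_cases hone : ∀ q, q ⋖ x → q = z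
      · have hJ : JI x = insert x (JI z) := by
          ext p
          rw [mem_insert, mem_JI, mem_JI]
          constructor
          · rintro ⟨hpx, hp⟩
            rcases eq_or_lt_of_le hpx with h | h
            · exact Or.inl h
            · right
              obtain ⟨q, hpq, hq⟩ := exists_le_covBy_of_lt h
              rw [hone q hq] at hpq
              exact ⟨hpq, hp⟩
          · rintro (h | ⟨h, hp⟩)
            · subst h
              exact ⟨le_rfl, z, hzx, hone⟩
            · exact ⟨h.trans hz, hp⟩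
        rw [hJ, Finset.card_insert_of_notMem, ih z (by omega), hcz]
        intro hmem
        rw [mem_JI] at hmem
        exact lt_irrefl _ (hzx.lt.trans_le hmem.1)
      · push Not at hone
        obtain ⟨q, hq, hqz⟩ := hone
        have hJ : JI x = JI q ∪ JI z := by
          ext p
          rw [mem_union, mem_JI, mem_JI, mem_JI]
          constructor
          · rintro ⟨hpx, s, hs, hs2⟩
            have hne : p ≠ x := by
              rintro rfl
              exact hqz ((hs2 q hq).trans (hs2 z hzx).symm)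
            obtain ⟨t, hpt, ht⟩ := exists_le_covBy_of_lt (lt_of_le_of_ne hpx hne)
            rcases hT x q z t hq hzx ht hqz with h | h
            · subst h; exact Or.inl ⟨hpt, s, hs, hs2⟩
            · subst h; exact Or.inr ⟨hpt, s, hs, hs2⟩
          · rintro (⟨h, hp⟩ | ⟨h, hp⟩)
            · exact ⟨h.trans hq.le, hp⟩
            · exact ⟨h.trans hz, hp⟩
        obtain ⟨h3, h4⟩ := hD q z x hqz hq hzx
        have h5 := colev_cov H hq
        have h6 := colev_cov H h3
        have h7 := Finset.card_union_add_card_inter (JI q) (JI z)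
        rw [← hJ, ← JI_inf, ih q (by omega), ih z (by omega), ih (q ⊓ z) (by omega)] at h7
        omega

lemma JI_sup (H : Gr P r) (hU : PairUp P) (hD : PairDown P) (hT : TwoLow P) (x y : P) :
    JI (x ⊔ y) = JI x ∪ JI y := by
  have hc := fun x : P => card_JI H hD hT (colev x) x le_rfl
  symm
  apply Finset.eq_of_subset_of_card_le
  · exact Finset.union_subset (JI_mono le_sup_left) (JI_mono le_sup_right)
  · have h1 := Finset.card_union_add_card_inter (JI x) (JI y)
    rw [← JI_inf, hc, hc, hc] at h1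
    have h2 := rank_ineq H hU x y
    rw [hc]
    omega

lemma le_of_JI (H : Gr P r) (hD : PairDown P) (hT : TwoLow P) {x y : P} (h : JI x ⊆ JI y) :
    x ≤ y := by
  have hc := fun x : P => card_JI H hD hT (colev x) x le_rfl
  have h1 : JI (x ⊓ y) = JI x := by
    rw [JI_inf]; exact Finset.inter_eq_left.mpr h
  have h2 : colev (x ⊓ y) = colev x := by rw [← hc, ← hc, h1]
  by_contra hne
  have h3 : x ⊓ y < x := by
    refine lt_of_le_of_ne inf_le_left ?_
    intro h4
    exact hne (inf_eq_left.mp h4)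
  have := colev_lt H h3
  omega

theorem distrib_of_pairs (H : Gr P r) (hU : PairUp P) (hD : PairDown P) (hT : TwoLow P)
    (x y z : P) : (x ⊔ y) ⊓ (x ⊔ z) ≤ x ⊔ y ⊓ z := by
  apply le_of_JI H hD hT
  rw [JI_inf, JI_sup H hU hD hT, JI_sup H hU hD hT, JI_sup H hU hD hT, JI_inf]
  intro p hp
  simp only [mem_inter, mem_union] at hp ⊢
  tauto

end Lat

section Ord

variable {P : Type u} [Fintype P] [PartialOrder P] [DecidableEq P] {r : ℕ}

/-- every element covers at most two elements -/
lemma two_low (H : Gr P r) {x a b c : P} (ha : a ⋖ x) (hb : b ⋖ x) (hc : c ⋖ x) (hab : a ≠ b) :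
    c = a ∨ c = b := by
  classical
  have hla := (H.covBy_iff.mp ha).2
  have h1 := (energy_one H (j := lev x + 1) (by have := H.lev_le a; omega)).1 x rfl
  by_contra hcon
  push Not at hcon
  have h2 : ({a, b, c} : Finset P) ⊆ (lv P (lev x + 1)).filter (fun v => v < x) := by
    intro z hz
    simp only [mem_insert, mem_singleton] at hz
    rw [mem_filter, mem_lv]
    rcases hz with h | h | h
    · subst h; exact ⟨(H.covBy_iff.mp ha).2, ha.lt⟩
    · subst h; exact ⟨(H.covBy_iff.mp hb).2, hb.lt⟩
    · subst h; exact ⟨(H.covBy_iff.mp hc).2, hc.lt⟩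
  have h3 := Finset.card_le_card h2
  rw [Finset.card_eq_three.mpr ⟨a, b, c, hab, hcon.1.symm, hcon.2.symm, rfl⟩] at h3
  unfold dn at h1
  omega

/-- every element is covered by at most two elements -/
lemma two_up (H : Gr P r) {x a b c : P} (ha : x ⋖ a) (hb : x ⋖ b) (hc : x ⋖ c) (hab : a ≠ b) :
    c = a ∨ c = b := by
  classical
  have hla := (H.covBy_iff.mp ha).2
  have hlb := (H.covBy_iff.mp hb).2
  have hlc := (H.covBy_iff.mp hc).2
  have h1 := (energy_one H (j := lev a) (H.lev_le a)).2.1 x hla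
  by_contra hcon
  push Not at hcon
  have h2 : ({a, b, c} : Finset P) ⊆ (lv P (lev a)).filter (fun v => x < v) := by
    intro z hz
    simp only [mem_insert, mem_singleton] at hz
    rw [mem_filter, mem_lv]
    rcases hz with h | h | h
    · subst h; exact ⟨rfl, ha.lt⟩
    · subst h; exact ⟨by omega, hb.lt⟩
    · subst h; exact ⟨by omega, hc.lt⟩
  have h3 := Finset.card_le_card h2
  rw [Finset.card_eq_three.mpr ⟨a, b, c, hab, hcon.1.symm, hcon.2.symm, rfl⟩] at h3
  unfold up at h1
  omega

lemma dn_eq_two_iff (H : Gr P r) {j : ℕ} {y : P} (hy : lev y + 1 = j) :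
    dn j y = 2 ↔ ∃ v v', v ≠ v' ∧ v ⋖ y ∧ v' ⋖ y := by
  classical
  constructor
  · intro h
    unfold dn at h
    rw [Finset.card_eq_two] at h
    obtain ⟨v, v', hne, h⟩ := h
    have hv : v ∈ (lv P j).filter (fun v => v < y) := by rw [h]; simp
    have hv' : v' ∈ (lv P j).filter (fun v => v < y) := by rw [h]; simp
    rw [mem_filter, mem_lv] at hv hv'
    exact ⟨v, v', hne, H.covBy_iff.mpr ⟨hv.2, by omega⟩, H.covBy_iff.mpr ⟨hv'.2, by omega⟩⟩
  · rintro ⟨v, v', hne, hv, hv'⟩
    have h1 := H.covBy_iff.mp hv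
    have h2 := H.covBy_iff.mp hv'
    unfold dn
    rw [Finset.card_eq_two]
    refine ⟨v, v', hne, ?_⟩
    ext z
    rw [mem_filter, mem_lv, mem_insert, mem_singleton]
    constructor
    · rintro ⟨h3, h4⟩
      exact two_low H hv hv' (H.covBy_iff.mpr ⟨h4, by omega⟩) hne
    · rintro (h | h)
      · subst h; exact ⟨by omega, h1.1⟩
      · subst h; exact ⟨by omega, h2.1⟩

lemma up_eq_two_iff (H : Gr P r) {j : ℕ} {w : P} (hw : lev w = j + 1) :
    up j w = 2 ↔ ∃ v v', v ≠ v' ∧ w ⋖ v ∧ w ⋖ v' := by
  classical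
  constructor
  · intro h
    unfold up at h
    rw [Finset.card_eq_two] at h
    obtain ⟨v, v', hne, h⟩ := h
    have hv : v ∈ (lv P j).filter (fun v => w < v) := by rw [h]; simp
    have hv' : v' ∈ (lv P j).filter (fun v => w < v) := by rw [h]; simp
    rw [mem_filter, mem_lv] at hv hv'
    exact ⟨v, v', hne, H.covBy_iff.mpr ⟨hv.2, by omega⟩, H.covBy_iff.mpr ⟨hv'.2, by omega⟩⟩
  · rintro ⟨v, v', hne, hv, hv'⟩
    have h1 := H.covBy_iff.mp hv
    have h2 := H.covBy_iff.mp hv'
    unfold up
    rw [Finset.card_eq_two]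
    refine ⟨v, v', hne, ?_⟩
    ext z
    rw [mem_filter, mem_lv, mem_insert, mem_singleton]
    constructor
    · rintro ⟨h3, h4⟩
      exact two_up H hv hv' (H.covBy_iff.mpr ⟨h4, by omega⟩) hne
    · rintro (h | h)
      · subst h; exact ⟨by omega, h1.1⟩
      · subst h; exact ⟨by omega, h2.1⟩

/-- number of elements covering two elements of level `j` equals number of elements covered by
two elements of level `j` -/
lemma count_eq (H : Gr P r) {j : ℕ} (hj : j ≤ r) :
    ((univ.filter (fun a : P => lev a + 1 = j)).filter (fun a => dn j a = 2)).card =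
      ((lv P (j + 1)).filter (fun a => up j a = 2)).card :=
  (energy_one H hj).2.2

end Ord

section Lat2

variable {P : Type u} [Fintype P] [Lattice P] [DecidableEq P] {r : ℕ}

lemma lev_eq_of_cov (H : Gr P r) {v v' w : P} (h : w ⋖ v) (h' : w ⋖ v') : lev v = lev v' := by
  have h1 := (H.covBy_iff.mp h).2
  have h2 := (H.covBy_iff.mp h').2
  omega

lemma eq_of_le_of_lev (_H : Gr P r) {v v' : P} (h : v ≤ v') (h2 : lev v ≤ lev v') : v = v' := by
  by_contra hne
  have := lev_strictAnti (lt_of_le_of_ne h hne)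
  omega

/-- the statement proved by induction on the level `k` -/
def PairLevel (P : Type u) [Fintype P] [Lattice P] (k : ℕ) : Prop :=
  ∀ v v' : P, lev v = k → lev v' = k → v ≠ v' →
    ((∃ w, w ⋖ v ∧ w ⋖ v') ↔ (∃ y, v ⋖ y ∧ v' ⋖ y))

lemma pair_up_step (H : Gr P r) {k : ℕ} (ih : ∀ j < k, PairLevel P j) {v v' w : P}
    (hv : lev v = k) (hne : v ≠ v') (hw : w ⋖ v) (hw' : w ⋖ v') :
    v ⋖ v ⊔ v' ∧ v' ⋖ v ⊔ v' := by
  have hv' : lev v' = k := by rw [← lev_eq_of_cov H hw hw', hv]
  have hlw := (H.covBy_iff.mp hw).2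
  have h1 : v < v ⊔ v' := by
    refine lt_of_le_of_ne le_sup_left ?_
    intro h
    have : v' ≤ v := by rw [h]; exact le_sup_right
    exact hne (eq_of_le_of_lev H this (by omega)).symm
  have h2 : v' < v ⊔ v' := by
    refine lt_of_le_of_ne le_sup_right ?_
    intro h
    have : v ≤ v' := by rw [h]; exact le_sup_left
    exact hne (eq_of_le_of_lev H this (by omega))
  have h3 := lev_strictAnti h1
  by_cases h4 : lev (v ⊔ v') + 1 = k
  · exact ⟨H.covBy_iff.mpr ⟨h1, by omega⟩, H.covBy_iff.mpr ⟨h2, by omega⟩⟩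
  · exfalso
    obtain ⟨c, hvc, hc⟩ := exists_le_covBy_of_lt h1
    obtain ⟨c', hvc', hc'⟩ := exists_le_covBy_of_lt h2
    have hcc : c ≠ c' := by
      rintro rfl
      exact lt_irrefl _ (hc.lt.trans_le (sup_le hvc hvc'))
    have hlc := (H.covBy_iff.mp hc).2
    have hlc' := (H.covBy_iff.mp hc').2
    obtain ⟨d, hd, hd'⟩ := (ih (lev (v ⊔ v') + 1) (by omega) c c' hlc hlc' hcc).mpr
      ⟨v ⊔ v', hc, hc'⟩
    have hld := (H.covBy_iff.mp hd).2
    have h5 : c ⊓ c' < c := by
      refine lt_of_le_of_ne inf_le_left ?_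
      intro h
      have : c ≤ c' := inf_eq_left.mp h
      exact hcc (eq_of_le_of_lev H this (by omega))
    have h6 : c ⊓ c' = d := by
      symm
      apply eq_of_le_of_lev H (le_inf hd.le hd'.le)
      have := lev_strictAnti h5
      omega
    have h7 : w ≤ d := by
      rw [← h6]
      exact le_inf (hw.le.trans hvc) (hw'.le.trans hvc')
    have h8 : w < d := by
      refine lt_of_le_of_ne h7 ?_
      rintro rfl
      omega
    obtain ⟨v1, hwv1, hv1d⟩ := exists_covBy_le_of_lt h8
    rcases two_up H hw hw' hwv1 hne with h | h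
    · subst h
      exact lt_irrefl _ (hc'.lt.trans_le (sup_le (hv1d.trans hd'.le) hvc'))
    · subst h
      exact lt_irrefl _ (hc.lt.trans_le (sup_le hvc (hv1d.trans hd.le)))

lemma pair_level_step (H : Gr P r) {k : ℕ} (ih : ∀ j < k, PairLevel P j) : PairLevel P k := by
  classical
  intro v v' hv hv' hne
  constructor
  · rintro ⟨w, hw, hw'⟩
    exact ⟨_, pair_up_step H ih hv hne hw hw'⟩
  · rintro ⟨y, hy, hy'⟩
    have hk : k ≤ r := by rw [← hv]; exact H.lev_le v
    have hly := (H.covBy_iff.mp hy).2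
    -- the injection
    have hex : ∀ w ∈ (lv P (k + 1)).filter (fun a => up k a = 2), ∃ y v v', v ≠ v' ∧ w ⋖ v ∧
        w ⋖ v' ∧ v ⋖ y ∧ v' ⋖ y := by
      intro w hw
      rw [mem_filter, mem_lv] at hw
      obtain ⟨v1, v2, hne12, h1, h2⟩ := (up_eq_two_iff H hw.1).mp hw.2
      have hl1 := (H.covBy_iff.mp h1).2
      have h3 := pair_up_step H ih (by omega) hne12 h1 h2
      exact ⟨v1 ⊔ v2, v1, v2, hne12, h1, h2, h3.1, h3.2⟩
    choose f hf using hex
    have hcount := count_eq H hk
    have hsurj := Finset.surj_on_of_inj_on_of_card_le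
      (s := (lv P (k + 1)).filter (fun a => up k a = 2))
      (t := (univ.filter (fun a : P => lev a + 1 = k)).filter (fun a => dn k a = 2)) f
      (by
        intro w hw
        obtain ⟨v1, v2, hne12, h1, h2, h3, h4⟩ := hf w hw
        rw [mem_filter, mem_lv] at hw
        have hl1 := (H.covBy_iff.mp h1).2
        have hl3 := (H.covBy_iff.mp h3).2
        rw [mem_filter, mem_filter]
        refine ⟨⟨mem_univ _, by omega⟩, ?_⟩
        exact (dn_eq_two_iff H (by omega)).mpr ⟨v1, v2, hne12, h3, h4⟩)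
      (by
        intro w1 w2 hw1 hw2 heq
        obtain ⟨v1, v2, hne12, h1, h2, h3, h4⟩ := hf w1 hw1
        obtain ⟨u1, u2, hneu, g1, g2, g3, g4⟩ := hf w2 hw2
        rw [← heq] at g3 g4
        have key : ∀ w, w ⋖ v1 → w ⋖ v2 → w = v1 ⊓ v2 := by
          intro w hwv1 hwv2
          apply eq_of_le_of_lev H (le_inf hwv1.le hwv2.le)
          have h5 : v1 ⊓ v2 < v1 := by
            refine lt_of_le_of_ne inf_le_left ?_
            intro h
            have h6 : v1 ≤ v2 := inf_eq_left.mp h
            have := lev_eq_of_cov H hwv1 hwv2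
            exact hne12 (eq_of_le_of_lev H h6 (by omega))
          have := lev_strictAnti h5
          have := (H.covBy_iff.mp hwv1).2
          omega
        have h5 : w2 ⋖ v1 ∧ w2 ⋖ v2 := by
          rcases two_low H h3 h4 g3 hne12 with e1 | e1 <;>
          rcases two_low H h3 h4 g4 hne12 with e2 | e2 <;> subst e1 <;> subst e2
          · exact absurd rfl hneu
          · exact ⟨g1, g2⟩
          · exact ⟨g2, g1⟩
          · exact absurd rfl hneu
        rw [key w1 h1 h2, key w2 h5.1 h5.2])
      hcount.le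
    obtain ⟨w, hw, hwy⟩ := hsurj y (by
      rw [mem_filter, mem_filter]
      refine ⟨⟨mem_univ _, by omega⟩, ?_⟩
      exact (dn_eq_two_iff H (by omega)).mpr ⟨v, v', hne, hy, hy'⟩)
    obtain ⟨v1, v2, hne12, h1, h2, h3, h4⟩ := hf w hw
    rw [← hwy] at h3 h4
    refine ⟨w, ?_⟩
    rcases two_low H h3 h4 hy hne12 with e1 | e1 <;>
    rcases two_low H h3 h4 hy' hne12 with e2 | e2 <;> subst e1 <;> subst e2
    · exact absurd rfl hne
    · exact ⟨h1, h2⟩
    · exact ⟨h2, h1⟩
    · exact absurd rfl hne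

lemma pair_level (H : Gr P r) : ∀ k, PairLevel P k := by
  intro k
  induction k using Nat.strong_induction_on with
  | _ k ih => exact pair_level_step H ih

theorem lattice_pairs (H : Gr P r) : PairUp P ∧ PairDown P ∧ TwoLow P := by
  refine ⟨?_, ?_, ?_⟩
  · intro v v' w hne hw hw'
    exact pair_up_step H (fun j _ => pair_level H j) rfl hne hw hw'
  · intro v v' y hne hy hy'
    have h1 := (H.covBy_iff.mp hy).2
    have h2 := (H.covBy_iff.mp hy').2
    obtain ⟨w, hw, hw'⟩ := (pair_level H (lev v) v v' rfl (by omega) hne).mpr ⟨y, hy, hy'⟩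
    have h5 : v ⊓ v' < v := by
      refine lt_of_le_of_ne inf_le_left ?_
      intro h
      have h6 : v ≤ v' := inf_eq_left.mp h
      exact hne (eq_of_le_of_lev H h6 (by omega))
    have h6 : w = v ⊓ v' := by
      apply eq_of_le_of_lev H (le_inf hw.le hw'.le)
      have := lev_strictAnti h5
      have := (H.covBy_iff.mp hw).2
      omega
    rw [← h6]
    exact ⟨hw, hw'⟩
  · intro x a b c ha hb hc hab
    exact two_low H ha hb hc hab

/-- a lattice which is Gaussian (with all maximal chains of the same length) is distributive -/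
theorem lattice_distrib (H : Gr P r) (x y z : P) : (x ⊔ y) ⊓ (x ⊔ z) ≤ x ⊔ y ⊓ z := by
  obtain ⟨hU, hD, hT⟩ := lattice_pairs H
  exact distrib_of_pairs H hU hD hT x y z

end Lat2

end Pool.Agent.GaussPoset
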