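import Pool.Agent.W_MP_448cb3_h96.LatticeA

namespace Pool.Agent.GaussPoset

set_option linter.unusedSectionVars false

open Finset

universe u

variable {P : Type u} [Fintype P] [PartialOrder P] [DecidableEq P]

lemma lev_add_colev_cov (hG : IsGaussian P) {x y : P} (h : x ⋖ y) :
    lev x + colev x = lev y + colev y := by
  have h1 := lev_covBy hG h
  have h2 := colev_covBy hG h
  omega

lemma lev_add_colev_le (hG : IsGaussian P) : ∀ (n : ℕ) {x y : P}, lev x ≤ n → x ≤ y →
    lev x + colev x = lev y + colev y := by
  intro n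
  induction n with
  | zero =>
    intro x y hn hxy
    have : x = y := by
      by_contra hne
      have := lev_strictAnti (lt_of_le_of_ne hxy hne)
      omega
    rw [this]
  | succ n ih =>
    intro x y hn hxy
    rcases eq_or_lt_of_le hxy with h | h
    · rw [h]
    · obtain ⟨c, hc, hcy⟩ := exists_covBy_le_of_lt h
      have h1 := lev_covBy hG hc
      rw [lev_add_colev_cov hG hc]
      exact ih (by omega) hcy

theorem distrib_of_glb_lub {r : ℕ} (H : Gr P r) (hJ : ∀ x y : P, ∃ z, IsLUB {x, y} z)
    (hM : ∀ x y : P, ∃ z, IsGLB {x, y} z) : IsDistribLatticeOrder P := by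
  classical
  let L : Lattice P :=
    { (inferInstance : PartialOrder P) with
      sup := fun x y => Classical.choose (hJ x y)
      inf := fun x y => Classical.choose (hM x y)
      le_sup_left := fun x y => (Classical.choose_spec (hJ x y)).1 (by simp)
      le_sup_right := fun x y => (Classical.choose_spec (hJ x y)).1 (by simp)
      sup_le := fun x y z hx hy => (Classical.choose_spec (hJ x y)).2 (by
        intro t ht
        simp only [Set.mem_insert_iff, Set.mem_singleton_iff] at ht
        rcases ht with rfl | rfl
        · exact hx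
        · exact hy)
      inf_le_left := fun x y => (Classical.choose_spec (hM x y)).1 (by simp)
      inf_le_right := fun x y => (Classical.choose_spec (hM x y)).1 (by simp)
      le_inf := fun x y z hx hy => (Classical.choose_spec (hM y z)).2 (by
        intro t ht
        simp only [Set.mem_insert_iff, Set.mem_singleton_iff] at ht
        rcases ht with rfl | rfl
        · exact hx
        · exact hy) }
  have h1 := @lattice_distrib P _ L _ r H
  exact ⟨{ L with le_sup_inf := h1 }, fun x y => Iff.rfl⟩

lemma lub_pair {x y z : P} (h : IsLUB {x, y} z) : x ≤ z ∧ y ≤ z ∧ ∀ w, x ≤ w → y ≤ w → z ≤ w := by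
  refine ⟨h.1 (by simp), h.1 (by simp), fun w hx hy => h.2 ?_⟩
  intro t ht
  simp only [Set.mem_insert_iff, Set.mem_singleton_iff] at ht
  rcases ht with rfl | rfl
  · exact hx
  · exact hy

theorem distrib_of_lub (hG : IsGaussian P) (hJ : ∀ x y : P, ∃ z, IsLUB {x, y} z) :
    IsDistribLatticeOrder P := by
  classical
  rcases isEmpty_or_nonempty P with hP | ⟨⟨x0⟩⟩
  · refine ⟨{ (inferInstance : PartialOrder P) with
      sup := fun x _ => x
      inf := fun x _ => x
      le_sup_left := fun x => hP.elim x
      le_sup_right := fun x => hP.elim x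
      sup_le := fun x => hP.elim x
      inf_le_left := fun x => hP.elim x
      inf_le_right := fun x => hP.elim x
      le_inf := fun x => hP.elim x
      le_sup_inf := fun x => hP.elim x }, fun x => hP.elim x⟩
  · -- graded
    have hconst : ∀ x y : P, lev x + colev x = lev y + colev y := by
      intro x y
      obtain ⟨z, hz⟩ := hJ x y
      obtain ⟨h1, h2, -⟩ := lub_pair hz
      rw [lev_add_colev_le hG (lev x) le_rfl h1, lev_add_colev_le hG (lev y) le_rfl h2]
    have H : Gr P (lev x0 + colev x0) := ⟨hG, fun x => hconst x x0⟩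
    -- unique element on level zero
    have h0 : ∀ x y : P, lev x = 0 → lev y = 0 → x = y := by
      intro x y hx hy
      obtain ⟨z, hz⟩ := hJ x y
      obtain ⟨h1, h2, -⟩ := lub_pair hz
      have e1 : x = z := by
        by_contra hne
        have := lev_strictAnti (lt_of_le_of_ne h1 hne)
        omega
      have e2 : y = z := by
        by_contra hne
        have := lev_strictAnti (lt_of_le_of_ne h2 hne)
        omega
      rw [e1, e2]
    have h1 : (lv P 0).card ≤ 1 := by
      rw [Finset.card_le_one]
      intro a ha b hb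
      exact h0 a b (mem_lv.mp ha) (mem_lv.mp hb)
    rw [← card_lv_zero hG 0, Finset.card_le_one] at h1
    obtain ⟨b0, hb0, hb0l⟩ := exists_above' (P := Pᵒᵈ) (x := OrderDual.toDual x0) (j := 0)
      (Nat.zero_le _)
    have hbot : ∀ x : P, OrderDual.ofDual b0 ≤ x := by
      intro x
      obtain ⟨b, hb, hbl⟩ := exists_above' (P := Pᵒᵈ) (x := OrderDual.toDual x) (j := 0)
        (Nat.zero_le _)
      have : b0 = b := h1 b0 (mem_lv.mpr hb0l) b (mem_lv.mpr hbl)
      rw [this]
      exact hb
    refine distrib_of_glb_lub H hJ ?_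
    intro x y
    obtain ⟨z, hz, hzmin⟩ := Finset.exists_min_image (univ.filter (fun z : P => z ≤ x ∧ z ≤ y)) lev
      ⟨OrderDual.ofDual b0, by simp [hbot]⟩
    simp only [mem_filter, mem_univ, true_and] at hz hzmin
    refine ⟨z, ?_, ?_⟩
    · intro t ht
      simp only [Set.mem_insert_iff, Set.mem_singleton_iff] at ht
      rcases ht with rfl | rfl
      · exact hz.1
      · exact hz.2
    · intro t ht
      have htx : t ≤ x := ht (by simp)
      have hty : t ≤ y := ht (by simp)
      obtain ⟨u, hu⟩ := hJ z t
      obtain ⟨h2, h3, h4⟩ := lub_pair hu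
      have h5 := hzmin u ⟨h4 x hz.1 htx, h4 y hz.2 hty⟩
      have : z = u := by
        by_contra hne
        have := lev_strictAnti (lt_of_le_of_ne h2 hne)
        omega
      rw [this]
      exact h3

theorem distrib_of_dual (h : IsDistribLatticeOrder Pᵒᵈ) : IsDistribLatticeOrder P := by
  obtain ⟨L, hL⟩ := h
  have h1 : ∀ x y : P, L.le (OrderDual.toDual y) (OrderDual.toDual x) ↔ x ≤ y := by
    intro x y
    rw [hL]
    exact OrderDual.toDual_le_toDual
  let L2 : DistribLattice P :=
    { (inferInstance : PartialOrder P) with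
      sup := fun x y => OrderDual.ofDual (L.inf (OrderDual.toDual x) (OrderDual.toDual y))
      inf := fun x y => OrderDual.ofDual (L.sup (OrderDual.toDual x) (OrderDual.toDual y))
      le_sup_left := fun x y => (h1 _ _).mp (L.inf_le_left _ _)
      le_sup_right := fun x y => (h1 _ _).mp (L.inf_le_right _ _)
      sup_le := fun x y z hx hy => (h1 _ _).mp (L.le_inf _ _ _ ((h1 _ _).mpr hx) ((h1 _ _).mpr hy))
      inf_le_left := fun x y => (h1 _ _).mp (L.le_sup_left _ _)
      inf_le_right := fun x y => (h1 _ _).mp (L.le_sup_right _ _)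
      le_inf := fun x y z hx hy => (h1 _ _).mp (L.sup_le _ _ _ ((h1 _ _).mpr hx) ((h1 _ _).mpr hy))
      le_sup_inf := fun x y z => by
        apply (h1 _ _).mp
        have h2 := @inf_sup_left _ L (OrderDual.toDual x) (OrderDual.toDual y)
          (OrderDual.toDual z)
        exact @le_of_eq _ L.toLattice.toPartialOrder.toPreorder _ _ h2 }
  exact ⟨L2, fun x y => Iff.rfl⟩

theorem gauss_lattice (hG : IsGaussian P)
    (h : (∀ x y : P, ∃ z, IsLUB {x, y} z) ∨ (∀ x y : P, ∃ z, IsGLB {x, y} z)) :
    IsDistribLatticeOrder P := by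
  rcases h with h | h
  · exact distrib_of_lub hG h
  · apply distrib_of_dual
    refine distrib_of_lub (gauss_dual hG) fun x y => ?_
    obtain ⟨z, hz⟩ := h (OrderDual.ofDual x) (OrderDual.ofDual y)
    have h1 : z ≤ OrderDual.ofDual x := hz.1 (Set.mem_insert _ _)
    have h2 : z ≤ OrderDual.ofDual y := hz.1 (Set.mem_insert_of_mem _ rfl)
    have h3 : ∀ w : P, w ≤ OrderDual.ofDual x → w ≤ OrderDual.ofDual y → w ≤ z := by
      intro w hwx hwy
      apply hz.2
      intro s hs
      rw [Set.mem_insert_iff, Set.mem_singleton_iff] at hs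
      rcases hs with hs | hs
      · rw [hs]; exact hwx
      · rw [hs]; exact hwy
    refine ⟨OrderDual.toDual z, ?_, ?_⟩
    · intro t ht
      rw [Set.mem_insert_iff, Set.mem_singleton_iff] at ht
      rcases ht with ht | ht
      · rw [ht]; exact h1
      · rw [ht]; exact h2
    · intro t ht
      exact h3 (OrderDual.ofDual t) (ht (Set.mem_insert _ _))
        (ht (Set.mem_insert_of_mem _ rfl))

end Pool.Agent.GaussPoset
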