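import Pool.Agent.W_MP_448cb3_h96.Energy3b

namespace Pool.Agent.GaussPoset

set_option linter.unusedSectionVars false

open Polynomial Finset

universe u

variable {P : Type u} [Fintype P] [PartialOrder P] [DecidableEq P] {r j : ℕ}

open Classical in
/-- common neighbours of two sites -/
noncomputable def nbs (a b : P) : Finset P := univ.filter (fun g => adjS g a ∧ adjS g b)

/-- signed number of common neighbours -/
noncomputable def Sg (j : ℕ) (a b : P) : ℤ := ∑ g ∈ nbs a b, sg j g

lemma mem_nbs {a b g : P} : g ∈ nbs a b ↔ adjS g a ∧ adjS g b := by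
  classical
  unfold nbs; simp

lemma Sg_eq (H : Gr P r) {a b : P} (ha : lev a = j) (hb : lev b = j) :
    Sg j a b = (ucv a b : ℤ) - dcv a b := by
  classical
  have h1 : nbs a b = (univ.filter (fun y : P => a ⋖ y ∧ b ⋖ y)) ∪
      (univ.filter (fun y : P => y ⋖ a ∧ y ⋖ b)) := by
    ext g
    rw [mem_nbs, mem_union, mem_filter, mem_filter]
    constructor
    · rintro ⟨h1, h2⟩
      rcases adj_lev H h1 ha with h1 | h1 <;> rcases adj_lev H h2 hb with h2 | h2
      · exact Or.inr ⟨mem_univ _, h1.2, h2.2⟩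
      · omega
      · omega
      · exact Or.inl ⟨mem_univ _, h1.2, h2.2⟩
    · rintro (⟨-, h1, h2⟩ | ⟨-, h1, h2⟩)
      · exact ⟨Or.inr h1, Or.inr h2⟩
      · exact ⟨Or.inl h1, Or.inl h2⟩
  have hdis : Disjoint (univ.filter (fun y : P => a ⋖ y ∧ b ⋖ y))
      (univ.filter (fun y : P => y ⋖ a ∧ y ⋖ b)) := by
    rw [Finset.disjoint_left]
    intro x hx hx2
    rw [mem_filter] at hx hx2
    have h3 := (H.covBy_iff.mp hx.2.1).2
    have h4 := (H.covBy_iff.mp hx2.2.1).2
    omega
  unfold Sg
  rw [h1, Finset.sum_union hdis]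
  have e1 : ∑ g ∈ univ.filter (fun y : P => a ⋖ y ∧ b ⋖ y), sg j g = (ucv a b : ℤ) := by
    rw [Finset.sum_congr rfl (g := fun _ => (1 : ℤ))]
    · unfold ucv; simp
    · intro x hx
      rw [mem_filter] at hx
      have h3 := (H.covBy_iff.mp hx.2.1).2
      unfold sg
      rw [if_neg (by omega)]
  have e2 : ∑ g ∈ univ.filter (fun y : P => y ⋖ a ∧ y ⋖ b), sg j g = -(dcv a b : ℤ) := by
    rw [Finset.sum_congr rfl (g := fun _ => (-1 : ℤ))]
    · unfold dcv; simp
    · intro x hx
      rw [mem_filter] at hx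
      have h3 := (H.covBy_iff.mp hx.2.1).2
      unfold sg
      rw [if_pos (by omega)]
  rw [e1, e2]
  ring

/-- derivative at `-1` -/
noncomputable def dev (f : ℤ[X]) : ℤ := (derivative f).eval (-1)

lemma dev_add (f g : ℤ[X]) : dev (f + g) = dev f + dev g := by
  unfold dev; simp

lemma dev_zero : dev (0 : ℤ[X]) = 0 := by
  unfold dev; simp

lemma dev_sum {ι : Type*} (s : Finset ι) (f : ι → ℤ[X]) :
    dev (∑ i ∈ s, f i) = ∑ i ∈ s, dev (f i) := by
  classical
  induction s using Finset.induction_on with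
  | empty => simp [dev_zero]
  | insert a s ha ih => rw [Finset.sum_insert ha, Finset.sum_insert ha, dev_add, ih]

lemma dev_term (n k : ℕ) (hk : k ≠ 0) :
    dev ((X : ℤ[X]) ^ n * (1 + X) ^ k) = if k = 1 then (-1) ^ n else 0 := by
  unfold dev
  obtain ⟨k, rfl⟩ := Nat.exists_eq_succ_of_ne_zero hk
  rw [derivative_mul, eval_add, eval_mul, eval_mul, derivative_pow (1 + X : ℤ[X])]
  simp only [eval_pow, eval_add, eval_one, eval_X, eval_mul, derivative_add, derivative_one,
    derivative_X, zero_add, Nat.succ_eq_add_one, Nat.add_sub_cancel, mul_one, map_natCast]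
  rcases k with _ | k
  · simp
  · simp

lemma dev_dvd {k : ℕ} (hk : 2 ≤ k) {f : ℤ[X]} (h : (1 + X : ℤ[X]) ^ k ∣ f) : dev f = 0 := by
  obtain ⟨g, rfl⟩ := h
  unfold dev
  obtain ⟨k, rfl⟩ := Nat.exists_eq_add_of_le hk
  rw [derivative_mul, eval_add, eval_mul, eval_mul, derivative_pow (1 + X : ℤ[X])]
  simp [show 2 + k - 1 = k + 1 by omega]

open Classical in
/-- the energy three configurations with one peak -/
noncomputable def EE (P : Type u) [Fintype P] [PartialOrder P] [DecidableEq P] (j : ℕ) :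
    Finset (P → ℕ) :=
  ((univ : Finset P).piAntidiag 3).filter (fun e => Adm j e ∧ (Pk j e).card = 1)

lemma sum_EE (H : Gr P r) (h3 : (lv P j).card = 3) : ∑ e ∈ EE P j, (-1 : ℤ) ^ (nf j e) = 0 := by
  classical
  have h1 : dev (Z P j 3) = 0 := by
    apply dev_dvd (k := 3) (by norm_num)
    have h := dvd_Z H.gauss j 3
    rw [h3] at h
    exact h
  unfold Z at h1
  rw [dev_sum] at h1
  unfold EE
  rw [Finset.sum_filter]
  refine Eq.trans (Finset.sum_congr rfl fun e he => ?_) h1
  rw [mem_piAntidiag] at he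
  by_cases hA : Adm j e
  · rw [if_pos hA]
    have hpk : (Pk j e).card ≠ 0 := by
      intro h0
      obtain ⟨v0, v1, v2, g, g', l0, l1, l2, n01, n02, n12, a1, a2, a3, a4, he2⟩ :=
        classify H hA he.1 h3 (by omega)
      obtain ⟨a, b, c, hab, hac, hbc, habc⟩ := Finset.card_eq_three.mp h3
      have S : Star j v0 v1 v2 g g' := ⟨l0, l1, l2, n01, n02, n12, by
        intro s hs
        have h4 : ({v0, v1, v2} : Finset P) = lv P j := by
          apply Finset.eq_of_subset_of_card_le
          · intro x hx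
            simp only [mem_insert, mem_singleton] at hx
            rw [mem_lv]
            rcases hx with rfl | rfl | rfl <;> assumption
          · rw [h3, Finset.card_eq_three.mpr ⟨v0, v1, v2, n01, n02, n12, rfl⟩]
        rw [← mem_lv, ← h4] at hs
        simpa using hs, a1, a2, a3, a4⟩
      have := S.pk H
      rw [← he2] at this
      rw [this, Finset.card_singleton] at h0
      omega
    rw [dev_term _ _ hpk]
    by_cases h2 : (Pk j e).card = 1
    · rw [if_pos h2, if_pos ⟨hA, h2⟩]
    · rw [if_neg h2, if_neg (fun h => h2 h.2)]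
  · rw [if_neg hA, if_neg (fun h => hA h.1), dev_zero]

lemma sum_e3 (H : Gr P r) {a b c g g' : P} (S : Star j a b c g g') :
    ∑ x, e3 a g g' x = 3 := by
  classical
  unfold e3
  rw [Finset.sum_boole]
  have h1 : (univ.filter (fun x => x = a ∨ x = g ∨ x = g')) = {a, g, g'} := by
    ext x; simp
  have h2 : a ≠ g' := by
    rintro rfl
    exact adj_ne H S.g3 S.la S.la
  rw [h1, Finset.card_eq_three.mpr ⟨a, g, g', S.off H, h2, S.ne H, rfl⟩]
  rfl

/-- the hypotheses on three sites -/
structure Tri (j : ℕ) (a b c : P) : Prop where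
  la : lev a = j
  lb : lev b = j
  lc : lev c = j
  hab : a ≠ b
  hac : a ≠ c
  hbc : b ≠ c
  hall : ∀ s : P, lev s = j → s = a ∨ s = b ∨ s = c

lemma Tri.star {a b c g g' : P} (T : Tri j a b c) (h1 : g ∈ nbs a b) (h2 : g' ∈ nbs a c) :
    Star j a b c g g' := by
  rw [mem_nbs] at h1 h2
  exact ⟨T.la, T.lb, T.lc, T.hab, T.hac, T.hbc, T.hall, h1.1, h1.2, h2.1, h2.2⟩

lemma Tri.card {a b c : P} (T : Tri j a b c) : (lv P j).card = 3 := by
  classical
  rw [Finset.card_eq_three]
  refine ⟨a, b, c, T.hab, T.hac, T.hbc, ?_⟩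
  ext x
  rw [mem_lv, mem_insert, mem_insert, mem_singleton]
  constructor
  · exact T.hall x
  · rintro (rfl | rfl | rfl)
    · exact T.la
    · exact T.lb
    · exact T.lc

lemma sum_center (H : Gr P r) {a b c : P} (T : Tri j a b c) :
    ∑ e ∈ (EE P j).filter (fun e => e a = 1), (-1 : ℤ) ^ (nf j e) =
      (-1) ^ (below P j) * (Sg j a b * Sg j a c) := by
  classical
  symm
  unfold Sg
  rw [Finset.sum_mul_sum, ← Finset.sum_product', Finset.mul_sum]
  refine Finset.sum_bij (fun p _ => e3 a p.1 p.2) ?_ ?_ ?_ ?_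
  · rintro ⟨g, g'⟩ hp
    rw [mem_product] at hp
    have S := T.star hp.1 hp.2
    rw [mem_filter]
    unfold EE
    rw [mem_filter, mem_piAntidiag]
    refine ⟨⟨⟨sum_e3 H S, fun _ _ => mem_univ _⟩, S.adm H, ?_⟩, e3_eq_one (Or.inl rfl)⟩
    rw [S.pk H, Finset.card_singleton]
  · rintro ⟨g, g'⟩ hp ⟨h, h'⟩ hq heq
    rw [mem_product] at hp hq
    have S := T.star hp.1 hp.2
    have S' := T.star hq.1 hq.2
    have heq' : e3 a g g' = e3 a h h' := heq
    have h1 : g = a ∨ g = h ∨ g = h' := by
      apply e3_pos (a := a) (g := h) (g' := h')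
      rw [← heq', e3_eq_one (Or.inr (Or.inl rfl))]
    have h2 : g' = a ∨ g' = h ∨ g' = h' := by
      apply e3_pos (a := a) (g := h) (g' := h')
      rw [← heq', e3_eq_one (Or.inr (Or.inr rfl))]
    have h3 : g = h := by
      rcases h1 with h1 | h1 | h1
      · exact absurd h1.symm (S.off H)
      · exact h1
      · exfalso
        have S'' := T.star hp.1 hq.2
        exact S''.ne H h1
    have h4 : g' = h' := by
      rcases h2 with h2 | h2 | h2
      · exfalso
        subst h2
        exact adj_ne H S.g3 S.la S.la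
      · exfalso
        have S'' := T.star hq.1 hp.2
        exact S''.ne H h2.symm
      · exact h2
    rw [h3, h4]
  · intro e he
    rw [mem_filter] at he
    obtain ⟨he1, he2⟩ := he
    unfold EE at he1
    rw [mem_filter, mem_piAntidiag] at he1
    obtain ⟨⟨hs, -⟩, hA, hpk⟩ := he1
    obtain ⟨v0, v1, v2, g, g', l0, l1, l2, n01, n02, n12, a1, a2, a3, a4, hee⟩ :=
      classify H hA hs T.card (by omega)
    have hv0 : a = v0 := by
      have h1 : a = v0 ∨ a = g ∨ a = g' := by
        apply e3_pos (a := v0) (g := g) (g' := g')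
        rw [← hee, he2]
      rcases h1 with h1 | h1 | h1
      · exact h1
      · subst h1; exact absurd T.la (adj_ne H a1 l0)
      · subst h1; exact absurd T.la (adj_ne H a3 l0)
    subst hv0
    rcases T.hall v1 l1 with h1 | h1 | h1
    · exact absurd h1.symm n01
    · rcases T.hall v2 l2 with h2 | h2 | h2
      · exact absurd h2.symm n02
      · exact absurd (h1.trans h2.symm) n12
      · subst h1; subst h2
        exact ⟨(g, g'), mem_product.mpr ⟨mem_nbs.mpr ⟨a1, a2⟩, mem_nbs.mpr ⟨a3, a4⟩⟩, hee.symm⟩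
    · rcases T.hall v2 l2 with h2 | h2 | h2
      · exact absurd h2.symm n02
      · subst h1; subst h2
        refine ⟨(g', g), mem_product.mpr ⟨mem_nbs.mpr ⟨a3, a4⟩, mem_nbs.mpr ⟨a1, a2⟩⟩, ?_⟩
        change e3 a g' g = e
        rw [e3_swap, hee]
      · exact absurd (h1.trans h2.symm) n12
  · rintro ⟨g, g'⟩ hp
    rw [mem_product] at hp
    have S := T.star hp.1 hp.2
    exact (S.nf_sign H).symm

lemma Tri.perm1 {a b c : P} (T : Tri j a b c) : Tri j b a c :=
  ⟨T.lb, T.la, T.lc, T.hab.symm, T.hbc, T.hac, fun s hs => by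
    rcases T.hall s hs with h | h | h
    · exact Or.inr (Or.inl h)
    · exact Or.inl h
    · exact Or.inr (Or.inr h)⟩

lemma Tri.perm2 {a b c : P} (T : Tri j a b c) : Tri j c a b :=
  ⟨T.lc, T.la, T.lb, T.hac.symm, T.hbc.symm, T.hab, fun s hs => by
    rcases T.hall s hs with h | h | h
    · exact Or.inr (Or.inl h)
    · exact Or.inr (Or.inr h)
    · exact Or.inl h⟩

lemma Sg_comm (a b : P) : Sg j a b = Sg j b a := by
  classical
  unfold Sg
  have : nbs a b = nbs b a := by
    ext g
    rw [mem_nbs, mem_nbs]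
    tauto
  rw [this]

lemma quad (H : Gr P r) {a b c : P} (T : Tri j a b c) :
    Sg j a b * Sg j a c + Sg j a b * Sg j b c + Sg j a c * Sg j b c = 0 := by
  classical
  have h0 := sum_EE H T.card
  have h1 := sum_center H T
  have h2 := sum_center H T.perm1
  have h3 := sum_center H T.perm2
  have hsplit : ∑ e ∈ EE P j, (-1 : ℤ) ^ (nf j e) =
      ∑ e ∈ (EE P j).filter (fun e => e a = 1), (-1 : ℤ) ^ (nf j e) +
      ∑ e ∈ (EE P j).filter (fun e => e b = 1), (-1 : ℤ) ^ (nf j e) +
      ∑ e ∈ (EE P j).filter (fun e => e c = 1), (-1 : ℤ) ^ (nf j e) := by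
    rw [Finset.sum_filter, Finset.sum_filter, Finset.sum_filter, ← Finset.sum_add_distrib,
      ← Finset.sum_add_distrib]
    refine Finset.sum_congr rfl fun e he => ?_
    unfold EE at he
    rw [mem_filter, mem_piAntidiag] at he
    obtain ⟨⟨hs, -⟩, hA, hpk⟩ := he
    obtain ⟨v0, v1, v2, g, g', l0, l1, l2, n01, n02, n12, a1, a2, a3, a4, hee⟩ :=
      classify H hA hs T.card (by omega)
    have key : ∀ s : P, lev s = j → (e s = 1 ↔ s = v0) := by
      intro s hls
      constructor
      · intro h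
        have h1 : s = v0 ∨ s = g ∨ s = g' := by
          apply e3_pos (a := v0) (g := g) (g' := g')
          rw [← hee, h]
        rcases h1 with h1 | h1 | h1
        · exact h1
        · subst h1; exact absurd hls (adj_ne H a1 l0)
        · subst h1; exact absurd hls (adj_ne H a3 l0)
      · rintro rfl
        rw [hee]; exact e3_eq_one (Or.inl rfl)
    rw [if_congr (key a T.la) rfl rfl, if_congr (key b T.lb) rfl rfl,
      if_congr (key c T.lc) rfl rfl]
    rcases T.hall v0 l0 with h | h | h
    · subst h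
      rw [if_pos rfl, if_neg T.hab.symm, if_neg T.hac.symm]; ring
    · subst h
      rw [if_neg T.hab, if_pos rfl, if_neg T.hbc.symm]; ring
    · subst h
      rw [if_neg T.hac, if_neg T.hbc, if_pos rfl]; ring
  rw [hsplit, h1, h2, h3, Sg_comm b a, Sg_comm c a, Sg_comm c b, ← mul_add, ← mul_add] at h0
  have hne : ((-1 : ℤ) ^ (below P j)) ≠ 0 := pow_ne_zero _ (by norm_num)
  exact (mul_eq_zero.mp h0).resolve_left hne

/-- at the window `j`, double covers from above and from below are equinumerous -/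
lemma sum_ucv_three (H : Gr P r) {a b c : P} (T : Tri j a b c) :
    ((univ.filter (fun y : P => lev y + 1 = j)).filter (fun y => dn j y = 2)).card =
      ucv a b + ucv a c + ucv b c := by
  classical
  unfold ucv
  have h1 : (univ.filter (fun y : P => lev y + 1 = j)).filter (fun y => dn j y = 2) =
      (univ.filter (fun y : P => a ⋖ y ∧ b ⋖ y) ∪ univ.filter (fun y : P => a ⋖ y ∧ c ⋖ y)) ∪
        univ.filter (fun y : P => b ⋖ y ∧ c ⋖ y) := by
    ext y
    rw [mem_filter, mem_filter, mem_union, mem_union, mem_filter, mem_filter, mem_filter]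
    constructor
    · rintro ⟨⟨-, h1⟩, h2⟩
      rw [dn_eq_two_iff H h1] at h2
      obtain ⟨v, v', hne, hv, hv'⟩ := h2
      have l1 := (H.covBy_iff.mp hv).2
      have l2 := (H.covBy_iff.mp hv').2
      rcases T.hall v (by omega) with h | h | h <;>
        rcases T.hall v' (by omega) with h' | h' | h' <;> subst h <;> subst h' <;>
        simp_all
    · intro h
      have h2 : ∃ v v', v ≠ v' ∧ v ⋖ y ∧ v' ⋖ y ∧ lev v = j := by
        rcases h with (⟨-, h, h'⟩ | ⟨-, h, h'⟩) | ⟨-, h, h'⟩
        · exact ⟨a, b, T.hab, h, h', T.la⟩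
        · exact ⟨a, c, T.hac, h, h', T.la⟩
        · exact ⟨b, c, T.hbc, h, h', T.lb⟩
      obtain ⟨v, v', hne, hv, hv', hl⟩ := h2
      have l1 := (H.covBy_iff.mp hv).2
      refine ⟨⟨mem_univ _, by omega⟩, ?_⟩
      rw [dn_eq_two_iff H (by omega)]
      exact ⟨v, v', hne, hv, hv'⟩
  rw [h1, Finset.card_union_of_disjoint, Finset.card_union_of_disjoint]
  · rw [Finset.disjoint_left]
    intro y hy hy'
    rw [mem_filter] at hy hy'
    rcases two_low H hy.2.1 hy.2.2 hy'.2.2 T.hab with h | h
    · exact T.hac h.symm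
    · exact T.hbc h.symm
  · rw [Finset.disjoint_left]
    intro y hy hy'
    rw [mem_union, mem_filter, mem_filter] at hy
    rw [mem_filter] at hy'
    rcases hy with hy | hy
    · rcases two_low H hy.2.1 hy.2.2 hy'.2.2 T.hab with h | h
      · exact T.hac h.symm
      · exact T.hbc h.symm
    · rcases two_low H hy.2.1 hy.2.2 hy'.2.1 T.hac with h | h
      · exact T.hab h.symm
      · exact T.hbc h

lemma sum_dcv_three (H : Gr P r) {a b c : P} (T : Tri j a b c) :
    ((lv P (j + 1)).filter (fun y => up j y = 2)).card = dcv a b + dcv a c + dcv b c := by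
  classical
  unfold dcv
  have h1 : (lv P (j + 1)).filter (fun y => up j y = 2) =
      (univ.filter (fun y : P => y ⋖ a ∧ y ⋖ b) ∪ univ.filter (fun y : P => y ⋖ a ∧ y ⋖ c)) ∪
        univ.filter (fun y : P => y ⋖ b ∧ y ⋖ c) := by
    ext y
    rw [mem_filter, mem_lv, mem_union, mem_union, mem_filter, mem_filter, mem_filter]
    constructor
    · rintro ⟨h1, h2⟩
      rw [up_eq_two_iff H h1] at h2
      obtain ⟨v, v', hne, hv, hv'⟩ := h2
      have l1 := (H.covBy_iff.mp hv).2
      have l2 := (H.covBy_iff.mp hv').2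
      rcases T.hall v (by omega) with h | h | h <;>
        rcases T.hall v' (by omega) with h' | h' | h' <;> subst h <;> subst h' <;>
        simp_all
    · intro h
      have h2 : ∃ v v', v ≠ v' ∧ y ⋖ v ∧ y ⋖ v' ∧ lev v = j := by
        rcases h with (⟨-, h, h'⟩ | ⟨-, h, h'⟩) | ⟨-, h, h'⟩
        · exact ⟨a, b, T.hab, h, h', T.la⟩
        · exact ⟨a, c, T.hac, h, h', T.la⟩
        · exact ⟨b, c, T.hbc, h, h', T.lb⟩
      obtain ⟨v, v', hne, hv, hv', hl⟩ := h2
      have l1 := (H.covBy_iff.mp hv).2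
      refine ⟨by omega, ?_⟩
      rw [up_eq_two_iff H (by omega)]
      exact ⟨v, v', hne, hv, hv'⟩
  rw [h1, Finset.card_union_of_disjoint, Finset.card_union_of_disjoint]
  · rw [Finset.disjoint_left]
    intro y hy hy'
    rw [mem_filter] at hy hy'
    rcases two_up H hy.2.1 hy.2.2 hy'.2.2 T.hab with h | h
    · exact T.hac h.symm
    · exact T.hbc h.symm
  · rw [Finset.disjoint_left]
    intro y hy hy'
    rw [mem_union, mem_filter, mem_filter] at hy
    rw [mem_filter] at hy'
    rcases hy with hy | hy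
    · rcases two_up H hy.2.1 hy.2.2 hy'.2.2 T.hab with h | h
      · exact T.hac h.symm
      · exact T.hbc h.symm
    · rcases two_up H hy.2.1 hy.2.2 hy'.2.1 T.hac with h | h
      · exact T.hab h.symm
      · exact T.hbc h

lemma tri_mod (H : Gr P r) {a b c : P} (T : Tri j a b c) (hj : j ≤ r) :
    ucv a b = dcv a b ∧ ucv a c = dcv a c ∧ ucv b c = dcv b c := by
  have h1 := count_eq H hj
  rw [sum_ucv_three H T, sum_dcv_three H T] at h1
  have h2 := quad H T
  rw [Sg_eq H T.la T.lb, Sg_eq H T.la T.lc, Sg_eq H T.lb T.lc] at h2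
  set x : ℤ := (ucv a b : ℤ) - dcv a b with hx
  set y : ℤ := (ucv a c : ℤ) - dcv a c with hy
  set z : ℤ := (ucv b c : ℤ) - dcv b c with hz
  have h3 : x + y + z = 0 := by omega
  have h4 : x * x + y * y + z * z = 0 := by
    have : (x + y + z) * (x + y + z) = 0 := by rw [h3]; ring
    nlinarith
  have hx0 : x = 0 := by nlinarith [mul_self_nonneg x, mul_self_nonneg y, mul_self_nonneg z]
  have hy0 : y = 0 := by nlinarith [mul_self_nonneg x, mul_self_nonneg y, mul_self_nonneg z]
  have hz0 : z = 0 := by nlinarith [mul_self_nonneg x, mul_self_nonneg y, mul_self_nonneg z]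
  omega

/-- two sites only -/
lemma two_mod (H : Gr P r) {a b : P} (ha : lev a = j) (hb : lev b = j) (hab : a ≠ b)
    (hall : ∀ s : P, lev s = j → s = a ∨ s = b) (hj : j ≤ r) : ucv a b = dcv a b := by
  classical
  have h1 := count_eq H hj
  have e1 : (univ.filter (fun y : P => lev y + 1 = j)).filter (fun y => dn j y = 2) =
      univ.filter (fun y : P => a ⋖ y ∧ b ⋖ y) := by
    ext y
    rw [mem_filter, mem_filter, mem_filter]
    constructor
    · rintro ⟨⟨-, h1⟩, h2⟩
      rw [dn_eq_two_iff H h1] at h2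
      obtain ⟨v, v', hne, hv, hv'⟩ := h2
      have l1 := (H.covBy_iff.mp hv).2
      have l2 := (H.covBy_iff.mp hv').2
      rcases hall v (by omega) with h | h <;> rcases hall v' (by omega) with h' | h' <;>
        subst h <;> subst h' <;> simp_all
    · rintro ⟨-, h, h'⟩
      have l1 := (H.covBy_iff.mp h).2
      refine ⟨⟨mem_univ _, by omega⟩, ?_⟩
      rw [dn_eq_two_iff H (by omega)]
      exact ⟨a, b, hab, h, h'⟩
  have e2 : (lv P (j + 1)).filter (fun y => up j y = 2) =
      univ.filter (fun y : P => y ⋖ a ∧ y ⋖ b) := by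
    ext y
    rw [mem_filter, mem_lv, mem_filter]
    constructor
    · rintro ⟨h1, h2⟩
      rw [up_eq_two_iff H h1] at h2
      obtain ⟨v, v', hne, hv, hv'⟩ := h2
      have l1 := (H.covBy_iff.mp hv).2
      have l2 := (H.covBy_iff.mp hv').2
      rcases hall v (by omega) with h | h <;> rcases hall v' (by omega) with h' | h' <;>
        subst h <;> subst h' <;> simp_all
    · rintro ⟨-, h, h'⟩
      have l1 := (H.covBy_iff.mp h).2
      refine ⟨by omega, ?_⟩
      rw [up_eq_two_iff H (by omega)]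
      exact ⟨a, b, hab, h, h'⟩
  rw [e1, e2] at h1
  exact h1

lemma ucv_zero_of_lev (H : Gr P r) {v v' : P} (h : lev v ≠ lev v') : ucv v v' = dcv v v' := by
  classical
  unfold ucv dcv
  have e1 : univ.filter (fun y : P => v ⋖ y ∧ v' ⋖ y) = ∅ := by
    rw [Finset.filter_eq_empty_iff]
    rintro y _ ⟨h1, h2⟩
    have := (H.covBy_iff.mp h1).2
    have := (H.covBy_iff.mp h2).2
    omega
  have e2 : univ.filter (fun y : P => y ⋖ v ∧ y ⋖ v') = ∅ := by
    rw [Finset.filter_eq_empty_iff]
    rintro y _ ⟨h1, h2⟩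
    have := (H.covBy_iff.mp h1).2
    have := (H.covBy_iff.mp h2).2
    omega
  rw [e1, e2]

theorem modl_of_three (H : Gr P r) (h3 : ∀ j, (lv P j).card ≤ 3) : Modl P := by
  classical
  intro v v' hne
  by_cases hl : lev v = lev v'
  · have hj : lev v ≤ r := H.lev_le v
    by_cases hall : ∀ s : P, lev s = lev v → s = v ∨ s = v'
    · exact two_mod H rfl hl.symm hne hall hj
    · push Not at hall
      obtain ⟨c, hc, hcv, hcv'⟩ := hall
      have T : Tri (lev v) v v' c := by
        refine ⟨rfl, hl.symm, hc, hne, hcv.symm, hcv'.symm, fun s hs => ?_⟩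
        have h4 : ({v, v', c} : Finset P) = lv P (lev v) := by
          apply Finset.eq_of_subset_of_card_le
          · intro x hx
            simp only [mem_insert, mem_singleton] at hx
            rw [mem_lv]
            rcases hx with rfl | rfl | rfl
            · rfl
            · exact hl.symm
            · exact hc
          · rw [Finset.card_eq_three.mpr ⟨v, v', c, hne, hcv.symm, hcv'.symm, rfl⟩]
            exact h3 _
        rw [← mem_lv, ← h4] at hs
        simpa using hs
      exact (tri_mod H T hj).1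
  · exact ucv_zero_of_lev H hl

theorem gauss_levels_three (hG : IsGaussian P) (hc : (SimpleGraph.hasse P).Connected)
    (h3 : ∀ j, (lv P j).card ≤ 3) : IsDistribLatticeOrder P := by
  obtain ⟨r, H⟩ := gr_of_connected hG hc
  exact distrib_of_modl hG hc (modl_of_three H h3)

end Pool.Agent.GaussPoset
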