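import Pool.Agent.W_MP_448cb3_h96.Struct

namespace Pool.Agent.GaussPoset

set_option linter.unusedSectionVars false

open Finset

universe u

variable {P : Type u} [Fintype P] [PartialOrder P] [DecidableEq P] {r : ℕ}

open Classical in
/-- number of common upper covers -/
noncomputable def ucv (v v' : P) : ℕ := (univ.filter (fun y : P => v ⋖ y ∧ v' ⋖ y)).card

open Classical in
/-- number of common lower covers -/
noncomputable def dcv (v v' : P) : ℕ := (univ.filter (fun y : P => y ⋖ v ∧ y ⋖ v')).card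

/-- modularity -/
def Modl (P : Type u) [Fintype P] [PartialOrder P] : Prop :=
  ∀ v v' : P, v ≠ v' → ucv v v' = dcv v v'

lemma two_le_ucv {v v' : P} (h : 2 ≤ ucv v v') : ∃ y y', y ≠ y' ∧ v ⋖ y ∧ v' ⋖ y ∧ v ⋖ y' ∧ v' ⋖ y' := by
  classical
  unfold ucv at h
  obtain ⟨y, hy, y', hy', hne⟩ := Finset.one_lt_card.mp h
  simp only [mem_filter, mem_univ, true_and] at hy hy'
  exact ⟨y, y', hne, hy.1, hy.2, hy'.1, hy'.2⟩

lemma ucv_le_one (H : Gr P r) (hM : Modl P) : ∀ (k : ℕ) (v v' : P), lev v = k → v ≠ v' →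
    ucv v v' ≤ 1 := by
  classical
  intro k
  induction k with
  | zero =>
    intro v v' hv hne
    by_contra hcon
    obtain ⟨y, y', -, h1, -, -, -⟩ := two_le_ucv (by omega : 2 ≤ ucv v v')
    have := (H.covBy_iff.mp h1).2
    omega
  | succ k ih =>
    intro v v' hv hne
    by_contra hcon
    obtain ⟨y, y', hyy, h1, h2, h3, h4⟩ := two_le_ucv (by omega : 2 ≤ ucv v v')
    have hl := (H.covBy_iff.mp h1).2
    have h5 := ih y y' (by omega) hyy
    rw [hM y y' hyy] at h5
    unfold dcv at h5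
    have h6 : ({v, v'} : Finset P) ⊆ univ.filter (fun w : P => w ⋖ y ∧ w ⋖ y') := by
      intro z hz
      simp only [mem_insert, mem_singleton] at hz
      simp only [mem_filter, mem_univ, true_and]
      rcases hz with rfl | rfl
      · exact ⟨h1, h3⟩
      · exact ⟨h2, h4⟩
    have h7 := Finset.card_le_card h6
    rw [Finset.card_pair hne] at h7
    omega

lemma cU (hM : Modl P) {v v' w : P} (hne : v ≠ v') (h1 : w ⋖ v) (h2 : w ⋖ v') :
    ∃ y, v ⋖ y ∧ v' ⋖ y := by
  classical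
  have h3 : 0 < dcv v v' := by
    unfold dcv
    rw [Finset.card_pos]
    exact ⟨w, by simp [h1, h2]⟩
  rw [← hM v v' hne] at h3
  unfold ucv at h3
  rw [Finset.card_pos] at h3
  obtain ⟨y, hy⟩ := h3
  simp only [mem_filter, mem_univ, true_and] at hy
  exact ⟨y, hy⟩

lemma cD (hM : Modl P) {v v' y : P} (hne : v ≠ v') (h1 : v ⋖ y) (h2 : v' ⋖ y) :
    ∃ w, w ⋖ v ∧ w ⋖ v' := by
  classical
  have h3 : 0 < ucv v v' := by
    unfold ucv
    rw [Finset.card_pos]
    exact ⟨y, by simp [h1, h2]⟩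
  rw [hM v v' hne] at h3
  unfold dcv at h3
  rw [Finset.card_pos] at h3
  obtain ⟨y, hy⟩ := h3
  simp only [mem_filter, mem_univ, true_and] at hy
  exact ⟨y, hy⟩

lemma uniqD (H : Gr P r) (hM : Modl P) {v v' w w' : P} (hne : v ≠ v') (h1 : w ⋖ v) (h2 : w ⋖ v')
    (h3 : w' ⋖ v) (h4 : w' ⋖ v') : w = w' := by
  classical
  have h5 := ucv_le_one H hM _ v v' rfl hne
  rw [hM v v' hne] at h5
  unfold dcv at h5
  rw [Finset.card_le_one] at h5
  exact h5 w (by simp [h1, h2]) w' (by simp [h3, h4])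

/-- `z` is the join of `x` and `y` -/
def Jn (x y z : P) : Prop := x ≤ z ∧ y ≤ z ∧ ∀ w, x ≤ w → y ≤ w → z ≤ w

lemma Jn.symm' {x y z : P} (h : Jn x y z) : Jn y x z := ⟨h.2.1, h.1, fun w h1 h2 => h.2.2 w h2 h1⟩

/-- joins exist on the levels at most `k` -/
def JS (P : Type u) [Fintype P] [PartialOrder P] (k : ℕ) : Prop :=
  ∀ x y : P, lev x ≤ k → lev y ≤ k → ∃ z, Jn x y z

lemma eq_of_le_of_lev' {v v' : P} (h : v ≤ v') (h2 : lev v ≤ lev v') : v = v' := by
  by_contra hne
  have := lev_strictAnti (lt_of_le_of_ne h hne)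
  omega

lemma lev_anti {v v' : P} (h : v ≤ v') : lev v' ≤ lev v := by
  rcases eq_or_lt_of_le h with h | h
  · rw [h]
  · exact (lev_strictAnti h).le

/-- a common upper cover is the join -/
lemma join_of_cover (H : Gr P r) {k : ℕ} (hJ : JS P k) {a b p : P} (hne : a ≠ b) (ha : lev a ≤ k)
    (h1 : a ⋖ p) (h2 : b ⋖ p) : Jn a b p := by
  have hla := (H.covBy_iff.mp h1).2
  have hlb := (H.covBy_iff.mp h2).2
  obtain ⟨q, hq⟩ := hJ a b ha (by omega)
  have h3 : q ≤ p := hq.2.2 p h1.le h2.le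
  have h4 : a < q := by
    refine lt_of_le_of_ne hq.1 ?_
    rintro rfl
    exact hne (eq_of_le_of_lev' hq.2.1 (by omega)).symm
  have h5 : q = p := by
    rcases eq_or_lt_of_le h3 with h | h
    · exact h
    · exact absurd h (h1.2 h4)
  rw [← h5]
  exact hq

lemma SM (H : Gr P r) (hM : Modl P) {k : ℕ} (hJ : JS P k) : ∀ (n : ℕ) (a b c : P),
    lev a ≤ lev b + n → a ⋖ c → a ≤ b → lev c ≤ k → ∃ z, Jn b c z ∧ (b = z ∨ b ⋖ z) := by
  intro n
  induction n with
  | zero =>
    intro a b c hn hac hab _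
    have := eq_of_le_of_lev' hab hn
    subst this
    exact ⟨c, ⟨hac.le, le_rfl, fun w _ h => h⟩, Or.inr hac⟩
  | succ n ih =>
    intro a b c hn hac hab hck
    rcases eq_or_lt_of_le hab with h | h
    · subst h
      exact ⟨c, ⟨hac.le, le_rfl, fun w _ h => h⟩, Or.inr hac⟩
    · obtain ⟨a', ha', ha'b⟩ := exists_covBy_le_of_lt h
      by_cases hc : a' = c
      · subst hc
        exact ⟨b, ⟨le_rfl, ha'b, fun w h _ => h⟩, Or.inl rfl⟩
      · obtain ⟨p, hcp, hap⟩ := cU hM (fun h => hc h.symm) hac ha'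
        have h1 := (H.covBy_iff.mp hac).2
        have h2 := (H.covBy_iff.mp ha').2
        have h3 := (H.covBy_iff.mp hcp).2
        obtain ⟨z, hz, hz2⟩ := ih a' b p (by omega) hap ha'b (by omega)
        have hj := join_of_cover H hJ hc (by omega) hap hcp
        refine ⟨z, ⟨hz.1, hcp.le.trans hz.2.1, fun w hbw hcw => ?_⟩, hz2⟩
        exact hz.2.2 w hbw (hj.2.2 w (ha'b.trans hbw) hcw)

lemma QQ (H : Gr P r) (hM : Modl P) {k : ℕ} (hJ : JS P k) {a b d x : P} (hne : a ≠ b)
    (hda : d ⋖ a) (hdb : d ⋖ b) (hak : lev a ≤ k) (hxk : lev x ≤ k + 1) (hxa : x ≤ a)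
    (hxb : x ≤ b) : x ≤ d := by
  have hl1 := (H.covBy_iff.mp hda).2
  have hl2 := (H.covBy_iff.mp hdb).2
  -- first the case of low level
  have key : ∀ x, lev x ≤ k → x ≤ a → x ≤ b → x ≤ d := by
    intro x hxk hxa hxb
    by_cases hdk : lev d ≤ k
    · obtain ⟨m, hm⟩ := hJ x d hxk hdk
      have h1 : m ≤ a := hm.2.2 a hxa hda.le
      have h2 : m ≤ b := hm.2.2 b hxb hdb.le
      rcases eq_or_lt_of_le hm.2.1 with h | h
      · rw [h]; exact hm.1
      · exfalso
        have e1 : m = a := by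
          rcases eq_or_lt_of_le h1 with h' | h'
          · exact h'
          · exact absurd h' (hda.2 h)
        have e2 : m = b := by
          rcases eq_or_lt_of_le h2 with h' | h'
          · exact h'
          · exact absurd h' (hdb.2 h)
        exact hne (e1.symm.trans e2)
    · exfalso
      have e1 := eq_of_le_of_lev' hxa (by omega)
      have e2 := eq_of_le_of_lev' hxb (by omega)
      exact hne (e1.symm.trans e2)
  by_cases hx : lev x ≤ k
  · exact key x hx hxa hxb
  · have hne1 : x ≠ a := by rintro rfl; omega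
    have hne2 : x ≠ b := by rintro rfl; omega
    obtain ⟨x1, hx1, hx1a⟩ := exists_covBy_le_of_lt (lt_of_le_of_ne hxa hne1)
    obtain ⟨x2, hx2, hx2b⟩ := exists_covBy_le_of_lt (lt_of_le_of_ne hxb hne2)
    have hlx1 := (H.covBy_iff.mp hx1).2
    have hlx2 := (H.covBy_iff.mp hx2).2
    by_cases hb1 : x1 ≤ b
    · exact hx1.le.trans (key x1 (by omega) hx1a hb1)
    by_cases ha2 : x2 ≤ a
    · exact hx2.le.trans (key x2 (by omega) ha2 hx2b)
    have hne12 : x1 ≠ x2 := by rintro rfl; exact hb1 hx2b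
    obtain ⟨p, hp1, hp2⟩ := cU hM hne12 hx1 hx2
    obtain ⟨z, hz1, hz2⟩ := cU hM hne hda hdb
    have hj := join_of_cover H hJ hne12 (by omega) hp1 hp2
    have hpz : p ≤ z := hj.2.2 z (hx1a.trans hz1.le) (hx2b.trans hz2.le)
    have hlp := (H.covBy_iff.mp hp1).2
    have hlz := (H.covBy_iff.mp hz1).2
    rcases eq_or_lt_of_le hpz with h | h
    · subst h
      have e1 := eq_of_le_of_lev' hx1a (by omega)
      have e2 := eq_of_le_of_lev' hx2b (by
        have := (H.covBy_iff.mp hp2).2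
        have := (H.covBy_iff.mp hz2).2
        omega)
      subst e1
      subst e2
      exact (uniqD H hM hne hx1 hx2 hda hdb).le
    · obtain ⟨c, hpc, hcz⟩ := exists_le_covBy_of_lt h
      rcases two_low H hz1 hz2 hcz hne with h' | h'
      · subst h'
        exact absurd (hp2.le.trans hpc) ha2
      · subst h'
        exact absurd (hp1.le.trans hpc) hb1

lemma jstep (H : Gr P r) (hM : Modl P) {k : ℕ} (hJ : JS P k) {x y : P} (hx : lev x = k + 1)
    (hy : lev y ≤ k + 1) (hex : ∀ x1, x ⋖ x1 → ∃ s, Jn x1 y s) : ∃ s, Jn x y s := by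
  by_cases hyx : y ≤ x
  · exact ⟨x, le_rfl, hyx, fun w h _ => h⟩
  obtain ⟨x0, hx0, hlx0⟩ := exists_lev_succ hx
  have hcx0 : x ⋖ x0 := H.covBy_iff.mpr ⟨hx0, by omega⟩
  have hup : ∀ w, x ≤ w → y ≤ w → ∃ x1, x ⋖ x1 ∧ x1 ≤ w := by
    intro w hxw hyw
    have : x < w := lt_of_le_of_ne hxw (by rintro rfl; exact hyx hyw)
    exact exists_covBy_le_of_lt this
  by_cases hone : ∀ x1, x ⋖ x1 → x1 = x0
  · obtain ⟨s, hs⟩ := hex x0 hcx0
    refine ⟨s, hcx0.le.trans hs.1, hs.2.1, fun w hxw hyw => ?_⟩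
    obtain ⟨x1, h1, h2⟩ := hup w hxw hyw
    rw [hone x1 h1] at h2
    exact hs.2.2 w h2 hyw
  · push Not at hone
    obtain ⟨x1, hcx1, hne⟩ := hone
    have hup2 : ∀ w, x ≤ w → y ≤ w → x0 ≤ w ∨ x1 ≤ w := by
      intro w hxw hyw
      obtain ⟨x2, h1, h2⟩ := hup w hxw hyw
      rcases two_up H hcx0 hcx1 h1 (fun h => hne h.symm) with h | h
      · subst h; exact Or.inl h2
      · subst h; exact Or.inr h2
    obtain ⟨s0, hs0⟩ := hex x0 hcx0
    obtain ⟨s1, hs1⟩ := hex x1 hcx1
    have hlx1 := (H.covBy_iff.mp hcx1).2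
    by_cases h01 : s0 ≤ s1
    · refine ⟨s0, hcx0.le.trans hs0.1, hs0.2.1, fun w hxw hyw => ?_⟩
      rcases hup2 w hxw hyw with h | h
      · exact hs0.2.2 w h hyw
      · exact h01.trans (hs1.2.2 w h hyw)
    by_cases h10 : s1 ≤ s0
    · refine ⟨s1, hcx1.le.trans hs1.1, hs1.2.1, fun w hxw hyw => ?_⟩
      rcases hup2 w hxw hyw with h | h
      · exact h10.trans (hs0.2.2 w h hyw)
      · exact hs1.2.2 w h hyw
    exfalso
    obtain ⟨p, hp0, hp1⟩ := cU hM (fun h => hne h.symm) hcx0 hcx1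
    have hlp := (H.covBy_iff.mp hp0).2
    obtain ⟨t0, ht0, ht0c⟩ := SM H hM hJ (lev x0) x0 s0 p (Nat.le_add_left _ _) hp0 hs0.1
      (by omega)
    obtain ⟨t1, ht1, ht1c⟩ := SM H hM hJ (lev x1) x1 s1 p (Nat.le_add_left _ _) hp1 hs1.1
      (by omega)
    have htt : t0 = t1 := by
      apply le_antisymm
      · apply ht0.2.2 t1 _ ht1.2.1
        exact hs0.2.2 t1 (hp0.le.trans ht1.2.1) (hs1.2.1.trans ht1.1)
      · apply ht1.2.2 t0 _ ht0.2.1
        exact hs1.2.2 t0 (hp1.le.trans ht0.2.1) (hs0.2.1.trans ht0.1)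
    rw [← htt] at ht1 ht1c
    have hc0 : s0 ⋖ t0 := by
      rcases ht0c with h | h
      · exfalso
        apply h10
        rw [h]
        exact ht1.1
      · exact h
    have hc1 : s1 ⋖ t0 := by
      rcases ht1c with h | h
      · exfalso
        apply h01
        rw [h]
        exact ht0.1
      · exact h
    have hs01 : s0 ≠ s1 := by rintro rfl; exact h01 le_rfl
    obtain ⟨d, hd0, hd1⟩ := cD hM hs01 hc0 hc1
    have hls0 := lev_anti hs0.1
    have hx_d : x ≤ d := QQ H hM hJ hs01 hd0 hd1 (by omega) (by omega)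
      (hcx0.le.trans hs0.1) (hcx1.le.trans hs1.1)
    have hy_d : y ≤ d := QQ H hM hJ hs01 hd0 hd1 (by omega) hy hs0.2.1 hs1.2.1
    rcases hup2 d hx_d hy_d with h | h
    · exact lt_irrefl _ (hd0.lt.trans_le (hs0.2.2 d h hy_d))
    · exact lt_irrefl _ (hd1.lt.trans_le (hs1.2.2 d h hy_d))

lemma js_all (H : Gr P r) (hM : Modl P) (htop : ∀ x y : P, lev x = 0 → lev y = 0 → x = y) :
    ∀ k, JS P k := by
  intro k
  induction k with
  | zero =>
    intro x y hx hy
    have := htop x y (by omega) (by omega)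
    subst this
    exact ⟨x, le_rfl, le_rfl, fun w h _ => h⟩
  | succ k ih =>
    have step1 : ∀ x y : P, lev x = k + 1 → lev y ≤ k → ∃ z, Jn x y z := by
      intro x y hx hy
      refine jstep H hM ih hx (by omega) fun x1 hx1 => ?_
      have := (H.covBy_iff.mp hx1).2
      exact ih x1 y (by omega) hy
    intro x y hx hy
    by_cases hx' : lev x ≤ k
    · by_cases hy' : lev y ≤ k
      · exact ih x y hx' hy'
      · obtain ⟨z, hz⟩ := step1 y x (by omega) hx'
        exact ⟨z, hz.symm'⟩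
    · by_cases hy' : lev y ≤ k
      · exact step1 x y (by omega) hy'
      · refine jstep H hM ih (by omega) (by omega) fun x1 hx1 => ?_
        have := (H.covBy_iff.mp hx1).2
        obtain ⟨z, hz⟩ := step1 y x1 (by omega) (by omega)
        exact ⟨z, hz.symm'⟩

/-- unique maximal element from connectedness and the diamond property -/
lemma unique_top (_H : Gr P r) (hM : Modl P) (hc : (SimpleGraph.hasse P).Connected) (x y : P)
    (hx : lev x = 0) (hy : lev y = 0) : x = y := by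
  have hd : ∀ a b c : P, a ⋖ b → a ⋖ c →
      ∃ d, Relation.ReflGen (· ⋖ ·) b d ∧ Relation.ReflTransGen (· ⋖ ·) c d := by
    intro a b c hb hcc
    by_cases hbc : b = c
    · subst hbc
      exact ⟨b, Relation.ReflGen.refl, Relation.ReflTransGen.refl⟩
    · obtain ⟨y, h1, h2⟩ := cU hM hbc hb hcc
      exact ⟨y, Relation.ReflGen.single h1, Relation.ReflTransGen.single h2⟩
  have heq := Relation.equivalence_join_reflTransGen hd
  have hall : ∀ x y : P, Relation.Join (Relation.ReflTransGen (· ⋖ ·)) x y := by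
    intro x y
    have h1 := hc.preconnected x y
    rw [SimpleGraph.reachable_iff_reflTransGen] at h1
    induction h1 with
    | refl => exact heq.refl x
    | tail _ hbc ih =>
      refine heq.trans ih ?_
      rw [SimpleGraph.hasse_adj] at hbc
      rcases hbc with h | h
      · exact ⟨_, Relation.ReflTransGen.single h, Relation.ReflTransGen.refl⟩
      · exact ⟨_, Relation.ReflTransGen.refl, Relation.ReflTransGen.single h⟩
  have hle : ∀ {a b : P}, Relation.ReflTransGen (· ⋖ ·) a b → a ≤ b := by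
    intro a b h
    induction h with
    | refl => exact le_rfl
    | tail _ hbc ih => exact ih.trans hbc.le
  obtain ⟨z, hz1, hz2⟩ := hall x y
  have e1 := eq_of_le_of_lev' (hle hz1) (by omega)
  have e2 := eq_of_le_of_lev' (hle hz2) (by omega)
  rw [e1, e2]

theorem distrib_of_modl (hG : IsGaussian P) (hc : (SimpleGraph.hasse P).Connected)
    (hM : Modl P) : IsDistribLatticeOrder P := by
  obtain ⟨r, H⟩ := gr_of_connected hG hc
  have hJ := js_all H hM (unique_top H hM hc)
  refine distrib_of_lub hG fun x y => ?_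
  obtain ⟨z, hz⟩ := hJ (lev x + lev y) x y (by omega) (by omega)
  refine ⟨z, ?_, ?_⟩
  · intro t ht
    simp only [Set.mem_insert_iff, Set.mem_singleton_iff] at ht
    rcases ht with rfl | rfl
    · exact hz.1
    · exact hz.2.1
  · intro t ht
    exact hz.2.2 t (ht (by simp)) (ht (by simp))

end Pool.Agent.GaussPoset
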