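import Pool.Agent.W_MP_448cb3_h96.Basic

namespace Pool.Agent.GaussPoset

set_option linter.unusedSectionVars false

open Polynomial Finset

universe u

variable {P : Type u} [Fintype P] [PartialOrder P] [DecidableEq P]

open Classical in
/-- generating series of the configurations with given filter `F` -/
noncomputable def G (F : Finset P) : PowerSeries ℤ :=
  PowerSeries.mk fun n => (((univ : Finset P).piAntidiag n).filter (fun l => Conf F l)).card

open Classical in
lemma coeff_U (m n : ℕ) : (U P m).coeff n =
    ((((univ : Finset P).piAntidiag n).filter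
      (fun r : P → ℕ => Monotone r ∧ ∀ x, r x ≤ m)).card : ℤ) := by
  unfold U
  rw [Polynomial.finsetSum_coeff]
  simp only [coeff_X_pow]
  rw [Finset.sum_boole]
  congr 1
  refine Finset.card_bij (fun σ _ x => (σ x : ℕ)) ?_ ?_ ?_
  · intro σ hσ
    simp only [mem_filter, mem_univ, true_and] at hσ
    simp only [mem_filter, mem_piAntidiag, mem_univ, implies_true, and_true]
    refine ⟨hσ.2.symm, fun x y hxy => ?_, fun x => Nat.lt_succ_iff.mp (σ x).2⟩
    exact hσ.1 hxy
  · intro σ _ τ _ h
    funext x
    exact Fin.ext (congrFun h x)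
  · intro r hr
    simp only [mem_filter, mem_piAntidiag, mem_univ, implies_true, and_true] at hr
    refine ⟨fun x => ⟨r x, Nat.lt_succ_iff.mpr (hr.2.2 x)⟩, ?_, rfl⟩
    simp only [mem_filter, mem_univ, true_and]
    exact ⟨fun x y hxy => hr.2.1 hxy, hr.1.symm⟩

lemma conf_add (F : Finset P) (l : P → ℕ) (c : ℕ) :
    Conf F (fun x => l x + if x ∈ F then c else 0) ↔ Conf F l := by
  unfold Conf
  constructor
  · rintro ⟨h1, h2, h3⟩
    refine ⟨h1, fun x y hxy hx hy => ?_, fun x y hxy hx hy => ?_⟩
    · have := h2 x y hxy hx hy
      simpa [hx, hy] using this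
    · have := h3 x y hxy hx hy
      simpa [hx, hy] using this
  · rintro ⟨h1, h2, h3⟩
    refine ⟨h1, fun x y hxy hx hy => ?_, fun x y hxy hx hy => ?_⟩
    · have := h2 x y hxy hx hy
      simpa [hx, hy] using this
    · have := h3 x y hxy hx hy
      simpa [hx, hy] using this

open Classical in
lemma card_val (m n : ℕ) (F : Finset P) :
    ((((univ : Finset P).piAntidiag n).filter (fun r => Val m r F)).card : ℤ) =
      PowerSeries.coeff n (PowerSeries.X ^ ((m + 1) * F.card) * G F) := by
  rw [PowerSeries.coeff_X_pow_mul']
  have hsum : ∀ l : P → ℕ, ∑ x, (l x + if x ∈ F then (m + 1) else 0) =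
      ∑ x, l x + (m + 1) * F.card := by
    intro l
    rw [Finset.sum_add_distrib, Finset.sum_ite_mem, univ_inter, sum_const, smul_eq_mul, mul_comm]
  split_ifs with h
  · unfold G
    rw [PowerSeries.coeff_mk]
    congr 1
    symm
    refine Finset.card_bij (fun l _ x => l x + if x ∈ F then (m + 1) else 0) ?_ ?_ ?_
    · intro l hl
      simp only [mem_filter, mem_piAntidiag, mem_univ, implies_true, and_true] at hl ⊢
      refine ⟨?_, (conf_add F l (m + 1)).mpr hl.2, ?_⟩
      · rw [hsum, hl.1]; omega
      · intro x hx
        simp only [hx, if_true]; omega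
    · intro l _ l' _ h
      funext x
      have := congrFun h x
      simpa using this
    · intro r hr
      simp only [mem_filter, mem_piAntidiag, mem_univ, implies_true, and_true] at hr
      have hr4 := hr.2.2
      have key : (fun x => (r x - if x ∈ F then (m + 1) else 0) + if x ∈ F then (m + 1) else 0)
          = r := by
        funext x
        by_cases hx : x ∈ F
        · have := hr4 x hx
          simp only [hx, if_true]; omega
        · simp [hx]
      refine ⟨fun x => r x - if x ∈ F then (m + 1) else 0, ?_, key⟩
      simp only [mem_filter, mem_piAntidiag, mem_univ, implies_true, and_true]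
      constructor
      · have := hsum (fun x => r x - if x ∈ F then (m + 1) else 0)
        have h2 : ∑ x, ((r x - if x ∈ F then (m + 1) else 0) + if x ∈ F then (m + 1) else 0)
            = ∑ x, r x := Finset.sum_congr rfl (fun x _ => congrFun key x)
        rw [h2, hr.1] at this
        omega
      · rw [← conf_add F _ (m + 1), key]
        exact hr.2.1
  · rw [Nat.cast_eq_zero, Finset.card_eq_zero, Finset.filter_eq_empty_iff]
    intro r hr hv
    simp only [mem_piAntidiag, mem_univ, implies_true, and_true] at hr
    apply h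
    have h4 := hv.2
    have : ∑ x, (if x ∈ F then (m + 1) else 0) ≤ ∑ x, r x := by
      apply Finset.sum_le_sum
      intro x _
      by_cases hx : x ∈ F
      · simp only [hx, if_true]; exact h4 x hx
      · simp [hx]
    rw [Finset.sum_ite_mem, univ_inter, sum_const, smul_eq_mul, mul_comm, hr] at this
    exact this

open Classical in
/-- `U_m = ∑_F (-1)^{|F|} q^{(m+1)|F|} G(F)` -/
lemma U_eq (m : ℕ) : ((U P m : ℤ[X]) : PowerSeries ℤ) =
    ∑ F : Finset P, (-1 : PowerSeries ℤ) ^ F.card * (PowerSeries.X ^ ((m + 1) * F.card) * G F) := by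
  ext n
  rw [Polynomial.coeff_coe, coeff_U, map_sum]
  have h1 : ∀ F : Finset P, PowerSeries.coeff n ((-1 : PowerSeries ℤ) ^ F.card *
      (PowerSeries.X ^ ((m + 1) * F.card) * G F)) =
      ∑ r ∈ (univ : Finset P).piAntidiag n, if Val m r F then (-1 : ℤ) ^ F.card else 0 := by
    intro F
    have : ((-1 : PowerSeries ℤ) ^ F.card) = PowerSeries.C ((-1 : ℤ) ^ F.card) := by simp
    rw [this, PowerSeries.coeff_C_mul, ← card_val, Finset.card_filter]
    push_cast
    rw [Finset.mul_sum]
    refine Finset.sum_congr rfl fun r _ => ?_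
    split_ifs <;> simp
  rw [Finset.sum_congr rfl (fun F _ => h1 F), Finset.sum_comm]
  rw [Finset.card_filter]
  push_cast
  refine Finset.sum_congr rfl fun r _ => ?_
  rw [sum_val m r]

end Pool.Agent.GaussPoset
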